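import Mathlib

/-! Project WF: MP_657b9f_lc (well-founded part of the Wadge order below the rationals). Definitions. -/

namespace Pool.Agent.R270.WF
open Set

/-- `A` is reducible to `B` by a continuous function `ℝ → ℝ`. -/
def Red (A B : Set ℝ) : Prop := ∃ f : ℝ → ℝ, Continuous f ∧ A = f ⁻¹' B

/-- the rationals as a set of reals -/
def Qs : Set ℝ := Set.range ((↑) : ℚ → ℝ)

/-- the class `𝒟` -/
def InD (A : Set ℝ) : Prop := Red A Qs ∧ ¬ IsOpen A ∧ ¬ IsClosed A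

/-- `[U.1,U.2]` is a nondegenerate bounded component of `X` (a gap); a red gap is `Gap X U`, a blue gap is `Gap Xᶜ U` -/
def Gap (X : Set ℝ) (U : ℝ × ℝ) : Prop :=
  U.1 < U.2 ∧ Icc U.1 U.2 ⊆ X ∧ (∀ e : ℝ, 0 < e → ∃ y ∈ Ioo (U.1 - e) U.1, y ∉ X) ∧
    (∀ e : ℝ, 0 < e → ∃ y ∈ Ioo U.2 (U.2 + e), y ∉ X)

/-- property (I) -/
def PI (X : Set ℝ) : Prop :=
  ∀ a b : ℝ, a < b → (Ioo a b ⊆ X → Icc a b ⊆ X) ∧ (Ioo a b ⊆ Xᶜ → Icc a b ⊆ Xᶜ)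

/-- `X` is `F_σ` -/
def Fs (X : Set ℝ) : Prop := ∃ F : ℕ → Set ℝ, (∀ n, IsClosed (F n)) ∧ X = ⋃ n, F n

/-- closure of the union of a family of intervals -/
def Cov (D : Set (ℝ × ℝ)) : Set ℝ := closure (⋃ U ∈ D, Icc U.1 U.2)

/-- every member of the family is a two-sided limit of members -/
def Acc (D : Set (ℝ × ℝ)) : Prop :=
  ∀ U ∈ D, ∀ e : ℝ, 0 < e → (∃ V ∈ D, U.1 - e < V.1 ∧ V.2 < U.1) ∧ (∃ V ∈ D, U.2 < V.1 ∧ V.2 < U.2 + e)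

/-- the interval `(p,q)` meets both `X` and its complement -/
def Mix (X : Set ℝ) (p q : ℝ) : Prop := (∃ x ∈ Ioo p q, x ∈ X) ∧ (∃ x ∈ Ioo p q, x ∉ X)

/-- richness -/
def T2 (X : Set ℝ) : Prop :=
  ∀ p q : ℝ, Mix X p q → ∃ D : Set (ℝ × ℝ), D.Nonempty ∧ (∀ U ∈ D, Gap X U) ∧ Cov D ⊆ X ∩ Ioo p q ∧ Acc D

/-- richness, with saturated families: a gap of `X` touching `Cov D` belongs to `D` -/
def Good (X : Set ℝ) : Prop :=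
  ∀ p q : ℝ, Mix X p q → ∃ D : Set (ℝ × ℝ), D.Nonempty ∧ (∀ U ∈ D, Gap X U) ∧ Cov D ⊆ X ∩ Ioo p q ∧ Acc D ∧
    ∀ U, Gap X U → (Icc U.1 U.2 ∩ Cov D).Nonempty → U ∈ D

/-- `J` is an open interval (possibly unbounded) whose two ends are approached from inside by `X` and by `Xᶜ` -/
structure EndJ (X J : Set ℝ) : Prop where
  isOpen : IsOpen J
  conn : J.OrdConnected
  nonempty : J.Nonempty
  outL : ∀ x ∈ J, ∃ y ∈ J, y < x ∧ y ∉ X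
  outR : ∀ x ∈ J, ∃ y ∈ J, x < y ∧ y ∉ X
  inL : ∀ x ∈ J, ∃ y ∈ J, y < x ∧ y ∈ X
  inR : ∀ x ∈ J, ∃ y ∈ J, x < y ∧ y ∈ X

/-- normalised exhaustion of `X ∩ J` by families `D n` of gaps -/
structure Norm (X J : Set ℝ) (D : ℕ → Set (ℝ × ℝ)) : Prop where
  mono : ∀ n, D n ⊆ D (n + 1)
  gap : ∀ n, ∀ U ∈ D n, Gap X U ∧ Icc U.1 U.2 ⊆ J
  all : ∀ U, Gap X U → Icc U.1 U.2 ⊆ J → ∃ n, U ∈ D n
  sub : ∀ n, Cov (D n) ∩ J ⊆ X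
  cover : ∀ x ∈ X ∩ J, ∃ n, x ∈ Cov (D n)
  sat : ∀ n U, Gap X U → Icc U.1 U.2 ⊆ J → (Icc U.1 U.2 ∩ Cov (D n)).Nonempty → U ∈ D n
  acc : ∀ n, Acc (D n)
  fillL : ∀ n, ∀ p ∈ J, p ∉ Cov (D n) → ∃ V ∈ D (n + 1), V.2 < p ∧ Disjoint (Icc V.1 p) (Cov (D n))
  fillR : ∀ n, ∀ p ∈ J, p ∉ Cov (D n) → ∃ V ∈ D (n + 1), p < V.1 ∧ Disjoint (Icc p V.2) (Cov (D n))
  lowL : ∀ x ∈ J, ∃ V ∈ D 0, V.2 < x
  lowR : ∀ x ∈ J, ∃ V ∈ D 0, x < V.1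

/-- no blue gap inside `J` -/
def NoBlue (X J : Set ℝ) : Prop := ∀ U, Icc U.1 U.2 ⊆ J → ¬ Gap Xᶜ U

/-- blue gaps are dense inside `J` -/
def DenseBlue (X J : Set ℝ) : Prop :=
  ∀ p q : ℝ, Icc p q ⊆ J → Mix X p q → ∃ U, Gap Xᶜ U ∧ p < U.1 ∧ U.2 < q

theorem gap_unique {X : Set ℝ} {U V : ℝ × ℝ} (hU : Gap X U) (hV : Gap X V) (h : U.1 = V.1) : U = V := by
  obtain ⟨h1, h2, h3, h4⟩ := hU
  obtain ⟨k1, k2, k3, k4⟩ := hV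
  rcases lt_trichotomy U.2 V.2 with hlt | heq | hgt
  · obtain ⟨y, hy, hyX⟩ := h4 (V.2 - U.2) (by linarith)
    exact absurd (k2 ⟨by have := hy.1; linarith, by have := hy.2; linarith⟩) hyX
  · exact Prod.ext h heq
  · obtain ⟨y, hy, hyX⟩ := k4 (U.2 - V.2) (by linarith)
    exact absurd (h2 ⟨by have := hy.1; linarith, by have := hy.2; linarith⟩) hyX

/-- the gaps (of both colours) inside `J` -/
def Gp (X J : Set ℝ) : Type := {U : ℝ × ℝ // Icc U.1 U.2 ⊆ J ∧ (Gap X U ∨ Gap Xᶜ U)}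

theorem gp_inj (X J : Set ℝ) : Function.Injective (fun U : Gp X J => U.1.1) := by
  intro U V h
  have h' : U.1.1 = V.1.1 := h
  apply Subtype.ext
  rcases U.2.2 with hU | hU <;> rcases V.2.2 with hV | hV
  · exact gap_unique hU hV h'
  · exfalso
    have h1 : U.1.1 ∈ X := hU.2.1 ⟨le_refl _, hU.1.le⟩
    have h2 : V.1.1 ∈ Xᶜ := hV.2.1 ⟨le_refl _, hV.1.le⟩
    rw [h'] at h1; exact h2 h1
  · exfalso
    have h1 : U.1.1 ∈ Xᶜ := hU.2.1 ⟨le_refl _, hU.1.le⟩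
    have h2 : V.1.1 ∈ X := hV.2.1 ⟨le_refl _, hV.1.le⟩
    rw [h'] at h1; exact h1 h2
  · exact gap_unique hU hV h'

/-- gaps are ordered by their left end points -/
noncomputable instance (X J : Set ℝ) : LinearOrder (Gp X J) := LinearOrder.lift' (fun U : Gp X J => U.1.1) (gp_inj X J)

theorem gp_lt {X J : Set ℝ} (U V : Gp X J) : U < V ↔ U.1.1 < V.1.1 := Iff.rfl
theorem gp_le {X J : Set ℝ} (U V : Gp X J) : U ≤ V ↔ U.1.1 ≤ V.1.1 := Iff.rfl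

open Classical in
/-- the label of a gap: the first `n` with `U ∈ D n`, and `⊤` for blue gaps -/
noncomputable def lab {X J : Set ℝ} (D : ℕ → Set (ℝ × ℝ)) (U : Gp X J) : ℕ∞ :=
  if h : ∃ n, U.1 ∈ D n then ((Nat.find h : ℕ) : ℕ∞) else ⊤

/-- the axioms of a normalised labelled linear order -/
structure LabAx (P : Type) [LinearOrder P] (l : P → ℕ∞) : Prop where
  low0 : ∀ b, ∃ c, c < b ∧ l c = 0
  high0 : ∀ a, ∃ c, a < c ∧ l c = 0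
  dens : ∀ a b, a < b → ∃ c, a < c ∧ c < b ∧ l c ≠ ⊤
  accR : ∀ a b, a < b → l a ≠ ⊤ → ∃ c, a < c ∧ c < b ∧ l c = l a
  accL : ∀ a b, a < b → l b ≠ ⊤ → ∃ c, a < c ∧ c < b ∧ l c = l b
  up : ∀ a b c, a < c → c < b → ∀ m : ℕ, l c ≤ m → ∃ d, a < d ∧ d < b ∧ l d = m
  top : (∀ p, l p ≠ ⊤) ∨ (∀ a b, a < b → ∃ d, a < d ∧ d < b ∧ l d = ⊤)
  gapR : ∀ a b, a < b → ∀ n : ℕ, (n : ℕ∞) < l b → (∃ c, a < c ∧ c < b ∧ l c ≤ n) →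
    ∃ e, a < e ∧ e < b ∧ l e = ((n + 1 : ℕ) : ℕ∞) ∧ ∀ x, e < x → x < b → (n : ℕ∞) < l x
  gapL : ∀ a b, a < b → ∀ n : ℕ, (n : ℕ∞) < l a → (∃ c, a < c ∧ c < b ∧ l c ≤ n) →
    ∃ e, a < e ∧ e < b ∧ l e = ((n + 1 : ℕ) : ℕ∞) ∧ ∀ x, a < x → x < e → (n : ℕ∞) < l x

end Pool.Agent.R270.WF
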