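import Pool.Agent.R270.WF.Stm

/-! Project WF, module M1 (helper574): richness passes down under reductions. -/

namespace Pool.Agent.R270.WF
open Set

namespace M1

theorem cross_core (g : ℝ → ℝ) (hg : Continuous g) (L H : Set ℝ) (hL : IsOpen L) (hH : IsOpen H)
    (hLH : Disjoint (closure L) (closure H)) (y z : ℝ) (hyz : y < z) (hy : g y ∈ L)
    (hz : g z ∈ H) : ∃ s t : ℝ, y < s ∧ s < t ∧ t < z ∧ (∀ w ∈ Icc s t, g w ∉ L ∧ g w ∉ H) ∧
      (∀ e : ℝ, 0 < e → ∃ w ∈ Ioo (s - e) s, g w ∈ L) ∧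
      (∀ e : ℝ, 0 < e → ∃ w ∈ Ioo t (t + e), g w ∈ H) := by
  have hdisj : ∀ v, v ∈ closure L → v ∈ closure H → False := fun v h1 h2 =>
    Set.disjoint_left.mp hLH h1 h2
  set SH : Set ℝ := {x | x ∈ Icc y z ∧ g x ∈ H} with hSH
  have hSHne : SH.Nonempty := ⟨z, ⟨hyz.le, le_rfl⟩, hz⟩
  have hSHbd : BddBelow SH := ⟨y, fun x hx => hx.1.1⟩
  set t := sInf SH with ht
  have hyt : y ≤ t := le_csInf hSHne (fun x hx => hx.1.1)
  have htz : t ≤ z := csInf_le hSHbd ⟨⟨hyz.le, le_rfl⟩, hz⟩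
  have hbelow : ∀ w, y ≤ w → w < t → g w ∉ H := by
    intro w h1 h2 h3
    have := csInf_le hSHbd (show w ∈ SH from ⟨⟨h1, by linarith⟩, h3⟩)
    linarith
  have hopenL : IsOpen (g ⁻¹' L) := hL.preimage hg
  have hopenH : IsOpen (g ⁻¹' H) := hH.preimage hg
  have htH : g t ∉ H := by
    intro h
    have hyt' : y < t := by
      rcases hyt.lt_or_eq with h1 | h1
      · exact h1
      · exfalso
        rw [← h1] at h
        exact hdisj _ (subset_closure hy) (subset_closure h)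
    obtain ⟨e, he, hball⟩ := Metric.isOpen_iff.mp hopenH t h
    have h2 : max y (t - e / 2) ∈ Metric.ball t e := by
      rw [Metric.mem_ball, Real.dist_eq, abs_lt]
      constructor
      · have := le_max_right y (t - e / 2)
        linarith
      · have : max y (t - e / 2) < t := max_lt hyt' (by linarith)
        linarith
    exact hbelow _ (le_max_left _ _) (max_lt hyt' (by linarith)) (hball h2)
  have htz' : t < z := by
    rcases htz.lt_or_eq with h1 | h1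
    · exact h1
    · exfalso; rw [h1] at htH; exact htH hz
  have hright : ∀ e : ℝ, 0 < e → ∃ w ∈ Ioo t (t + e), g w ∈ H := by
    intro e he
    obtain ⟨w, hw, hwe⟩ := exists_lt_of_csInf_lt hSHne (show sInf SH < t + e by linarith)
    refine ⟨w, ⟨?_, hwe⟩, hw.2⟩
    rcases (csInf_le hSHbd hw).lt_or_eq with h1 | h1
    · exact h1
    · exfalso
      apply htH
      rw [ht, h1]
      exact hw.2
  have htcl : g t ∈ closure H := by
    rw [Metric.mem_closure_iff]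
    intro e he
    obtain ⟨d, hd, hcont⟩ := Metric.continuous_iff.mp hg t e he
    obtain ⟨w, hw, hwH⟩ := hright d hd
    refine ⟨g w, hwH, ?_⟩
    rw [dist_comm]
    apply hcont
    rw [Real.dist_eq, abs_lt]
    exact ⟨by linarith [hw.1], by linarith [hw.2]⟩
  set SL : Set ℝ := {x | x ∈ Icc y t ∧ g x ∈ L} with hSL
  have hSLne : SL.Nonempty := ⟨y, ⟨le_rfl, hyt⟩, hy⟩
  have hSLbd : BddAbove SL := ⟨t, fun x hx => hx.1.2⟩
  set s := sSup SL with hs
  have hys : y ≤ s := le_csSup hSLbd ⟨⟨le_rfl, hyt⟩, hy⟩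
  have hst : s ≤ t := csSup_le hSLne (fun x hx => hx.1.2)
  have htL : g t ∉ L := fun h => hdisj _ (subset_closure h) htcl
  have habove : ∀ w, s < w → w ≤ t → g w ∉ L := by
    intro w h1 h2 h3
    have := le_csSup hSLbd (show w ∈ SL from ⟨⟨by linarith, h2⟩, h3⟩)
    linarith
  have hsL : g s ∉ L := by
    intro h
    have hst' : s < t := by
      rcases hst.lt_or_eq with h1 | h1
      · exact h1
      · exfalso; rw [h1] at h; exact htL h
    obtain ⟨e, he, hball⟩ := Metric.isOpen_iff.mp hopenL s h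
    have h2 : min t (s + e / 2) ∈ Metric.ball s e := by
      rw [Metric.mem_ball, Real.dist_eq, abs_lt]
      constructor
      · have : s < min t (s + e / 2) := lt_min hst' (by linarith)
        linarith
      · have := min_le_right t (s + e / 2)
        linarith
    exact habove _ (lt_min hst' (by linarith)) (min_le_left _ _) (hball h2)
  have hys' : y < s := by
    rcases hys.lt_or_eq with h1 | h1
    · exact h1
    · exfalso; rw [← h1] at hsL; exact hsL hy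
  have hleft : ∀ e : ℝ, 0 < e → ∃ w ∈ Ioo (s - e) s, g w ∈ L := by
    intro e he
    obtain ⟨w, hw, hwe⟩ := exists_lt_of_lt_csSup hSLne (show s - e < sSup SL by linarith)
    refine ⟨w, ⟨hwe, ?_⟩, hw.2⟩
    rcases (le_csSup hSLbd hw).lt_or_eq with h1 | h1
    · exact h1
    · exfalso
      apply hsL
      rw [hs, ← h1]
      exact hw.2
  have hscl : g s ∈ closure L := by
    rw [Metric.mem_closure_iff]
    intro e he
    obtain ⟨d, hd, hcont⟩ := Metric.continuous_iff.mp hg s e he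
    obtain ⟨w, hw, hwL⟩ := hleft d hd
    refine ⟨g w, hwL, ?_⟩
    rw [dist_comm]
    apply hcont
    rw [Real.dist_eq, abs_lt]
    exact ⟨by linarith [hw.1], by linarith [hw.2]⟩
  have hst' : s < t := by
    rcases hst.lt_or_eq with h1 | h1
    · exact h1
    · exfalso; rw [h1] at hscl; exact hdisj _ hscl htcl
  refine ⟨s, t, hys', hst', htz', ?_, hleft, hright⟩
  intro w hw
  constructor
  · rcases hw.1.lt_or_eq with h1 | h1
    · exact habove w h1 hw.2
    · rw [← h1]; exact hsL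
  · rcases hw.2.lt_or_eq with h1 | h1
    · exact hbelow w (by linarith [hw.1]) h1
    · rw [h1]; exact htH

theorem side (g : ℝ → ℝ) (hg : Continuous g) {Y : Set ℝ} {V : ℝ × ℝ} (hV : Gap Y V) (w1 s : ℝ)
    (h : (g w1 < V.1 ∧ g s = V.1) ∨ (V.2 < g w1 ∧ g s = V.2)) :
    ∃ w ∈ uIcc w1 s, w ≠ s ∧ g w ∉ Y := by
  have hivt := intermediate_value_uIcc (hg.continuousOn (s := uIcc w1 s))
  rcases h with ⟨h1, h2⟩ | ⟨h1, h2⟩
  · obtain ⟨v, hv, hvY⟩ := hV.2.2.1 (V.1 - g w1) (by linarith)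
    have h3 : v ∈ uIcc (g w1) (g s) := by
      rw [mem_uIcc]; left
      exact ⟨by linarith [hv.1], by rw [h2]; exact hv.2.le⟩
    obtain ⟨w, hw, rfl⟩ := hivt h3
    refine ⟨w, hw, ?_, hvY⟩
    rintro rfl
    have := hv.2
    linarith
  · obtain ⟨v, hv, hvY⟩ := hV.2.2.2 (g w1 - V.2) (by linarith)
    have h3 : v ∈ uIcc (g w1) (g s) := by
      rw [mem_uIcc]; right
      exact ⟨by rw [h2]; exact hv.1.le, by linarith [hv.2]⟩
    obtain ⟨w, hw, rfl⟩ := hivt h3
    refine ⟨w, hw, ?_, hvY⟩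
    rintro rfl
    have := hv.1
    linarith

/-- the values at the ends of a gap over `V` -/
def Ends (g : ℝ → ℝ) (U V : ℝ × ℝ) : Prop :=
  (g U.1 = V.1 ∧ g U.2 = V.2) ∨ (g U.1 = V.2 ∧ g U.2 = V.1)

/-- `V` lies strictly between `u` and `v` -/
def Btw (V : ℝ × ℝ) (u v : ℝ) : Prop := (u < V.1 ∧ V.2 < v) ∨ (v < V.1 ∧ V.2 < u)

theorem cl_lt (g : ℝ → ℝ) (hg : Continuous g) (s a : ℝ) (h : ∀ e : ℝ, 0 < e →
    ∃ w ∈ Ioo (s - e) (s + e), g w < a) : g s ≤ a := by
  by_contra hc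
  push Not at hc
  obtain ⟨d, hd, hcont⟩ := Metric.continuous_iff.mp hg s (g s - a) (by linarith)
  obtain ⟨w, hw, hwa⟩ := h d hd
  have h2 := hcont w (by rw [Real.dist_eq, abs_lt]; exact ⟨by linarith [hw.1], by linarith [hw.2]⟩)
  rw [Real.dist_eq, abs_lt] at h2
  linarith [h2.1]

theorem cl_gt (g : ℝ → ℝ) (hg : Continuous g) (s a : ℝ) (h : ∀ e : ℝ, 0 < e →
    ∃ w ∈ Ioo (s - e) (s + e), a < g w) : a ≤ g s := by
  have := cl_lt (fun x => - g x) hg.neg s (-a) (by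
    intro e he
    obtain ⟨w, hw, h2⟩ := h e he
    exact ⟨w, hw, by simpa using h2⟩)
  have h3 : - g s ≤ - a := this
  linarith

theorem crossing {X Y : Set ℝ} {g : ℝ → ℝ} (hg : Continuous g) (hX : X = g ⁻¹' Y) {V : ℝ × ℝ}
    (hV : Gap Y V) {y z : ℝ} (hyz : y < z) (h : Btw V (g y) (g z)) :
    ∃ U : ℝ × ℝ, Gap X U ∧ y < U.1 ∧ U.2 < z ∧ Ends g U V := by
  subst hX
  have hVlt := hV.1
  have hcl : Disjoint (closure (Iio V.1)) (closure (Ioi V.2)) := by
    rw [closure_Iio, closure_Ioi, Set.disjoint_left]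
    intro v h1 h2
    have h1' : v ≤ V.1 := h1
    have h2' : V.2 ≤ v := h2
    linarith
  rcases h with ⟨h1, h2⟩ | ⟨h1, h2⟩
  · obtain ⟨s, t, hys, hst, htz, hmid, hl, hr⟩ := cross_core g hg (Iio V.1) (Ioi V.2) isOpen_Iio
      isOpen_Ioi hcl y z hyz h1 h2
    have hs1 : g s ≤ V.1 := cl_lt g hg s V.1 (fun e he => by
      obtain ⟨w, hw, h3⟩ := hl e he
      exact ⟨w, ⟨hw.1, by linarith [hw.2]⟩, h3⟩)
    have hs2 : V.1 ≤ g s := not_lt.mp (hmid s ⟨le_rfl, hst.le⟩).1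
    have ht1 : V.2 ≤ g t := cl_gt g hg t V.2 (fun e he => by
      obtain ⟨w, hw, h3⟩ := hr e he
      exact ⟨w, ⟨by linarith [hw.1], hw.2⟩, h3⟩)
    have ht2 : g t ≤ V.2 := not_lt.mp (hmid t ⟨hst.le, le_rfl⟩).2
    have hs : g s = V.1 := le_antisymm hs1 hs2
    have ht : g t = V.2 := le_antisymm ht2 ht1
    refine ⟨(s, t), ⟨hst, ?_, ?_, ?_⟩, hys, htz, Or.inl ⟨hs, ht⟩⟩
    · intro w hw
      exact hV.2.1 ⟨not_lt.mp (hmid w hw).1, not_lt.mp (hmid w hw).2⟩
    · intro e he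
      obtain ⟨w1, hw1, h3⟩ := hl e he
      obtain ⟨w, hw, hne, hwY⟩ := side g hg hV w1 s (Or.inl ⟨h3, hs⟩)
      rw [uIcc_of_le hw1.2.le] at hw
      exact ⟨w, ⟨lt_of_lt_of_le hw1.1 hw.1, lt_of_le_of_ne hw.2 hne⟩, hwY⟩
    · intro e he
      obtain ⟨w1, hw1, h3⟩ := hr e he
      obtain ⟨w, hw, hne, hwY⟩ := side g hg hV w1 t (Or.inr ⟨h3, ht⟩)
      rw [uIcc_of_ge hw1.1.le] at hw
      exact ⟨w, ⟨lt_of_le_of_ne hw.1 (Ne.symm hne), lt_of_le_of_lt hw.2 hw1.2⟩, hwY⟩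
  · obtain ⟨s, t, hys, hst, htz, hmid, hl, hr⟩ := cross_core g hg (Ioi V.2) (Iio V.1) isOpen_Ioi
      isOpen_Iio hcl.symm y z hyz h2 h1
    have hs1 : V.2 ≤ g s := cl_gt g hg s V.2 (fun e he => by
      obtain ⟨w, hw, h3⟩ := hl e he
      exact ⟨w, ⟨hw.1, by linarith [hw.2]⟩, h3⟩)
    have hs2 : g s ≤ V.2 := not_lt.mp (hmid s ⟨le_rfl, hst.le⟩).1
    have ht1 : g t ≤ V.1 := cl_lt g hg t V.1 (fun e he => by
      obtain ⟨w, hw, h3⟩ := hr e he
      exact ⟨w, ⟨by linarith [hw.1], hw.2⟩, h3⟩)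
    have ht2 : V.1 ≤ g t := not_lt.mp (hmid t ⟨hst.le, le_rfl⟩).2
    have hs : g s = V.2 := le_antisymm hs2 hs1
    have ht : g t = V.1 := le_antisymm ht1 ht2
    refine ⟨(s, t), ⟨hst, ?_, ?_, ?_⟩, hys, htz, Or.inr ⟨hs, ht⟩⟩
    · intro w hw
      exact hV.2.1 ⟨not_lt.mp (hmid w hw).2, not_lt.mp (hmid w hw).1⟩
    · intro e he
      obtain ⟨w1, hw1, h3⟩ := hl e he
      obtain ⟨w, hw, hne, hwY⟩ := side g hg hV w1 s (Or.inr ⟨h3, hs⟩)
      rw [uIcc_of_le hw1.2.le] at hw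
      exact ⟨w, ⟨lt_of_lt_of_le hw1.1 hw.1, lt_of_le_of_ne hw.2 hne⟩, hwY⟩
    · intro e he
      obtain ⟨w1, hw1, h3⟩ := hr e he
      obtain ⟨w, hw, hne, hwY⟩ := side g hg hV w1 t (Or.inl ⟨h3, ht⟩)
      rw [uIcc_of_ge hw1.1.le] at hw
      exact ⟨w, ⟨lt_of_le_of_ne hw.1 (Ne.symm hne), lt_of_le_of_lt hw.2 hw1.2⟩, hwY⟩

/-- a gap over `V` is mapped into `V` -/
theorem image_sub {X Y : Set ℝ} {g : ℝ → ℝ} (hg : Continuous g) (hX : X = g ⁻¹' Y) {U V : ℝ × ℝ}
    (hU : Gap X U) (hV : Gap Y V) (he : Ends g U V) (w : ℝ) (hw : w ∈ Icc U.1 U.2) :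
    g w ∈ Icc V.1 V.2 := by
  subst hX
  have key : ∀ v, v ∈ uIcc (g U.1) (g w) → v ∈ Y := by
    intro v hv
    obtain ⟨x, hx, rfl⟩ := intermediate_value_uIcc (hg.continuousOn (s := uIcc U.1 w)) hv
    rw [uIcc_of_le hw.1] at hx
    exact hU.2.1 ⟨hx.1, hx.2.trans hw.2⟩
  have hends : V.1 ≤ g U.1 ∧ g U.1 ≤ V.2 := by
    rcases he with ⟨h1, _⟩ | ⟨h1, _⟩
    · rw [h1]; exact ⟨le_rfl, hV.1.le⟩
    · rw [h1]; exact ⟨hV.1.le, le_rfl⟩
  constructor
  · by_contra hc
    push Not at hc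
    obtain ⟨v, hv, hvY⟩ := hV.2.2.1 (V.1 - g w) (by linarith)
    apply hvY
    apply key
    rw [mem_uIcc]; right
    exact ⟨by linarith [hv.1], by linarith [hv.2, hends.1]⟩
  · by_contra hc
    push Not at hc
    obtain ⟨v, hv, hvY⟩ := hV.2.2.2 (g w - V.2) (by linarith)
    apply hvY
    apply key
    rw [mem_uIcc]; left
    exact ⟨by linarith [hv.1, hends.2], by linarith [hv.2]⟩

/-- a member of `D` strictly between the values of a near point outside and of an end of a gap -/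
theorem near {Y : Set ℝ} {D : Set (ℝ × ℝ)} (hD : Acc D) {V : ℝ × ℝ} (hVD : V ∈ D)
    (hV : Gap Y V) {u v : ℝ} (hv : v = V.1 ∨ v = V.2) (hu : u ∉ Y) (huv : |u - v| < V.2 - V.1) :
    ∃ V' ∈ D, Btw V' u v := by
  rw [abs_lt] at huv
  rcases hv with rfl | rfl
  · have h1 : u < V.1 := by
      by_contra hc
      push Not at hc
      exact hu (hV.2.1 ⟨hc, by linarith [huv.2]⟩)
    obtain ⟨V', hV', h2, h3⟩ := (hD V hVD (V.1 - u) (by linarith)).1
    exact ⟨V', hV', Or.inl ⟨by linarith, h3⟩⟩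
  · have h1 : V.2 < u := by
      by_contra hc
      push Not at hc
      exact hu (hV.2.1 ⟨by linarith [huv.1], hc⟩)
    obtain ⟨V', hV', h2, h3⟩ := (hD V hVD (u - V.2) (by linarith)).2
    exact ⟨V', hV', Or.inr ⟨h2, by linarith⟩⟩

end M1

open M1 in
theorem stmM1 : StmM1 := by
  intro X Y g hg hX hPI hT p q hmix
  obtain ⟨⟨x, hx, hxX⟩, ⟨x', hx', hx'X⟩⟩ := hmix
  have hgx : g x ∈ Y := by rw [hX] at hxX; exact hxX
  have hgx' : g x' ∉ Y := by rw [hX] at hx'X; exact hx'X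
  -- the extrema on `[min x x', max x x']`
  have hKc : IsCompact (uIcc x x') := isCompact_uIcc
  have hKne : (uIcc x x').Nonempty := ⟨x, left_mem_uIcc⟩
  have hKsub : uIcc x x' ⊆ Ioo p q := by
    intro w hw
    rw [mem_uIcc] at hw
    rcases hw with hw | hw
    · exact ⟨lt_of_lt_of_le hx.1 hw.1, lt_of_le_of_lt hw.2 hx'.2⟩
    · exact ⟨lt_of_lt_of_le hx'.1 hw.1, lt_of_le_of_lt hw.2 hx.2⟩
  obtain ⟨x0, hx0, hmin⟩ := hKc.exists_isMinOn hKne hg.continuousOn
  obtain ⟨x1, hx1, hmax⟩ := hKc.exists_isMaxOn hKne hg.continuousOn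
  have hmin' : ∀ w ∈ uIcc x x', g x0 ≤ g w := fun w hw => hmin hw
  have hmax' : ∀ w ∈ uIcc x x', g w ≤ g x1 := fun w hw => hmax hw
  have h0 := hmin' x left_mem_uIcc
  have h0' := hmin' x' right_mem_uIcc
  have h1 := hmax' x left_mem_uIcc
  have h1' := hmax' x' right_mem_uIcc
  have hne : g x ≠ g x' := fun h => hgx' (h ▸ hgx)
  have hst : g x0 < g x1 := by
    rcases lt_or_gt_of_ne hne with h | h
    · linarith
    · linarith
  have hmixY : Mix Y (g x0) (g x1) := by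
    constructor
    · by_contra hc
      push Not at hc
      exact ((hPI _ _ hst).2 (fun w hw => hc w hw) ⟨h0, h1⟩) hgx
    · by_contra hc
      push Not at hc
      exact hgx' ((hPI _ _ hst).1 (fun w hw => hc w hw) ⟨h0', h1'⟩)
  obtain ⟨D, hDne, hDgap, hDcov, hDacc⟩ := hT _ _ hmixY
  have hDin : ∀ V ∈ D, g x0 < V.1 ∧ V.2 < g x1 := by
    intro V hV
    have hlt := (hDgap V hV).1
    have hsub : Icc V.1 V.2 ⊆ Cov D := by
      intro w hw
      apply subset_closure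
      exact mem_biUnion hV hw
    exact ⟨(hDcov (hsub ⟨le_rfl, hlt.le⟩)).2.1, (hDcov (hsub ⟨hlt.le, le_rfl⟩)).2.2⟩
  have hx01 : x0 ≠ x1 := fun h => by rw [h] at hst; exact lt_irrefl _ hst
  set m := min x0 x1 with hm
  set M := max x0 x1 with hM
  have hmM : m < M := min_lt_max.mpr hx01
  have hmp : p < m := lt_min (hKsub hx0).1 (hKsub hx1).1
  have hMq : M < q := max_lt (hKsub hx0).2 (hKsub hx1).2
  have hbtw : ∀ V ∈ D, Btw V (g m) (g M) := by
    intro V hV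
    rcases lt_or_gt_of_ne hx01 with h | h
    · rw [hm, hM, min_eq_left h.le, max_eq_right h.le]
      exact Or.inl (hDin V hV)
    · rw [hm, hM, min_eq_right h.le, max_eq_left h.le]
      exact Or.inr (hDin V hV)
  refine ⟨{U | Gap X U ∧ m < U.1 ∧ U.2 < M ∧ ∃ V ∈ D, Ends g U V}, ?_, ?_, ?_, ?_⟩
  · obtain ⟨V, hV⟩ := hDne
    obtain ⟨U, hU, h2, h3, h4⟩ := crossing hg hX (hDgap V hV) hmM (hbtw V hV)
    exact ⟨U, hU, h2, h3, V, hV, h4⟩
  · exact fun U hU => hU.1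
  · have hcl : IsClosed (g ⁻¹' (Cov D) ∩ Icc m M) :=
      (isClosed_closure.preimage hg).inter isClosed_Icc
    have hsub : Cov {U | Gap X U ∧ m < U.1 ∧ U.2 < M ∧ ∃ V ∈ D, Ends g U V} ⊆
        g ⁻¹' (Cov D) ∩ Icc m M := by
      apply closure_minimal _ hcl
      apply iUnion₂_subset
      rintro U ⟨hU, h2, h3, V, hV, h4⟩ w hw
      refine ⟨?_, by linarith [hw.1], by linarith [hw.2]⟩
      apply subset_closure
      exact mem_biUnion hV (image_sub hg hX hU (hDgap V hV) h4 w hw)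
    intro w hw
    have h2 := hsub hw
    refine ⟨?_, by linarith [h2.2.1], by linarith [h2.2.2]⟩
    rw [hX]
    exact (hDcov h2.1).1
  · rintro U ⟨hU, h2, h3, V, hV, h4⟩ e he
    have hVg := hDgap V hV
    have hlt := hVg.1
    have hUlt := hU.1
    have hend1 : g U.1 = V.1 ∨ g U.1 = V.2 := by
      rcases h4 with h | h
      · exact Or.inl h.1
      · exact Or.inr h.1
    have hend2 : g U.2 = V.1 ∨ g U.2 = V.2 := by
      rcases h4 with h | h
      · exact Or.inr h.2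
      · exact Or.inl h.2
    constructor
    · obtain ⟨d, hd, hcont⟩ := Metric.continuous_iff.mp hg U.1 (V.2 - V.1) (by linarith)
      obtain ⟨y, hy, hyX⟩ := hU.2.2.1 (min e (min d (U.1 - m)))
        (lt_min he (lt_min hd (by linarith)))
      have e1 := min_le_left e (min d (U.1 - m))
      have e2 := (min_le_right e (min d (U.1 - m))).trans (min_le_left _ _)
      have e3 := (min_le_right e (min d (U.1 - m))).trans (min_le_right _ _)
      have hyY : g y ∉ Y := by rw [hX] at hyX; exact hyX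
      have hyd := hcont y (by
        rw [Real.dist_eq, abs_lt]
        exact ⟨by linarith [hy.1], by linarith [hy.2]⟩)
      rw [Real.dist_eq] at hyd
      obtain ⟨V', hV', hb⟩ := near hDacc hV hVg hend1 hyY hyd
      obtain ⟨U', hU', h5, h6, h7⟩ := crossing hg hX (hDgap V' hV') hy.2 hb
      refine ⟨U', ⟨hU', by linarith [hy.1], by linarith, V', hV', h7⟩, by linarith [hy.1], h6⟩
    · obtain ⟨d, hd, hcont⟩ := Metric.continuous_iff.mp hg U.2 (V.2 - V.1) (by linarith)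
      obtain ⟨y, hy, hyX⟩ := hU.2.2.2 (min e (min d (M - U.2)))
        (lt_min he (lt_min hd (by linarith)))
      have e1 := min_le_left e (min d (M - U.2))
      have e2 := (min_le_right e (min d (M - U.2))).trans (min_le_left _ _)
      have e3 := (min_le_right e (min d (M - U.2))).trans (min_le_right _ _)
      have hyY : g y ∉ Y := by rw [hX] at hyX; exact hyX
      have hyd := hcont y (by
        rw [Real.dist_eq, abs_lt]
        exact ⟨by linarith [hy.1], by linarith [hy.2]⟩)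
      rw [Real.dist_eq] at hyd
      obtain ⟨V', hV', hb⟩ := near hDacc hV hVg hend2 hyY hyd
      obtain ⟨U', hU', h5, h6, h7⟩ := crossing hg hX (hDgap V' hV') hy.1 (Or.symm hb)
      refine ⟨U', ⟨hU', by linarith, by linarith [hy.2], V', hV', h7⟩, h5, by linarith [hy.2]⟩

end Pool.Agent.R270.WF
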