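import Pool.Agent.R270.WF.Stm

/-! Project WF, M2: rich families can be chosen saturated. -/

namespace Pool.Agent.R270.WF
open Set

namespace M2aux

theorem gap_disj {X : Set ℝ} {U V : ℝ × ℝ} (hU : Gap X U) (hV : Gap X V) (hne : U ≠ V) :
    Disjoint (Icc U.1 U.2) (Icc V.1 V.2) := by
  rw [Set.disjoint_left]
  intro z hz hz'
  apply hne
  apply gap_unique hU hV
  have key : ∀ {U V : ℝ × ℝ}, Gap X U → Gap X V → z ∈ Icc U.1 U.2 → z ∈ Icc V.1 V.2 →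
      V.1 ≤ U.1 := by
    intro U V hU hV hz hz'
    by_contra h
    push Not at h
    obtain ⟨y, hy, hyX⟩ := hV.2.2.1 (V.1 - U.1) (by linarith)
    apply hyX
    apply hU.2.1
    exact ⟨by linarith [hy.1], by linarith [hy.2, hz.2, hz'.1]⟩
  exact le_antisymm (key hV hU hz' hz) (key hU hV hz hz')

theorem gap_countable (X : Set ℝ) : {U : ℝ × ℝ | Gap X U}.Countable := by
  apply Set.PairwiseDisjoint.countable_of_isOpen (s := fun U : ℝ × ℝ => Ioo U.1 U.2)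
  · intro U hU V hV hne
    exact (gap_disj hU hV hne).mono Ioo_subset_Icc_self Ioo_subset_Icc_self
  · intro U _; exact isOpen_Ioo
  · intro U hU; exact nonempty_Ioo.2 hU.1

/-- conditions -/
def Cond (X : Set ℝ) (D : Set (ℝ × ℝ)) : Type :=
  {c : Set (ℝ × ℝ) × Set (ℝ × ℝ) // c.1.Finite ∧ c.2.Finite ∧ c.1 ⊆ D ∧
    (∀ V ∈ c.2, V.1 ∉ X ∧ V.2 ∉ X) ∧ ∀ U ∈ c.1, ∀ V ∈ c.2, Disjoint (Icc U.1 U.2) (Ioo V.1 V.2)}

instance (X : Set ℝ) (D : Set (ℝ × ℝ)) : PartialOrder (Cond X D) :=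
  inferInstanceAs (PartialOrder {c : Set (ℝ × ℝ) × Set (ℝ × ℝ) // _})

theorem closed_union {G : Set (ℝ × ℝ)} (hG : G.Finite) : IsClosed (⋃ U ∈ G, Icc U.1 U.2) :=
  hG.isClosed_biUnion fun _ _ => isClosed_Icc

/-- a neighbourhood avoiding a closed set -/
theorem avoid {K : Set ℝ} (hK : IsClosed K) {x : ℝ} (hx : x ∉ K) :
    ∃ ε > 0, ∀ y, x - ε < y → y < x + ε → y ∉ K := by
  obtain ⟨ε, hε, h⟩ := Metric.isOpen_iff.1 hK.isOpen_compl x hx
  refine ⟨ε, hε, fun y h1 h2 => ?_⟩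
  apply h
  rw [Metric.mem_ball, Real.dist_eq, abs_lt]
  constructor <;> linarith

/-- the dense sets -/
def Den {X : Set ℝ} {D : Set (ℝ × ℝ)} (U : ℝ × ℝ) (m : ℕ) : Set (Cond X D) :=
  {c | (∃ V ∈ c.1.2, Icc U.1 U.2 ⊆ Ioo V.1 V.2) ∨ (U ∈ c.1.1 ∧
    (∃ V ∈ c.1.1, U.1 - 1 / ((m : ℝ) + 1) < V.1 ∧ V.2 < U.1) ∧
    (∃ V ∈ c.1.1, U.2 < V.1 ∧ V.2 < U.2 + 1 / ((m : ℝ) + 1)))}

theorem den_cofinal {X : Set ℝ} {D : Set (ℝ × ℝ)} (hD : ∀ U ∈ D, Gap X U) (hA : Acc D)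
    (U : ℝ × ℝ) (hU : Gap X U) (m : ℕ) : IsCofinal (Den (X := X) (D := D) U m) := by
  intro c
  obtain ⟨⟨G, N⟩, hG, hN, hGD, hNX, hdis⟩ := c
  by_cases hUG : U ∈ G
  · -- add members near `U`
    have hm : (0:ℝ) < 1 / ((m : ℝ) + 1) := by positivity
    have hK := closed_union hN
    have hout : ∀ x ∈ Icc U.1 U.2, x ∉ ⋃ V ∈ N, Icc V.1 V.2 := by
      intro x hx hxK
      rw [mem_iUnion₂] at hxK
      obtain ⟨V, hV, hxV⟩ := hxK
      have hxX := hU.2.1 hx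
      have h1 : x ≠ V.1 := fun h => (hNX V hV).1 (h ▸ hxX)
      have h2 : x ≠ V.2 := fun h => (hNX V hV).2 (h ▸ hxX)
      exact Set.disjoint_left.1 (hdis U hUG V hV) hx
        ⟨lt_of_le_of_ne hxV.1 h1.symm, lt_of_le_of_ne hxV.2 h2⟩
    obtain ⟨ε1, hε1, h1⟩ := avoid hK (hout U.1 ⟨le_rfl, hU.1.le⟩)
    obtain ⟨ε2, hε2, h2⟩ := avoid hK (hout U.2 ⟨hU.1.le, le_rfl⟩)
    obtain ⟨⟨V1, hV1D, hV1a, hV1b⟩, _⟩ := hA U (hGD hUG) (min ε1 (1 / ((m : ℝ) + 1)))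
      (lt_min hε1 hm)
    obtain ⟨_, ⟨V2, hV2D, hV2a, hV2b⟩⟩ := hA U (hGD hUG) (min ε2 (1 / ((m : ℝ) + 1)))
      (lt_min hε2 hm)
    have m1 := min_le_left ε1 (1 / ((m : ℝ) + 1))
    have m2 := min_le_right ε1 (1 / ((m : ℝ) + 1))
    have m3 := min_le_left ε2 (1 / ((m : ℝ) + 1))
    have m4 := min_le_right ε2 (1 / ((m : ℝ) + 1))
    refine ⟨⟨(insert V1 (insert V2 G), N), (hG.insert _).insert _, hN, ?_, hNX, ?_⟩, ?_, ?_⟩
    · intro W hW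
      rcases hW with rfl | rfl | hW
      · exact hV1D
      · exact hV2D
      · exact hGD hW
    · intro W hW V hV
      rcases hW with rfl | rfl | hW
      · rw [Set.disjoint_left]
        intro y hy hy'
        apply h1 y (by linarith [hy.1]) (by linarith [hy.2])
        rw [mem_iUnion₂]
        exact ⟨V, hV, Ioo_subset_Icc_self hy'⟩
      · rw [Set.disjoint_left]
        intro y hy hy'
        apply h2 y (by linarith [hy.1]) (by linarith [hy.2])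
        rw [mem_iUnion₂]
        exact ⟨V, hV, Ioo_subset_Icc_self hy'⟩
      · exact hdis W hW V hV
    · right
      refine ⟨?_, ⟨V1, ?_, by linarith, hV1b⟩, ⟨V2, ?_, hV2a, by linarith⟩⟩
      · exact Or.inr (Or.inr hUG)
      · exact Or.inl rfl
      · exact Or.inr (Or.inl rfl)
    · refine ⟨?_, subset_rfl⟩
      intro W hW
      exact Or.inr (Or.inr hW)
  · -- add an interval around `U`
    have hL := closed_union hG
    have hout : ∀ x ∈ Icc U.1 U.2, x ∉ ⋃ V ∈ G, Icc V.1 V.2 := by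
      intro x hx hxK
      rw [mem_iUnion₂] at hxK
      obtain ⟨V, hV, hxV⟩ := hxK
      have hne : U ≠ V := by rintro rfl; exact hUG hV
      exact Set.disjoint_left.1 (gap_disj hU (hD V (hGD hV)) hne) hx hxV
    obtain ⟨ε1, hε1, h1⟩ := avoid hL (hout U.1 ⟨le_rfl, hU.1.le⟩)
    obtain ⟨ε2, hε2, h2⟩ := avoid hL (hout U.2 ⟨hU.1.le, le_rfl⟩)
    obtain ⟨p', hp', hp'X⟩ := hU.2.2.1 ε1 hε1
    obtain ⟨q', hq', hq'X⟩ := hU.2.2.2 ε2 hε2
    refine ⟨⟨(G, insert (p', q') N), hG, hN.insert _, hGD, ?_, ?_⟩, ?_, ?_⟩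
    · intro V hV
      rcases hV with rfl | hV
      · exact ⟨hp'X, hq'X⟩
      · exact hNX V hV
    · intro W hW V hV
      rcases hV with rfl | hV
      · rw [Set.disjoint_left]
        intro y hy hy'
        have hyL : y ∈ ⋃ V ∈ G, Icc V.1 V.2 := by
          rw [mem_iUnion₂]; exact ⟨W, hW, hy⟩
        have hy1 : p' < y := hy'.1
        have hy2 : y < q' := hy'.2
        by_cases c1 : y < U.1
        · exact h1 y (by linarith [hp'.1]) (by linarith) hyL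
        · by_cases c2 : U.2 < y
          · exact h2 y (by linarith) (by linarith [hq'.2]) hyL
          · exact hout y ⟨not_lt.1 c1, not_lt.1 c2⟩ hyL
      · exact hdis W hW V hV
    · left
      refine ⟨(p', q'), Or.inl rfl, ?_⟩
      intro y hy
      exact ⟨lt_of_lt_of_le hp'.2 hy.1, lt_of_le_of_lt hy.2 hq'.1⟩
    · refine ⟨subset_rfl, ?_⟩
      intro W hW
      exact Or.inr hW

end M2aux

open M2aux in
theorem stmM2 : StmM2 := by
  intro X _ hT p q hmix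
  obtain ⟨D, ⟨U0, hU0⟩, hgap, hcov, hacc⟩ := hT p q hmix
  let ι := {U : ℝ × ℝ // Gap X U} × ℕ
  have hc : Countable {U : ℝ × ℝ // Gap X U} := (gap_countable X).to_subtype
  letI : Encodable ι := Encodable.ofCountable ι
  let 𝒟 : ι → Order.Cofinal (Cond X D) := fun i =>
    ⟨Den i.1.1 i.2, den_cofinal hgap hacc i.1.1 i.1.2 i.2⟩
  let c0 : Cond X D := ⟨({U0}, ∅), finite_singleton _, finite_empty, by
    intro W hW; rw [mem_singleton_iff] at hW; rw [hW]; exact hU0, by simp, by simp⟩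
  let I := Order.idealOfCofinals c0 𝒟
  let D' : Set (ℝ × ℝ) := {U | ∃ c ∈ I, U ∈ c.1.1}
  have hD' : D' ⊆ D := by
    rintro U ⟨c, _, hc⟩
    exact c.2.2.2.1 hc
  have hdis : ∀ U ∈ D', ∀ c ∈ I, ∀ V ∈ c.1.2, Disjoint (Icc U.1 U.2) (Ioo V.1 V.2) := by
    rintro U ⟨c', hc', hU⟩ c hc V hV
    obtain ⟨c'', _, h1, h2⟩ := I.directed c' hc' c hc
    exact c''.2.2.2.2.2 U (h1.1 hU) V (h2.2 hV)
  have hmeet : ∀ U, Gap X U → ∀ m : ℕ, ∃ c : Cond X D, c ∈ Den U m ∧ c ∈ I := by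
    intro U hU m
    obtain ⟨c, h1, h2⟩ := Order.cofinal_meets_idealOfCofinals c0 𝒟 (⟨U, hU⟩, m)
    exact ⟨c, h1, h2⟩
  refine ⟨D', ⟨U0, c0, Order.mem_idealOfCofinals c0 𝒟, rfl⟩, fun U hU => hgap U (hD' hU), ?_, ?_, ?_⟩
  · refine (closure_mono ?_).trans hcov
    exact biUnion_mono hD' fun _ _ => subset_rfl
  · intro U hU e he
    have hg := hgap U (hD' hU)
    obtain ⟨m, hm⟩ := exists_nat_one_div_lt he
    obtain ⟨c, hc1, hc2⟩ := hmeet U hg m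
    rcases hc1 with ⟨V, hV, hUV⟩ | ⟨_, ⟨V, hV, h1, h2⟩, ⟨W, hW, h3, h4⟩⟩
    · exfalso
      have hx : U.1 ∈ Icc U.1 U.2 := ⟨le_rfl, hg.1.le⟩
      exact Set.disjoint_left.1 (hdis U hU c hc2 V hV) hx (hUV hx)
    · exact ⟨⟨V, ⟨c, hc2, hV⟩, by linarith, h2⟩, ⟨W, ⟨c, hc2, hW⟩, h3, by linarith⟩⟩
  · intro U hU hne
    obtain ⟨c, hc1, hc2⟩ := hmeet U hU 0
    rcases hc1 with ⟨V, hV, hUV⟩ | ⟨h, _⟩
    · exfalso
      obtain ⟨z, hz, hz'⟩ := hne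
      have hzV := hUV hz
      unfold Cov at hz'
      rw [mem_closure_iff] at hz'
      obtain ⟨y, hy, hy'⟩ := hz' _ isOpen_Ioo hzV
      rw [mem_iUnion₂] at hy'
      obtain ⟨W, hW, hyW⟩ := hy'
      exact Set.disjoint_left.1 (hdis W hW c hc2 V hV) hyW hy
    · exact ⟨c, hc2, h⟩

end Pool.Agent.R270.WF
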