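import Pool.Agent.R270.WF.Stm

/-! Project WF, module M3a: `stmM3a`. -/

namespace Pool.Agent.R270.WF
namespace M3aAux
open Set

theorem lemA {X J : Set ℝ} (hP : PI X) (hE : EndJ X J) {x u : ℝ} (hxu : x < u) (hx : x ∈ J) (hu : u ∈ J)
    (h : Ioo x u ⊆ X) : ∃ U : ℝ × ℝ, Gap X U ∧ Icc U.1 U.2 ⊆ J ∧ Icc x u ⊆ Icc U.1 U.2 := by
  have hI : Icc x u ⊆ X := (hP x u hxu).1 h
  obtain ⟨y0, hy0J, hy0x, hy0X⟩ := hE.outL x hx
  obtain ⟨y1, hy1J, hy1x, hy1X⟩ := hE.outR u hu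
  set A : Set ℝ := {y | y ∉ X ∧ y < x} with hA
  set B : Set ℝ := {y | y ∉ X ∧ u < y} with hB
  have hAne : A.Nonempty := ⟨y0, hy0X, hy0x⟩
  have hBne : B.Nonempty := ⟨y1, hy1X, hy1x⟩
  have hAb : BddAbove A := ⟨x, fun y hy => hy.2.le⟩
  have hBb : BddBelow B := ⟨u, fun y hy => hy.2.le⟩
  have hax : sSup A ≤ x := csSup_le hAne (fun y hy => hy.2.le)
  have hub : u ≤ sInf B := le_csInf hBne (fun y hy => hy.2.le)
  have hab : sSup A < sInf B := by linarith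
  have hsub : Ioo (sSup A) (sInf B) ⊆ X := by
    intro z hz
    by_contra hzX
    rcases lt_or_ge z x with h1 | h1
    · have : z ≤ sSup A := le_csSup hAb ⟨hzX, h1⟩
      exact absurd hz.1 (not_lt.2 this)
    · rcases lt_or_ge u z with h2 | h2
      · have : sInf B ≤ z := csInf_le hBb ⟨hzX, h2⟩
        exact absurd hz.2 (not_lt.2 this)
      · exact hzX (hI ⟨h1, h2⟩)
  have hcl : Icc (sSup A) (sInf B) ⊆ X := (hP _ _ hab).1 hsub
  have hy0a : y0 ≤ sSup A := le_csSup hAb ⟨hy0X, hy0x⟩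
  have hby1 : sInf B ≤ y1 := csInf_le hBb ⟨hy1X, hy1x⟩
  refine ⟨(sSup A, sInf B), ⟨hab, hcl, ?_, ?_⟩, ?_, ?_⟩
  · intro e he
    obtain ⟨y, hy, hye⟩ := exists_lt_of_lt_csSup hAne (show sSup A - e < sSup A by linarith)
    have h1 : y ≤ sSup A := le_csSup hAb hy
    have h2 : y ≠ sSup A := by
      intro h3
      exact hy.1 (h3 ▸ hcl ⟨le_refl _, hab.le⟩)
    exact ⟨y, ⟨hye, lt_of_le_of_ne h1 h2⟩, hy.1⟩
  · intro e he
    obtain ⟨y, hy, hye⟩ := exists_lt_of_csInf_lt hBne (show sInf B < sInf B + e by linarith)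
    have h1 : sInf B ≤ y := csInf_le hBb hy
    have h2 : sInf B ≠ y := by
      intro h3
      exact hy.1 (h3 ▸ hcl ⟨hab.le, le_refl _⟩)
    exact ⟨y, ⟨lt_of_le_of_ne h1 h2, hye⟩, hy.1⟩
  · intro z hz
    exact hE.conn.out hy0J hy1J ⟨hy0a.trans hz.1, hz.2.trans hby1⟩
  · intro z hz
    exact ⟨hax.trans hz.1, hz.2.trans hub⟩

theorem gapOf {X J : Set ℝ} (hP : PI X) (hE : EndJ X J) {x e : ℝ} (he : 0 < e) (hx : x ∈ J)
    (h : Ioo (x - e) (x + e) ⊆ X) : ∃ U : ℝ × ℝ, Gap X U ∧ Icc U.1 U.2 ⊆ J ∧ x ∈ Icc U.1 U.2 := by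
  obtain ⟨d, hd, hdJ⟩ := Metric.isOpen_iff.1 hE.isOpen x hx
  rw [Real.ball_eq_Ioo] at hdJ
  have hm : 0 < min e d := lt_min he hd
  have h1 : min e d ≤ e := min_le_left _ _
  have h2 : min e d ≤ d := min_le_right _ _
  obtain ⟨U, hU, hUJ, hUx⟩ := lemA hP hE (x := x - min e d / 2) (u := x + min e d / 2) (by linarith)
    (hdJ ⟨by linarith, by linarith⟩) (hdJ ⟨by linarith, by linarith⟩)
    (fun z hz => h ⟨by linarith [hz.1], by linarith [hz.2]⟩)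
  exact ⟨U, hU, hUJ, hUx ⟨by linarith, by linarith⟩⟩

theorem stepR {X J C : Set ℝ} (hP : PI X) (hE : EndJ X J) (hC : SatC X J C) :
    ∀ x ∈ J \ C, ∃ y, x < y ∧ Icc x y ⊆ J \ C ∧ Mix X x y := by
  obtain ⟨hC1, hC2, hC3⟩ := hC
  intro x hx
  by_cases hc : ∃ c ∈ C, x < c
  · obtain ⟨c, hcC, hxc⟩ := hc
    set B : Set ℝ := C ∩ Ioi x with hB
    have hBne : B.Nonempty := ⟨c, hcC, hxc⟩
    have hBb : BddBelow B := ⟨x, fun y hy => le_of_lt hy.2⟩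
    have hxu : x ≤ sInf B := le_csInf hBne (fun y hy => le_of_lt hy.2)
    have huc : sInf B ≤ c := csInf_le hBb ⟨hcC, hxc⟩
    have hcJ : c ∈ J := (hC1 hcC).2
    have huJ : sInf B ∈ J := hE.conn.out hx.1 hcJ ⟨hxu, huc⟩
    have huC : sInf B ∈ C :=
      hC2 ⟨closure_mono inter_subset_left (csInf_mem_closure hBne hBb), huJ⟩
    have hxu' : x < sInf B := lt_of_le_of_ne hxu (fun h => hx.2 (h ▸ huC))
    have hsub : Ico x (sInf B) ⊆ J \ C := by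
      intro z hz
      refine ⟨hE.conn.out hx.1 huJ ⟨hz.1, hz.2.le⟩, fun hzC => ?_⟩
      rcases eq_or_lt_of_le hz.1 with h | h
      · exact hx.2 (h ▸ hzC)
      · exact absurd hz.2 (not_lt.2 (csInf_le hBb ⟨hzC, h⟩))
    have hv : ∃ v ∈ Ioo x (sInf B), v ∉ X := by
      by_contra hcon
      push Not at hcon
      obtain ⟨U, hU, hUJ, hUx⟩ := lemA hP hE hxu' hx.1 huJ (fun z hz => hcon z hz)
      have : Icc U.1 U.2 ⊆ C := hC3 U hU hUJ ⟨sInf B, hUx ⟨hxu'.le, le_refl _⟩, huC⟩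
      exact hx.2 (this (hUx ⟨le_refl _, hxu'.le⟩))
    have hw : ∃ w ∈ Ioo x (sInf B), w ∈ X := by
      by_contra hcon
      push Not at hcon
      have := (hP x (sInf B) hxu').2 (fun z hz => hcon z hz) ⟨hxu'.le, le_refl _⟩
      exact this (hC1 huC).1
    obtain ⟨v, hv, hvX⟩ := hv
    obtain ⟨w, hw, hwX⟩ := hw
    have hmx : max v w < sInf B := max_lt hv.2 hw.2
    have h1 : v ≤ max v w := le_max_left _ _
    have h2 : w ≤ max v w := le_max_right _ _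
    refine ⟨(max v w + sInf B) / 2, by linarith [hv.1], ?_, ⟨w, ⟨hw.1, by linarith⟩, hwX⟩,
      ⟨v, ⟨hv.1, by linarith⟩, hvX⟩⟩
    intro z hz
    exact hsub ⟨hz.1, by linarith [hz.2]⟩
  · push Not at hc
    obtain ⟨v, hvJ, hxv, hvX⟩ := hE.outR x hx.1
    obtain ⟨w, hwJ, hxw, hwX⟩ := hE.inR x hx.1
    have hmJ : max v w ∈ J := by
      rcases max_choice v w with h | h <;> rw [h] <;> assumption
    obtain ⟨y, hyJ, hmy, -⟩ := hE.outR _ hmJ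
    have h1 : v ≤ max v w := le_max_left _ _
    have h2 : w ≤ max v w := le_max_right _ _
    refine ⟨y, by linarith, ?_, ⟨w, ⟨hxw, by linarith⟩, hwX⟩, ⟨v, ⟨hxv, by linarith⟩, hvX⟩⟩
    intro z hz
    refine ⟨hE.conn.out hx.1 hyJ hz, fun hzC => ?_⟩
    have h3 := hc z hzC
    have h4 : z = x := le_antisymm h3 hz.1
    exact hx.2 (h4 ▸ hzC)

theorem stepL {X J C : Set ℝ} (hP : PI X) (hE : EndJ X J) (hC : SatC X J C) :
    ∀ x ∈ J \ C, ∃ y, y < x ∧ Icc y x ⊆ J \ C ∧ Mix X y x := by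
  obtain ⟨hC1, hC2, hC3⟩ := hC
  intro x hx
  by_cases hc : ∃ c ∈ C, c < x
  · obtain ⟨c, hcC, hxc⟩ := hc
    set B : Set ℝ := C ∩ Iio x with hB
    have hBne : B.Nonempty := ⟨c, hcC, hxc⟩
    have hBb : BddAbove B := ⟨x, fun y hy => le_of_lt hy.2⟩
    have hxu : sSup B ≤ x := csSup_le hBne (fun y hy => le_of_lt hy.2)
    have huc : c ≤ sSup B := le_csSup hBb ⟨hcC, hxc⟩
    have hcJ : c ∈ J := (hC1 hcC).2
    have huJ : sSup B ∈ J := hE.conn.out hcJ hx.1 ⟨huc, hxu⟩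
    have huC : sSup B ∈ C :=
      hC2 ⟨closure_mono inter_subset_left (csSup_mem_closure hBne hBb), huJ⟩
    have hxu' : sSup B < x := lt_of_le_of_ne hxu (fun h => hx.2 (h ▸ huC))
    have hsub : Ioc (sSup B) x ⊆ J \ C := by
      intro z hz
      refine ⟨hE.conn.out huJ hx.1 ⟨hz.1.le, hz.2⟩, fun hzC => ?_⟩
      rcases eq_or_lt_of_le hz.2 with h | h
      · exact hx.2 (h ▸ hzC)
      · exact absurd hz.1 (not_lt.2 (le_csSup hBb ⟨hzC, h⟩))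
    have hv : ∃ v ∈ Ioo (sSup B) x, v ∉ X := by
      by_contra hcon
      push Not at hcon
      obtain ⟨U, hU, hUJ, hUx⟩ := lemA hP hE hxu' huJ hx.1 (fun z hz => hcon z hz)
      have : Icc U.1 U.2 ⊆ C := hC3 U hU hUJ ⟨sSup B, hUx ⟨le_refl _, hxu'.le⟩, huC⟩
      exact hx.2 (this (hUx ⟨hxu'.le, le_refl _⟩))
    have hw : ∃ w ∈ Ioo (sSup B) x, w ∈ X := by
      by_contra hcon
      push Not at hcon
      have := (hP (sSup B) x hxu').2 (fun z hz => hcon z hz) ⟨le_refl _, hxu'.le⟩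
      exact this (hC1 huC).1
    obtain ⟨v, hv, hvX⟩ := hv
    obtain ⟨w, hw, hwX⟩ := hw
    have hmx : sSup B < min v w := lt_min hv.1 hw.1
    have h1 : min v w ≤ v := min_le_left _ _
    have h2 : min v w ≤ w := min_le_right _ _
    refine ⟨(min v w + sSup B) / 2, by linarith [hv.2], ?_, ⟨w, ⟨by linarith, hw.2⟩, hwX⟩,
      ⟨v, ⟨by linarith, hv.2⟩, hvX⟩⟩
    intro z hz
    exact hsub ⟨by linarith [hz.1], hz.2⟩
  · push Not at hc
    obtain ⟨v, hvJ, hxv, hvX⟩ := hE.outL x hx.1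
    obtain ⟨w, hwJ, hxw, hwX⟩ := hE.inL x hx.1
    have hmJ : min v w ∈ J := by
      rcases min_choice v w with h | h <;> rw [h] <;> assumption
    obtain ⟨y, hyJ, hmy, -⟩ := hE.outL _ hmJ
    have h1 : min v w ≤ v := min_le_left _ _
    have h2 : min v w ≤ w := min_le_right _ _
    refine ⟨y, by linarith, ?_, ⟨w, ⟨by linarith, hxw⟩, hwX⟩, ⟨v, ⟨by linarith, hxv⟩, hvX⟩⟩
    intro z hz
    refine ⟨hE.conn.out hyJ hx.1 hz, fun hzC => ?_⟩
    have h3 := hc z hzC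
    have h4 : z = x := le_antisymm hz.2 h3
    exact hx.2 (h4 ▸ hzC)

theorem seq {α : Type} [LinearOrder α] (q : ℕ → α) (hq : ∀ x y, x < y → ∃ n, x < q n ∧ q n < y)
    (O : Set α) (hO : O.OrdConnected) (R : α → α → Prop) (hR : ∀ x x' y, x ≤ x' → R x' y → R x y)
    (p : α) (hp : p ∈ O) (step : ∀ x ∈ O, ∃ y ∈ O, x < y ∧ R x y) :
    ∃ f : ℕ → α, f 0 = p ∧ (∀ n, f n ∈ O) ∧ (∀ n, f n < f (n + 1)) ∧ (∀ n, R (f n) (f (n + 1))) ∧
      ∀ x ∈ O, ∃ n, x < f n := by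
  classical
  have step' : ∀ (n : ℕ) (x : O), ∃ y : O, x.1 < y.1 ∧ R x.1 y.1 ∧ (q n ∈ O → q n < y.1) := by
    intro n x
    by_cases hn : q n ∈ O
    · have hm : max x.1 (q n) ∈ O := by
        rcases max_choice x.1 (q n) with h | h <;> rw [h]
        · exact x.2
        · exact hn
      obtain ⟨y, hyO, h1, h2⟩ := step _ hm
      exact ⟨⟨y, hyO⟩, (le_max_left _ _).trans_lt h1, hR _ _ _ (le_max_left _ _) h2,
        fun _ => (le_max_right _ _).trans_lt h1⟩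
    · obtain ⟨y, hyO, h1, h2⟩ := step _ x.2
      exact ⟨⟨y, hyO⟩, h1, h2, fun h => absurd h hn⟩
  choose F hF1 hF2 hF3 using step'
  set f : ℕ → O := fun n => Nat.rec ⟨p, hp⟩ (fun k z => F k z) n with hf
  have hfs : ∀ n, f (n + 1) = F n (f n) := fun n => rfl
  have hmono : StrictMono (fun n => (f n).1) := strictMono_nat_of_lt_succ (fun n => by
    simp only [hfs]; exact hF1 n (f n))
  refine ⟨fun n => (f n).1, rfl, fun n => (f n).2, fun n => ?_, fun n => ?_, fun x hx => ?_⟩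
  · exact hmono (Nat.lt_succ_self n)
  · simp only [hfs]; exact hF2 n (f n)
  · obtain ⟨y, hyO, hxy, -⟩ := step x hx
    obtain ⟨n, hn1, hn2⟩ := hq x y hxy
    have hqO : q n ∈ O := hO.out hx hyO ⟨hn1.le, hn2.le⟩
    refine ⟨n + 1, ?_⟩
    simp only [hfs]
    exact hn1.trans (hF3 n (f n) hqO)

theorem exq : ∃ q : ℕ → ℝ, ∀ x y, x < y → ∃ n, x < q n ∧ q n < y := by
  obtain ⟨r, hr⟩ := exists_surjective_nat ℚ
  refine ⟨fun n => (r n : ℝ), fun x y hxy => ?_⟩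
  obtain ⟨t, ht1, ht2⟩ := exists_rat_btwn hxy
  obtain ⟨n, rfl⟩ := hr t
  exact ⟨n, ht1, ht2⟩

theorem mix_mono {X : Set ℝ} {a b a' b' : ℝ} (h1 : a ≤ a') (h2 : b' ≤ b) (h : Mix X a' b') : Mix X a b := by
  obtain ⟨⟨x, hx, hxX⟩, y, hy, hyX⟩ := h
  exact ⟨⟨x, ⟨h1.trans_lt hx.1, hx.2.trans_le h2⟩, hxX⟩, y, ⟨h1.trans_lt hy.1, hy.2.trans_le h2⟩, hyX⟩

theorem seqR {X s : Set ℝ} (hs : ∀ x ∈ s, ∃ y, x < y ∧ Icc x y ⊆ s ∧ Mix X x y) (p : ℝ) (hp : p ∈ s) :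
    ∃ f : ℕ → ℝ, (∀ n, f n ∈ ordConnectedComponent s p) ∧ (∀ n, f n < f (n + 1)) ∧
      (∀ n, Mix X (f n) (f (n + 1))) ∧ ∀ x ∈ ordConnectedComponent s p, ∃ n, x < f n := by
  obtain ⟨q, hq⟩ := exq
  obtain ⟨f, -, h2, h3, h4, h5⟩ := seq q hq (ordConnectedComponent s p) inferInstance (fun x y => Mix X x y)
    (fun x x' y h h' => mix_mono h (le_refl _) h') p (self_mem_ordConnectedComponent.2 hp) (by
      intro x hx
      obtain ⟨y, h1, h2, h3⟩ := hs x (ordConnectedComponent_subset hx)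
      refine ⟨y, mem_ordConnectedComponent_trans hx ?_, h1, h3⟩
      rw [mem_ordConnectedComponent, uIcc_of_le h1.le]
      exact h2)
  exact ⟨f, h2, h3, h4, h5⟩

theorem seqL {X s : Set ℝ} (hs : ∀ x ∈ s, ∃ y, y < x ∧ Icc y x ⊆ s ∧ Mix X y x) (p : ℝ) (hp : p ∈ s) :
    ∃ f : ℕ → ℝ, (∀ n, f n ∈ ordConnectedComponent s p) ∧ (∀ n, f (n + 1) < f n) ∧
      (∀ n, Mix X (f (n + 1)) (f n)) ∧ ∀ x ∈ ordConnectedComponent s p, ∃ n, f n < x := by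
  obtain ⟨q, hq⟩ := exq
  have hO : (ordConnectedComponent s p).OrdConnected := inferInstance
  have hp' : p ∈ ordConnectedComponent s p := self_mem_ordConnectedComponent.2 hp
  have hst : ∀ x ∈ ordConnectedComponent s p, ∃ y ∈ ordConnectedComponent s p, y < x ∧ Mix X y x := by
    intro x hx
    obtain ⟨y, h1, h2, h3⟩ := hs x (ordConnectedComponent_subset hx)
    refine ⟨y, mem_ordConnectedComponent_trans hx ?_, h1, h3⟩
    rw [mem_ordConnectedComponent, uIcc_of_ge h1.le]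
    exact h2
  generalize ordConnectedComponent s p = O at hO hp' hst ⊢
  obtain ⟨f, -, h2, h3, h4, h5⟩ := seq (α := ℝᵒᵈ) (fun n => OrderDual.toDual (q n))
    (fun x y hxy => by
      obtain ⟨n, h1, h2⟩ := hq (OrderDual.ofDual y) (OrderDual.ofDual x) hxy
      exact ⟨n, h2, h1⟩)
    (OrderDual.ofDual ⁻¹' O) hO.dual
    (fun x y => Mix X (OrderDual.ofDual y) (OrderDual.ofDual x))
    (fun x x' y h h' => mix_mono (le_refl _) h h') (OrderDual.toDual p) hp'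
    (fun x hx => by
      obtain ⟨y, h1, h2, h3⟩ := hst (OrderDual.ofDual x) hx
      exact ⟨OrderDual.toDual y, h1, h2, h3⟩)
  exact ⟨fun n => OrderDual.ofDual (f n), h2, h3, h4, fun x hx => h5 (OrderDual.toDual x) hx⟩

theorem idx {X s : Set ℝ} (hs1 : ∀ x ∈ s, ∃ y, x < y ∧ Icc x y ⊆ s ∧ Mix X x y)
    (hs2 : ∀ x ∈ s, ∃ y, y < x ∧ Icc y x ⊆ s ∧ Mix X y x) :
    ∃ I : Set (ℝ × ℝ), (∀ i ∈ I, Icc i.1 i.2 ⊆ s ∧ Mix X i.1 i.2) ∧
      (∀ x ∈ s, ∃ c d : ℝ, c < x ∧ x < d ∧ {i | i ∈ I ∧ (Ioo i.1 i.2 ∩ Ioo c d).Nonempty}.Finite) ∧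
      (∀ x ∈ s, ∃ i ∈ I, x < i.1 ∧ Icc x i.2 ⊆ s) ∧ (∀ x ∈ s, ∃ i ∈ I, i.2 < x ∧ Icc i.1 x ⊆ s) := by
  choose! f hf1 hf2 hf3 hf4 using seqR hs1
  choose! g hg1 hg2 hg3 hg4 using seqL hs2
  have hfm : ∀ p ∈ s, StrictMono (f p) := fun p hp => strictMono_nat_of_lt_succ (hf2 p hp)
  have hgm : ∀ p ∈ s, StrictAnti (g p) := fun p hp => strictAnti_nat_of_succ_lt (hg2 p hp)
  have hsec : ∀ p ∈ ordConnectedSection s, p ∈ s := fun p hp => ordConnectedSection_subset hp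
  have hO : ∀ p, (ordConnectedComponent s p).OrdConnected := fun p => inferInstance
  have hrep : ∀ x ∈ s, ∃ p ∈ ordConnectedSection s, x ∈ ordConnectedComponent s p := by
    intro x hx
    exact ⟨ordConnectedProj s ⟨x, hx⟩, ⟨⟨x, hx⟩, rfl⟩, mem_ordConnectedComponent_ordConnectedProj s ⟨x, hx⟩⟩
  set I : Set (ℝ × ℝ) := {i | ∃ p ∈ ordConnectedSection s, ∃ n : ℕ, i = (f p n, f p (n + 1)) ∨
    i = (g p (n + 1), g p n)} with hI
  have hIO : ∀ p ∈ ordConnectedSection s, ∀ n : ℕ, ∀ i : ℝ × ℝ, (i = (f p n, f p (n + 1)) ∨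
      i = (g p (n + 1), g p n)) → Icc i.1 i.2 ⊆ ordConnectedComponent s p := by
    intro p hp n i hi
    rcases hi with rfl | rfl
    · exact (hO p).out (hf1 p (hsec p hp) n) (hf1 p (hsec p hp) (n + 1))
    · exact (hO p).out (hg1 p (hsec p hp) (n + 1)) (hg1 p (hsec p hp) n)
  refine ⟨I, ?_, ?_, ?_, ?_⟩
  · rintro i ⟨p, hp, n, hi⟩
    refine ⟨(hIO p hp n i hi).trans ordConnectedComponent_subset, ?_⟩
    rcases hi with rfl | rfl
    · exact hf3 p (hsec p hp) n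
    · exact hg3 p (hsec p hp) n
  · intro x hx
    obtain ⟨p, hp, hxp⟩ := hrep x hx
    obtain ⟨m, hm⟩ := hf4 p (hsec p hp) x hxp
    obtain ⟨m', hm'⟩ := hg4 p (hsec p hp) x hxp
    refine ⟨g p m', f p m, hm', hm, ?_⟩
    refine Set.Finite.subset (s := (fun n => (f p n, f p (n + 1))) '' (Iio m) ∪
      (fun n => (g p (n + 1), g p n)) '' (Iio m')) (((finite_Iio m).image _).union ((finite_Iio m').image _)) ?_
    rintro i ⟨⟨p', hp', n, hi⟩, z, hz1, hz2⟩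
    have hz1' : z ∈ ordConnectedComponent s p' := hIO p' hp' n i hi ⟨hz1.1.le, hz1.2.le⟩
    have hz2' : z ∈ ordConnectedComponent s p := (hO p).out (hg1 p (hsec p hp) m') (hf1 p (hsec p hp) m)
      ⟨hz2.1.le, hz2.2.le⟩
    have hpp : p = p' := eq_of_mem_ordConnectedSection_of_uIcc_subset hp hp'
      (mem_ordConnectedComponent.1 (mem_ordConnectedComponent_trans hz2' (mem_ordConnectedComponent_comm.1 hz1')))
    subst hpp
    rcases hi with rfl | rfl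
    · refine Or.inl ⟨n, ?_, rfl⟩
      exact (hfm p (hsec p hp)).lt_iff_lt.1 (hz1.1.trans hz2.2)
    · refine Or.inr ⟨n, ?_, rfl⟩
      exact (hgm p (hsec p hp)).lt_iff_gt.1 (hz2.1.trans hz1.2)
  · intro x hx
    obtain ⟨p, hp, hxp⟩ := hrep x hx
    obtain ⟨m, hm⟩ := hf4 p (hsec p hp) x hxp
    exact ⟨(f p m, f p (m + 1)), ⟨p, hp, m, Or.inl rfl⟩, hm,
      ((hO p).out hxp (hf1 p (hsec p hp) (m + 1))).trans ordConnectedComponent_subset⟩
  · intro x hx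
    obtain ⟨p, hp, hxp⟩ := hrep x hx
    obtain ⟨m, hm⟩ := hg4 p (hsec p hp) x hxp
    exact ⟨(g p (m + 1), g p m), ⟨p, hp, m, Or.inr rfl⟩, hm,
      ((hO p).out (hg1 p (hsec p hp) (m + 1)) hxp).trans ordConnectedComponent_subset⟩

end M3aAux

open Set M3aAux

theorem stmM3a : StmM3a := by
  intro X J C hP hG hE hC
  have hs1 := stepR hP hE hC
  have hs2 := stepL hP hE hC
  obtain ⟨I, hI1, hI2, hI3, hI4⟩ := idx hs1 hs2
  obtain ⟨hC1, hC2, hC3⟩ := hC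
  have hGI : ∀ i ∈ I, ∃ D : Set (ℝ × ℝ), D.Nonempty ∧ (∀ U ∈ D, Gap X U) ∧ Cov D ⊆ X ∩ Ioo i.1 i.2 ∧ Acc D ∧
      ∀ U, Gap X U → (Icc U.1 U.2 ∩ Cov D).Nonempty → U ∈ D := fun i hi => hG i.1 i.2 (hI1 i hi).2
  choose! E hE1 hE2 hE3 hE4 hE5 using hGI
  set D : Set (ℝ × ℝ) := {U | Gap X U ∧ Icc U.1 U.2 ⊆ C} ∪ {U | ∃ i ∈ I, U ∈ E i} with hD
  have hsubCov : ∀ (F : Set (ℝ × ℝ)) (U : ℝ × ℝ), U ∈ F → Icc U.1 U.2 ⊆ Cov F := by
    intro F U hU z hz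
    exact subset_closure (mem_iUnion₂.2 ⟨U, hU, hz⟩)
  have hEI : ∀ i ∈ I, ∀ U ∈ E i, Icc U.1 U.2 ⊆ Ioo i.1 i.2 := fun i hi U hU =>
    (hsubCov _ U hU).trans (fun z hz => (hE3 i hi hz).2)
  have hcl : IsClosed (C ∪ Jᶜ) := by
    have : C ∪ Jᶜ = closure C ∪ Jᶜ := by
      ext z
      constructor
      · rintro (h | h)
        · exact Or.inl (subset_closure h)
        · exact Or.inr h
      · rintro (h | h)
        · by_cases hz : z ∈ J
          · exact Or.inl (hC2 ⟨h, hz⟩)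
          · exact Or.inr hz
        · exact Or.inr h
    rw [this]
    exact isClosed_closure.union hE.isOpen.isClosed_compl
  have hso : IsOpen (J \ C) := by
    have : J \ C = (C ∪ Jᶜ)ᶜ := by
      ext z
      simp only [mem_sdiff, mem_compl_iff, mem_union, not_or, not_not]
      tauto
    rw [this]
    exact hcl.isOpen_compl
  have key : ∀ x ∈ J \ C, x ∈ Cov D → ∃ i ∈ I, x ∈ Cov (E i) := by
    intro x hx hxD
    obtain ⟨c, d, hcx, hxd, hfin⟩ := hI2 x hx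
    by_contra hcon
    push Not at hcon
    set T : Set ℝ := ⋃ i ∈ {i | i ∈ I ∧ (Ioo i.1 i.2 ∩ Ioo c d).Nonempty}, Cov (E i) with hT
    have hTcl : IsClosed T := hfin.isClosed_biUnion (fun i _ => isClosed_closure)
    have hxT : x ∉ T := by
      intro h
      obtain ⟨i, hi, hxi⟩ := mem_iUnion₂.1 h
      exact hcon i hi.1 hxi
    have hV : IsOpen ((J \ C) ∩ (Ioo c d ∩ Tᶜ)) := hso.inter (isOpen_Ioo.inter hTcl.isOpen_compl)
    obtain ⟨z, ⟨hzs, hzcd, hzT⟩, hz⟩ := mem_closure_iff.1 hxD _ hV ⟨hx, ⟨hcx, hxd⟩, hxT⟩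
    obtain ⟨U, hU, hzU⟩ := mem_iUnion₂.1 hz
    rcases hU with hU | ⟨i, hi, hU⟩
    · exact hzs.2 (hU.2 hzU)
    · have h1 : z ∈ Cov (E i) := hsubCov _ U hU hzU
      exact hzT (mem_iUnion₂.2 ⟨i, ⟨hi, z, (hE3 i hi h1).2, hzcd⟩, h1⟩)
  have mem1 : ∀ U, Gap X U → Icc U.1 U.2 ⊆ C → U ∈ D := fun U h1 h2 => Or.inl ⟨h1, h2⟩
  have mem2 : ∀ i ∈ I, ∀ U ∈ E i, U ∈ D := fun i hi U hU => Or.inr ⟨i, hi, hU⟩
  -- near a point of `J \ C` to the left of a point of `C`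
  have nearR : ∀ y ∈ J \ C, ∀ x ∈ C, y < x → ∃ V ∈ D, y < V.1 ∧ V.1 ≤ V.2 ∧ V.2 < x := by
    intro y hy x hx hyx
    obtain ⟨i, hi, hyi, hsub⟩ := hI3 y hy
    obtain ⟨V, hV⟩ := hE1 i hi
    have hVg := (hE2 i hi V hV).1
    have hVs := hEI i hi V hV
    have h1 := (hVs ⟨le_refl _, hVg.le⟩).1
    have h2 := (hVs ⟨hVg.le, le_refl _⟩).2
    refine ⟨V, mem2 i hi V hV, by linarith, hVg.le, ?_⟩
    by_contra hcon
    push Not at hcon
    exact (hsub ⟨hyx.le, by linarith⟩).2 hx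
  have nearL : ∀ y ∈ J \ C, ∀ x ∈ C, x < y → ∃ V ∈ D, x < V.1 ∧ V.1 ≤ V.2 ∧ V.2 < y := by
    intro y hy x hx hyx
    obtain ⟨i, hi, hyi, hsub⟩ := hI4 y hy
    obtain ⟨V, hV⟩ := hE1 i hi
    have hVg := (hE2 i hi V hV).1
    have hVs := hEI i hi V hV
    have h1 := (hVs ⟨le_refl _, hVg.le⟩).1
    have h2 := (hVs ⟨hVg.le, le_refl _⟩).2
    refine ⟨V, mem2 i hi V hV, ?_, hVg.le, by linarith⟩
    by_contra hcon
    push Not at hcon
    exact (hsub ⟨by linarith, hyx.le⟩).2 hx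
  refine ⟨D, ?_, ?_, ?_, ?_, ?_, ?_⟩
  · rintro U (hU | ⟨i, hi, hU⟩)
    · exact ⟨hU.1, hU.2.trans (fun z hz => (hC1 hz).2)⟩
    · exact ⟨hE2 i hi U hU, fun z hz => ((hI1 i hi).1 (Ioo_subset_Icc_self (hEI i hi U hU hz))).1⟩
  · intro x hx
    have hxJ : x ∈ J := (hC1 hx).2
    have hxX : x ∈ X := (hC1 hx).1
    by_cases hg : ∃ U : ℝ × ℝ, Gap X U ∧ Icc U.1 U.2 ⊆ J ∧ x ∈ Icc U.1 U.2
    · obtain ⟨U, hU, hUJ, hxU⟩ := hg
      exact hsubCov _ U (mem1 U hU (hC3 U hU hUJ ⟨x, hxU, hx⟩)) hxU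
    · obtain ⟨e0, he0, he0J⟩ := Metric.isOpen_iff.1 hE.isOpen x hxJ
      rw [Real.ball_eq_Ioo] at he0J
      rw [Cov, Metric.mem_closure_iff]
      intro e he
      have hm : 0 < min e e0 := lt_min he he0
      have h1 : min e e0 ≤ e := min_le_left _ _
      have h2 : min e e0 ≤ e0 := min_le_right _ _
      have hy : ∃ y ∈ Ioo (x - min e e0) (x + min e e0), y ∉ X := by
        by_contra hcon
        push Not at hcon
        exact hg (gapOf hP hE hm hxJ (fun z hz => hcon z hz))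
      obtain ⟨y, hy, hyX⟩ := hy
      have hyJ : y ∈ J := he0J ⟨by linarith [hy.1], by linarith [hy.2]⟩
      have hys : y ∈ J \ C := ⟨hyJ, fun h => hyX (hC1 h).1⟩
      rcases lt_trichotomy y x with h | h | h
      · obtain ⟨V, hV, hV1, hV2, hV3⟩ := nearR y hys x hx h
        refine ⟨V.1, mem_iUnion₂.2 ⟨V, hV, ⟨le_refl _, hV2⟩⟩, ?_⟩
        rw [Real.dist_eq, abs_lt]
        constructor <;> linarith [hy.1]
      · exact absurd (h ▸ hxX) hyX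
      · obtain ⟨V, hV, hV1, hV2, hV3⟩ := nearL y hys x hx h
        refine ⟨V.1, mem_iUnion₂.2 ⟨V, hV, ⟨le_refl _, hV2⟩⟩, ?_⟩
        rw [Real.dist_eq, abs_lt]
        constructor <;> linarith [hy.2]
  · rintro x ⟨hxD, hxJ⟩
    by_cases hxC : x ∈ C
    · exact (hC1 hxC).1
    · obtain ⟨i, hi, hxi⟩ := key x ⟨hxJ, hxC⟩ hxD
      exact (hE3 i hi hxi).1
  · intro U hU hUJ hne
    by_cases hUC : (Icc U.1 U.2 ∩ C).Nonempty
    · exact mem1 U hU (hC3 U hU hUJ hUC)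
    · obtain ⟨z, hzU, hzD⟩ := hne
      have hzs : z ∈ J \ C := ⟨hUJ hzU, fun h => hUC ⟨z, hzU, h⟩⟩
      obtain ⟨i, hi, hzi⟩ := key z hzs hzD
      exact mem2 i hi U (hE5 i hi U hU ⟨z, hzU, hzi⟩)
  · rintro U (hU | ⟨i, hi, hU⟩) e he
    · obtain ⟨hUg, hUC⟩ := hU
      have hU1 : U.1 ∈ C := hUC ⟨le_refl _, hUg.1.le⟩
      have hU2 : U.2 ∈ C := hUC ⟨hUg.1.le, le_refl _⟩
      constructor
      · obtain ⟨e0, he0, he0J⟩ := Metric.isOpen_iff.1 hE.isOpen U.1 (hC1 hU1).2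
        rw [Real.ball_eq_Ioo] at he0J
        have hm : 0 < min e e0 := lt_min he he0
        have h1 : min e e0 ≤ e := min_le_left _ _
        have h2 : min e e0 ≤ e0 := min_le_right _ _
        obtain ⟨y, hy, hyX⟩ := hUg.2.2.1 _ hm
        have hys : y ∈ J \ C := ⟨he0J ⟨by linarith [hy.1], by linarith [hy.2]⟩, fun h => hyX (hC1 h).1⟩
        obtain ⟨V, hV, hV1, hV2, hV3⟩ := nearR y hys U.1 hU1 hy.2
        exact ⟨V, hV, by linarith [hy.1], hV3⟩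
      · obtain ⟨e0, he0, he0J⟩ := Metric.isOpen_iff.1 hE.isOpen U.2 (hC1 hU2).2
        rw [Real.ball_eq_Ioo] at he0J
        have hm : 0 < min e e0 := lt_min he he0
        have h1 : min e e0 ≤ e := min_le_left _ _
        have h2 : min e e0 ≤ e0 := min_le_right _ _
        obtain ⟨y, hy, hyX⟩ := hUg.2.2.2 _ hm
        have hys : y ∈ J \ C := ⟨he0J ⟨by linarith [hy.1], by linarith [hy.2]⟩, fun h => hyX (hC1 h).1⟩
        obtain ⟨V, hV, hV1, hV2, hV3⟩ := nearL y hys U.2 hU2 hy.1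
        exact ⟨V, hV, hV1, by linarith [hy.2]⟩
    · obtain ⟨⟨V, hV, hV'⟩, W, hW, hW'⟩ := hE4 i hi U hU e he
      exact ⟨⟨V, mem2 i hi V hV, hV'⟩, W, mem2 i hi W hW, hW'⟩
  · intro p hpJ hpC
    constructor
    · obtain ⟨i, hi, hyi, hsub⟩ := hI4 p ⟨hpJ, hpC⟩
      obtain ⟨V, hV⟩ := hE1 i hi
      have hVg := (hE2 i hi V hV).1
      have hVs := hEI i hi V hV
      have h1 := (hVs ⟨le_refl _, hVg.le⟩).1
      have h2 := (hVs ⟨hVg.le, le_refl _⟩).2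
      refine ⟨V, mem2 i hi V hV, by linarith, Set.disjoint_left.2 (fun z hz hzC => ?_)⟩
      exact (hsub ⟨by linarith [hz.1], hz.2⟩).2 hzC
    · obtain ⟨i, hi, hyi, hsub⟩ := hI3 p ⟨hpJ, hpC⟩
      obtain ⟨V, hV⟩ := hE1 i hi
      have hVg := (hE2 i hi V hV).1
      have hVs := hEI i hi V hV
      have h1 := (hVs ⟨le_refl _, hVg.le⟩).1
      have h2 := (hVs ⟨hVg.le, le_refl _⟩).2
      refine ⟨V, mem2 i hi V hV, by linarith, Set.disjoint_left.2 (fun z hz hzC => ?_)⟩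
      exact (hsub ⟨hz.1, by linarith [hz.2]⟩).2 hzC

end Pool.Agent.R270.WF
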