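import Pool.Agent.R270.WF.Stm

/-! Project WF, module M3b: `StmM3a → StmM3`. -/

namespace Pool.Agent.R270.WF
open Set Filter Topology

namespace M3b

theorem left_end {X : Set ℝ} (hX : PI X) {p y0 : ℝ} (hp : p ∈ X) (hy : y0 < p) (hy0 : y0 ∉ X) :
    ∃ a, y0 < a ∧ a ≤ p ∧ Icc a p ⊆ X ∧ ∀ e : ℝ, 0 < e → ∃ y ∈ Ioo (a - e) a, y ∉ X := by
  set S : Set ℝ := {w | w ≤ p ∧ Icc w p ⊆ X} with hS
  have hpS : p ∈ S := ⟨le_refl _, by rw [Icc_self]; exact singleton_subset_iff.2 hp⟩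
  have hlb : ∀ w ∈ S, y0 < w := by
    intro w hw
    by_contra h
    exact hy0 (hw.2 ⟨not_lt.1 h, hy.le⟩)
  have hbdd : BddBelow S := ⟨y0, fun w hw => (hlb w hw).le⟩
  set a := sInf S with ha
  have h1 : y0 ≤ a := le_csInf ⟨p, hpS⟩ fun w hw => (hlb w hw).le
  have h2 : a ≤ p := csInf_le hbdd hpS
  have h3 : Ioo a p ⊆ X := by
    intro z hz
    obtain ⟨w, hw, hwz⟩ := exists_lt_of_csInf_lt ⟨p, hpS⟩ hz.1
    exact hw.2 ⟨hwz.le, hz.2.le⟩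
  have h4 : Icc a p ⊆ X := by
    rcases eq_or_lt_of_le h2 with h | h
    · rw [h, Icc_self]; exact singleton_subset_iff.2 hp
    · exact (hX a p h).1 h3
  have h5 : y0 < a := by
    rcases eq_or_lt_of_le h1 with h | h
    · exact absurd (h4 ⟨h.symm.le, hy.le⟩) hy0
    · exact h
  refine ⟨a, h5, h2, h4, ?_⟩
  intro e he
  by_contra hcon
  have hcon' : ∀ y ∈ Ioo (a - e) a, y ∈ X := by
    intro y hy'
    by_contra hyX
    exact hcon ⟨y, hy', hyX⟩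
  have hw : a - e / 2 ∈ S := by
    refine ⟨by linarith, ?_⟩
    intro z hz
    by_cases hza : z < a
    · exact hcon' z ⟨by linarith [hz.1], hza⟩
    · exact h4 ⟨not_lt.1 hza, hz.2⟩
  have := csInf_le hbdd hw
  linarith

theorem right_end {X : Set ℝ} (hX : PI X) {p y0 : ℝ} (hp : p ∈ X) (hy : p < y0) (hy0 : y0 ∉ X) :
    ∃ b, b < y0 ∧ p ≤ b ∧ Icc p b ⊆ X ∧ ∀ e : ℝ, 0 < e → ∃ y ∈ Ioo b (b + e), y ∉ X := by
  set S : Set ℝ := {w | p ≤ w ∧ Icc p w ⊆ X} with hS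
  have hpS : p ∈ S := ⟨le_refl _, by rw [Icc_self]; exact singleton_subset_iff.2 hp⟩
  have hub : ∀ w ∈ S, w < y0 := by
    intro w hw
    by_contra h
    exact hy0 (hw.2 ⟨hy.le, not_lt.1 h⟩)
  have hbdd : BddAbove S := ⟨y0, fun w hw => (hub w hw).le⟩
  set b := sSup S with hb
  have h1 : b ≤ y0 := csSup_le ⟨p, hpS⟩ fun w hw => (hub w hw).le
  have h2 : p ≤ b := le_csSup hbdd hpS
  have h3 : Ioo p b ⊆ X := by
    intro z hz
    obtain ⟨w, hw, hwz⟩ := exists_lt_of_lt_csSup ⟨p, hpS⟩ hz.2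
    exact hw.2 ⟨hz.1.le, hwz.le⟩
  have h4 : Icc p b ⊆ X := by
    rcases eq_or_lt_of_le h2 with h | h
    · rw [← h, Icc_self]; exact singleton_subset_iff.2 hp
    · exact (hX p b h).1 h3
  have h5 : b < y0 := by
    rcases eq_or_lt_of_le h1 with h | h
    · exact absurd (h4 ⟨hy.le, h.symm.le⟩) hy0
    · exact h
  refine ⟨b, h5, h2, h4, ?_⟩
  intro e he
  by_contra hcon
  have hcon' : ∀ y ∈ Ioo b (b + e), y ∈ X := by
    intro y hy'
    by_contra hyX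
    exact hcon ⟨y, hy', hyX⟩
  have hw : b + e / 2 ∈ S := by
    refine ⟨by linarith, ?_⟩
    intro z hz
    by_cases hza : b < z
    · exact hcon' z ⟨hza, by linarith [hz.2]⟩
    · exact h4 ⟨hz.1, not_lt.1 hza⟩
  have := le_csSup hbdd hw
  linarith

/-- the saturation of `F` inside `J` -/
def Fst (X J F : Set ℝ) : Set ℝ := {y | y ∈ J ∧ ∃ x ∈ F, uIcc x y ⊆ X}

theorem satC_Fst {X J F : Set ℝ} (hX : PI X) (hF : IsCompact F) (hFX : F ⊆ X) : SatC X J (Fst X J F) := by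
  refine ⟨?_, ?_, ?_⟩
  · rintro y ⟨hyJ, x, hx, hxy⟩
    exact ⟨hxy right_mem_uIcc, hyJ⟩
  · rintro y ⟨hy, hyJ⟩
    obtain ⟨u, hu, hulim⟩ := mem_closure_iff_seq_limit.1 hy
    choose hJ x hxF hxX using hu
    obtain ⟨a, ha, φ, hφ, hlim⟩ := hF.tendsto_subseq hxF
    have hu' : Tendsto (u ∘ φ) atTop (𝓝 y) := hulim.comp hφ.tendsto_atTop
    refine ⟨hyJ, a, ha, ?_⟩
    rcases lt_trichotomy a y with h | h | h
    · rw [uIcc_of_le h.le]
      apply (hX a y h).1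
      intro z hz
      have e1 : ∀ᶠ n in atTop, (x ∘ φ) n < z := hlim.eventually (gt_mem_nhds hz.1)
      have e2 : ∀ᶠ n in atTop, z < (u ∘ φ) n := hu'.eventually (lt_mem_nhds hz.2)
      obtain ⟨n, hn1, hn2⟩ := (e1.and e2).exists
      apply hxX (φ n)
      rw [mem_uIcc]
      exact Or.inl ⟨hn1.le, hn2.le⟩
    · rw [h, uIcc_self]
      exact singleton_subset_iff.2 (h ▸ hFX ha)
    · rw [uIcc_of_ge h.le]
      apply (hX y a h).1
      intro z hz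
      have e1 : ∀ᶠ n in atTop, z < (x ∘ φ) n := hlim.eventually (lt_mem_nhds hz.2)
      have e2 : ∀ᶠ n in atTop, (u ∘ φ) n < z := hu'.eventually (gt_mem_nhds hz.1)
      obtain ⟨n, hn1, hn2⟩ := (e1.and e2).exists
      apply hxX (φ n)
      rw [mem_uIcc]
      exact Or.inr ⟨hn2.le, hn1.le⟩
  · rintro U hU hUJ ⟨y, hyU, hyJ, x, hx, hxy⟩ z hz
    refine ⟨hUJ hz, x, hx, ?_⟩
    refine (uIcc_subset_uIcc_union_uIcc (b := y)).trans (union_subset hxy ?_)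
    exact (uIcc_subset_Icc hyU hz).trans hU.2.1

theorem satC_union {X J C C' : Set ℝ} (h : SatC X J C) (h' : SatC X J C') : SatC X J (C ∪ C') := by
  obtain ⟨h1, h2, h3⟩ := h
  obtain ⟨k1, k2, k3⟩ := h'
  refine ⟨union_subset h1 k1, ?_, ?_⟩
  · rw [closure_union]
    rintro y ⟨hy | hy, hyJ⟩
    · exact Or.inl (h2 ⟨hy, hyJ⟩)
    · exact Or.inr (k2 ⟨hy, hyJ⟩)
  · rintro U hU hUJ ⟨y, hyU, hy | hy⟩
    · exact (h3 U hU hUJ ⟨y, hyU, hy⟩).trans subset_union_left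
    · exact (k3 U hU hUJ ⟨y, hyU, hy⟩).trans subset_union_right

/-- the conclusion of `StmM3a` -/
def FillP (X J C : Set ℝ) (D : Set (ℝ × ℝ)) : Prop :=
  (∀ U ∈ D, Gap X U ∧ Icc U.1 U.2 ⊆ J) ∧ C ⊆ Cov D ∧ Cov D ∩ J ⊆ X ∧
    (∀ U, Gap X U → Icc U.1 U.2 ⊆ J → (Icc U.1 U.2 ∩ Cov D).Nonempty → U ∈ D) ∧ Acc D ∧
    (∀ p ∈ J, p ∉ C → (∃ V ∈ D, V.2 < p ∧ Disjoint (Icc V.1 p) C) ∧ (∃ V ∈ D, p < V.1 ∧ Disjoint (Icc p V.2) C))

theorem icc_sub_cov {D : Set (ℝ × ℝ)} {U : ℝ × ℝ} (hU : U ∈ D) : Icc U.1 U.2 ⊆ Cov D :=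
  fun _ hx => subset_closure (mem_biUnion hU hx)

theorem satC_cov {X J C : Set ℝ} {D : Set (ℝ × ℝ)} (h : FillP X J C D) : SatC X J (Cov D ∩ J) := by
  obtain ⟨h1, h2, h3, h4, h5, h6⟩ := h
  refine ⟨fun y hy => ⟨h3 hy, hy.2⟩, ?_, ?_⟩
  · rintro y ⟨hy, hyJ⟩
    refine ⟨?_, hyJ⟩
    have : closure (Cov D ∩ J) ⊆ Cov D := closure_minimal inter_subset_left isClosed_closure
    exact this hy
  · rintro U hU hUJ ⟨y, hyU, hy, hyJ⟩
    have hUD := h4 U hU hUJ ⟨y, hyU, hy⟩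
    exact subset_inter (icc_sub_cov hUD) hUJ

end M3b

open M3b

theorem stmM3b : StmM3a → StmM3 := by
  intro H X J hPI hFs hGood hJ
  obtain ⟨F, hFc, hFX⟩ := hFs
  have H' : ∀ C, SatC X J C → ∃ D, FillP X J C D := fun C hC => H X J C hPI hGood hJ hC
  choose! fill hfill using H'
  -- compact sets
  set G : ℕ → Set ℝ := fun n => F n.unpair.1 ∩ Icc (-(n.unpair.2 : ℝ)) (n.unpair.2 : ℝ) with hG
  have hGc : ∀ n, IsCompact (G n) := fun n => isCompact_Icc.inter_left (hFc _)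
  have hGX : ∀ n, G n ⊆ X := by
    intro n x hx
    rw [hFX]; exact mem_iUnion.2 ⟨_, hx.1⟩
  have hGall : ∀ x ∈ X, ∃ n, x ∈ G n := by
    intro x hx
    rw [hFX] at hx
    obtain ⟨i, hi⟩ := mem_iUnion.1 hx
    obtain ⟨k, hk⟩ := exists_nat_ge |x|
    refine ⟨Nat.pair i k, ?_⟩
    simp only [hG, Nat.unpair_pair]
    exact ⟨hi, abs_le.1 hk⟩
  set S : ℕ → Set ℝ := fun n => Fst X J (G n) with hSdef
  have hS : ∀ n, SatC X J (S n) := fun n => satC_Fst hPI (hGc n) (hGX n)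
  have hSall : ∀ x ∈ X ∩ J, ∃ n, x ∈ S n := by
    rintro x ⟨hx, hxJ⟩
    obtain ⟨n, hn⟩ := hGall x hx
    exact ⟨n, hxJ, x, hn, by rw [uIcc_self]; exact singleton_subset_iff.2 hx⟩
  let D : ℕ → Set (ℝ × ℝ) := fun n => Nat.rec (fill (S 0)) (fun n Dn => fill (S (n + 1) ∪ (Cov Dn ∩ J))) n
  let C : ℕ → Set ℝ := fun n => Nat.casesOn n (S 0) (fun n => S (n + 1) ∪ (Cov (D n) ∩ J))
  have hD0 : D 0 = fill (C 0) := rfl
  have hDs : ∀ n, D (n + 1) = fill (C (n + 1)) := fun n => rfl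
  have hCs : ∀ n, C (n + 1) = S (n + 1) ∪ (Cov (D n) ∩ J) := fun n => rfl
  have key : ∀ n, SatC X J (C n) ∧ FillP X J (C n) (D n) := by
    intro n
    induction n with
    | zero => exact ⟨hS 0, by rw [hD0]; exact hfill _ (hS 0)⟩
    | succ n ih =>
      have hc : SatC X J (C (n + 1)) := by
        rw [hCs]; exact satC_union (hS _) (satC_cov ih.2)
      exact ⟨hc, by rw [hDs]; exact hfill _ hc⟩
  have hSC : ∀ n, S n ⊆ C n := by
    intro n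
    cases n with
    | zero => exact subset_rfl
    | succ n => rw [hCs]; exact subset_union_left
  have hconn : ∀ {u v : ℝ}, u ∈ J → v ∈ J → Icc u v ⊆ J := fun hu hv => hJ.conn.out hu hv
  refine ⟨D, ?_⟩
  have hgap : ∀ n, ∀ U ∈ D n, Gap X U ∧ Icc U.1 U.2 ⊆ J := fun n => (key n).2.1
  have hsat : ∀ n U, Gap X U → Icc U.1 U.2 ⊆ J → (Icc U.1 U.2 ∩ Cov (D n)).Nonempty → U ∈ D n :=
    fun n => (key n).2.2.2.2.1
  have hCX : ∀ n, ∀ y, y ∉ X → y ∉ C n := fun n y hy h => hy ((key n).1.1 h).1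
  have hCcov : ∀ n, C n ⊆ Cov (D n) := fun n => (key n).2.2.1
  have hfl : ∀ n, ∀ p ∈ J, p ∉ C n → (∃ V ∈ D n, V.2 < p ∧ Disjoint (Icc V.1 p) (C n)) ∧
      (∃ V ∈ D n, p < V.1 ∧ Disjoint (Icc p V.2) (C n)) := fun n => (key n).2.2.2.2.2.2
  have fL' : ∀ n, ∀ p ∈ J, p ∉ C (n + 1) → ∃ V ∈ D (n + 1), V.2 < p ∧ Disjoint (Icc V.1 p) (Cov (D n)) := by
    intro n p hp hpC
    obtain ⟨V, hV, hVp, hdis⟩ := (hfl (n + 1) p hp hpC).1
    refine ⟨V, hV, hVp, ?_⟩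
    rw [disjoint_left] at hdis ⊢
    intro z hz hzc
    have hg := hgap (n + 1) V hV
    have hV1 : V.1 ∈ J := hg.2 ⟨le_refl _, hg.1.1.le⟩
    exact hdis hz (by rw [hCs]; exact Or.inr ⟨hzc, hconn hV1 hp hz⟩)
  have fR' : ∀ n, ∀ p ∈ J, p ∉ C (n + 1) → ∃ V ∈ D (n + 1), p < V.1 ∧ Disjoint (Icc p V.2) (Cov (D n)) := by
    intro n p hp hpC
    obtain ⟨V, hV, hVp, hdis⟩ := (hfl (n + 1) p hp hpC).2
    refine ⟨V, hV, hVp, ?_⟩
    rw [disjoint_left] at hdis ⊢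
    intro z hz hzc
    have hg := hgap (n + 1) V hV
    have hV1 : V.2 ∈ J := hg.2 ⟨hg.1.1.le, le_refl _⟩
    exact hdis hz (by rw [hCs]; exact Or.inr ⟨hzc, hconn hp hV1 hz⟩)
  have hcl : ∀ n, ∀ a, a ∉ Cov (D n) → ∃ e : ℝ, 0 < e ∧ ∀ z ∈ Ioo (a - e) (a + e), z ∉ Cov (D n) := by
    intro n a ha
    have hopen : IsOpen (Cov (D n))ᶜ := isClosed_closure.isOpen_compl
    obtain ⟨e, he, hball⟩ := Metric.isOpen_iff.1 hopen a ha
    refine ⟨e, he, ?_⟩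
    intro z hz
    apply hball
    rw [Real.ball_eq_Ioo]; exact hz
  -- no red gap touching from a point outside the closure
  have hnogap : ∀ n, ∀ p ∈ J, p ∉ Cov (D n) → ∀ a b, a ≤ p → p ≤ b → a < b → Icc a p ⊆ X → Icc p b ⊆ X →
      (∀ e : ℝ, 0 < e → ∃ y ∈ Ioo (a - e) a, y ∉ X) → (∀ e : ℝ, 0 < e → ∃ y ∈ Ioo b (b + e), y ∉ X) →
      Icc a b ⊆ J → ∀ z ∈ Icc a b, z ∉ Cov (D n) := by
    intro n p hp hpc a b hap hpb hab h1 h2 h3 h4 h5 z hz hzc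
    have hg : Gap X (a, b) := by
      refine ⟨hab, ?_, h3, h4⟩
      intro w hw
      by_cases hwp : w ≤ p
      · exact h1 ⟨hw.1, hwp⟩
      · exact h2 ⟨(not_le.1 hwp).le, hw.2⟩
    have := hsat n (a, b) hg h5 ⟨z, hz, hzc⟩
    exact hpc (icc_sub_cov this ⟨hap, hpb⟩)
  refine ⟨?_, hgap, ?_, fun n => (key n).2.2.2.1, ?_, hsat, fun n => (key n).2.2.2.2.2.1, ?_, ?_, ?_, ?_⟩
  · -- mono
    intro n U hU
    have hg := hgap n U hU
    refine hsat (n + 1) U hg.1 hg.2 ⟨U.1, ⟨le_refl _, hg.1.1.le⟩, ?_⟩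
    apply hCcov (n + 1)
    rw [hCs]
    exact Or.inr ⟨icc_sub_cov hU ⟨le_refl _, hg.1.1.le⟩, hg.2 ⟨le_refl _, hg.1.1.le⟩⟩
  · -- all
    intro U hU hUJ
    have hm : U.1 ∈ Icc U.1 U.2 := ⟨le_refl _, hU.1.le⟩
    obtain ⟨n, hn⟩ := hSall U.1 ⟨hU.2.1 hm, hUJ hm⟩
    exact ⟨n, hsat n U hU hUJ ⟨U.1, hm, hCcov n (hSC n hn)⟩⟩
  · -- cover
    intro x hx
    obtain ⟨n, hn⟩ := hSall x hx
    exact ⟨n, hCcov n (hSC n hn)⟩
  · -- fillL
    intro n p hp hpc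
    by_cases hpC : p ∈ C (n + 1)
    swap
    · exact fL' n p hp hpC
    have hpX : p ∈ X := ((key (n + 1)).1.1 hpC).1
    obtain ⟨y0, hy0J, hy0, hy0X⟩ := hJ.outL p hp
    obtain ⟨y1, hy1J, hy1, hy1X⟩ := hJ.outR p hp
    obtain ⟨a, ha0, hap, haX, hacc⟩ := left_end hPI hpX hy0 hy0X
    obtain ⟨b, hb1, hpb, hbX, hbcc⟩ := right_end hPI hpX hy1 hy1X
    have hmiss : ∀ z ∈ Icc a p, z ∉ Cov (D n) := by
      rcases eq_or_lt_of_le hap with h | h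
      · intro z hz
        have : z = p := le_antisymm hz.2 (h ▸ hz.1)
        rw [this]; exact hpc
      · intro z hz
        refine hnogap n p hp hpc a b hap hpb (lt_of_lt_of_le h hpb) haX hbX hacc hbcc ?_ z ⟨hz.1, hz.2.trans hpb⟩
        exact (Icc_subset_Icc ha0.le hb1.le).trans (hconn hy0J hy1J)
    obtain ⟨e, he, hball⟩ := hcl n a (hmiss a ⟨le_refl _, hap⟩)
    obtain ⟨y, hy, hyX⟩ := hacc (min e (a - y0)) (lt_min he (by linarith))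
    have hy1' : a - e < y := by have := hy.1; have := min_le_left e (a - y0); linarith
    have hy2' : y0 < y := by have := hy.1; have := min_le_right e (a - y0); linarith
    have hyJ : y ∈ J := hconn hy0J hp ⟨hy2'.le, hy.2.le.trans hap⟩
    obtain ⟨V, hV, hVy, hdis⟩ := fL' n y hyJ (hCX (n + 1) y hyX)
    refine ⟨V, hV, lt_of_lt_of_le (hVy.trans hy.2) hap, ?_⟩
    rw [disjoint_left] at hdis ⊢
    intro z hz
    rcases le_or_gt z y with h | h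
    · exact hdis ⟨hz.1, h⟩
    · rcases lt_or_ge z a with h' | h'
      · exact hball z ⟨by linarith, by linarith⟩
      · exact hmiss z ⟨h', hz.2⟩
  · -- fillR
    intro n p hp hpc
    by_cases hpC : p ∈ C (n + 1)
    swap
    · exact fR' n p hp hpC
    have hpX : p ∈ X := ((key (n + 1)).1.1 hpC).1
    obtain ⟨y0, hy0J, hy0, hy0X⟩ := hJ.outL p hp
    obtain ⟨y1, hy1J, hy1, hy1X⟩ := hJ.outR p hp
    obtain ⟨a, ha0, hap, haX, hacc⟩ := left_end hPI hpX hy0 hy0X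
    obtain ⟨b, hb1, hpb, hbX, hbcc⟩ := right_end hPI hpX hy1 hy1X
    have hmiss : ∀ z ∈ Icc p b, z ∉ Cov (D n) := by
      rcases eq_or_lt_of_le hpb with h | h
      · intro z hz
        have : z = p := le_antisymm (h ▸ hz.2) hz.1
        rw [this]; exact hpc
      · intro z hz
        refine hnogap n p hp hpc a b hap hpb (lt_of_le_of_lt hap h) haX hbX hacc hbcc ?_ z ⟨hap.trans hz.1, hz.2⟩
        exact (Icc_subset_Icc ha0.le hb1.le).trans (hconn hy0J hy1J)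
    obtain ⟨e, he, hball⟩ := hcl n b (hmiss b ⟨hpb, le_refl _⟩)
    obtain ⟨y, hy, hyX⟩ := hbcc (min e (y1 - b)) (lt_min he (by linarith))
    have hy1' : y < b + e := by have := hy.2; have := min_le_left e (y1 - b); linarith
    have hy2' : y < y1 := by have := hy.2; have := min_le_right e (y1 - b); linarith
    have hyJ : y ∈ J := hconn hp hy1J ⟨hpb.trans hy.1.le, hy2'.le⟩
    obtain ⟨V, hV, hVy, hdis⟩ := fR' n y hyJ (hCX (n + 1) y hyX)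
    refine ⟨V, hV, lt_of_le_of_lt hpb (hy.1.trans hVy), ?_⟩
    rw [disjoint_left] at hdis ⊢
    intro z hz
    rcases le_or_gt y z with h | h
    · exact hdis ⟨h, hz.2⟩
    · rcases lt_or_ge b z with h' | h'
      · exact hball z ⟨by linarith, by linarith⟩
      · exact hmiss z ⟨hz.1, h'⟩
  · -- lowL
    intro x hx
    obtain ⟨y, hyJ, hyx, hyX⟩ := hJ.outL x hx
    obtain ⟨V, hV, hVy, -⟩ := (hfl 0 y hyJ (hCX 0 y hyX)).1
    exact ⟨V, hV, hVy.trans hyx⟩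
  · -- lowR
    intro x hx
    obtain ⟨y, hyJ, hyx, hyX⟩ := hJ.outR x hx
    obtain ⟨V, hV, hVy, -⟩ := (hfl 0 y hyJ (hCX 0 y hyX)).2
    exact ⟨V, hV, hyx.trans hVy⟩

end Pool.Agent.R270.WF
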