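import Pool.Agent.R270.WF.Stm

/-! # WF-M4: back and forth for labelled linear orders -/

namespace Pool.Agent.R270.WF.M4
open Set Pool.Agent.R270.WF

variable {P Q : Type} [LinearOrder P] [LinearOrder Q] {l : P → ℕ∞} {l' : Q → ℕ∞}

/-- the interval `(a,b)` contains a label `≤ n` -/
def Dn {P : Type} [LinearOrder P] (l : P → ℕ∞) (a b : P) (n : ℕ) : Prop :=
  ∃ x, a < x ∧ x < b ∧ l x ≤ n

theorem Dn_split (hP : LabAx P l) {a b c : P} (hac : a < c) (hcb : c < b) (n : ℕ) :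
    Dn l a b n ↔ Dn l a c n ∨ Dn l c b n := by
  constructor
  · rintro ⟨x, hx1, hx2, hx3⟩
    rcases lt_trichotomy x c with h | h | h
    · exact Or.inl ⟨x, hx1, h, hx3⟩
    · subst h
      have hne : l x ≠ ⊤ := ne_top_of_le_ne_top (ENat.natCast_ne_top n) hx3
      obtain ⟨y, hy1, hy2, hy3⟩ := hP.accL a x hac hne
      exact Or.inl ⟨y, hy1, hy2, hy3 ▸ hx3⟩
    · exact Or.inr ⟨x, h, hx2, hx3⟩
  · rintro (⟨x, hx1, hx2, hx3⟩ | ⟨x, hx1, hx2, hx3⟩)
    · exact ⟨x, hx1, hx2.trans hcb, hx3⟩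
    · exact ⟨x, hac.trans hx1, hx2, hx3⟩

theorem exists_mu (hP : LabAx P l) {a b : P} (hab : a < b) :
    ∃ m : ℕ, (∀ n, Dn l a b n ↔ m ≤ n) ∧ ∃ x, a < x ∧ x < b ∧ l x = m := by
  classical
  have hex : ∃ n, Dn l a b n := by
    obtain ⟨x, h1, h2, h3⟩ := hP.dens a b hab
    obtain ⟨k, hk⟩ := ENat.ne_top_iff_exists.1 h3
    exact ⟨k, x, h1, h2, hk.symm.le⟩
  refine ⟨Nat.find hex, fun n => ⟨fun h => Nat.find_min' hex h, fun h => ?_⟩, ?_⟩
  · obtain ⟨x, h1, h2, h3⟩ := Nat.find_spec hex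
    exact ⟨x, h1, h2, h3.trans (by exact_mod_cast h)⟩
  · obtain ⟨x, h1, h2, h3⟩ := Nat.find_spec hex
    obtain ⟨k, hk⟩ := ENat.ne_top_iff_exists.1 (ne_top_of_le_ne_top (ENat.natCast_ne_top _) h3)
    refine ⟨x, h1, h2, le_antisymm h3 ?_⟩
    rw [← hk]
    exact_mod_cast Nat.find_min' hex ⟨x, h1, h2, hk.symm.le⟩

theorem Dn_mono {a b a1 b1 : P} (h1 : a ≤ a1) (h2 : b1 ≤ b) {n : ℕ} (h : Dn l a1 b1 n) :
    Dn l a b n := by
  obtain ⟨x, hx1, hx2, hx3⟩ := h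
  exact ⟨x, lt_of_le_of_lt h1 hx1, lt_of_lt_of_le hx2 h2, hx3⟩

/-- an element with a given label (at least `k`) between two comparable elements, when the interval
contains an element of label `k` -/
theorem exists_label (hQ : LabAx Q l') {m : ℕ∞}
    (htop : m = ⊤ → ∀ a b : Q, a < b → ∃ d, a < d ∧ d < b ∧ l' d = ⊤) {a b x : Q} (hax : a < x)
    (hxb : x < b) (hx : l' x ≤ m) (_hxt : l' x ≠ ⊤) : ∃ d, a < d ∧ d < b ∧ l' d = m := by
  by_cases hm : m = ⊤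
  · subst hm
    exact htop rfl a b (hax.trans hxb)
  · obtain ⟨k, hk⟩ := ENat.ne_top_iff_exists.1 hm
    subst hk
    exact hQ.up a b x hax hxb k hx

theorem one_step (hP : LabAx P l) (hQ : LabAx Q l')
    (htop : (∀ p, l p ≠ ⊤) ↔ (∀ q, l' q ≠ ⊤)) {a b c : P} {a' b' : Q} (hac : a < c) (hcb : c < b)
    (hab' : a' < b') (hla : l' a' = l a) (hlb : l' b' = l b)
    (hD : ∀ n, Dn l a b n ↔ Dn l' a' b' n) :
    ∃ c', a' < c' ∧ c' < b' ∧ l' c' = l c ∧ (∀ n, Dn l a c n ↔ Dn l' a' c' n) ∧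
      (∀ n, Dn l c b n ↔ Dn l' c' b' n) := by
  obtain ⟨m1, hm1, x1, hx1, hx1', hx1l⟩ := exists_mu hP hac
  obtain ⟨m2, hm2, x2, hx2, hx2', hx2l⟩ := exists_mu hP hcb
  obtain ⟨m, hm, y, hy, hy', hyl⟩ := exists_mu hQ hab'
  have hmm : ∀ n, m ≤ n ↔ (m1 ≤ n ∨ m2 ≤ n) := by
    intro n
    rw [← hm n, ← hD n, Dn_split hP hac hcb n, hm1, hm2]
  have hmin : m ≤ m1 ∧ m ≤ m2 ∧ (m = m1 ∨ m = m2) := by
    have h1 := (hmm m1).2 (Or.inl le_rfl)
    have h2 := (hmm m2).2 (Or.inr le_rfl)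
    refine ⟨h1, h2, ?_⟩
    rcases (hmm m).1 le_rfl with h | h
    · exact Or.inl (le_antisymm h1 h)
    · exact Or.inr (le_antisymm h2 h)
  have htop' : l c = ⊤ → ∀ a b : Q, a < b → ∃ d, a < d ∧ d < b ∧ l' d = ⊤ := by
    intro hc
    rcases hQ.top with h | h
    · exact absurd hc (htop.2 h c)
    · exact h
  -- labels and minima
  have hm1c : (m1 : ℕ∞) ≤ l c := by
    by_cases hc : l c = ⊤
    · rw [hc]; exact le_top
    · obtain ⟨k, hk⟩ := ENat.ne_top_iff_exists.1 hc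
      obtain ⟨z, hz1, hz2, hz3⟩ := hP.accL a c hac hc
      rw [← hk]
      exact_mod_cast (hm1 k).1 ⟨z, hz1, hz2, by rw [hz3, ← hk]⟩
  have hm2c : (m2 : ℕ∞) ≤ l c := by
    by_cases hc : l c = ⊤
    · rw [hc]; exact le_top
    · obtain ⟨k, hk⟩ := ENat.ne_top_iff_exists.1 hc
      obtain ⟨z, hz1, hz2, hz3⟩ := hP.accR c b hcb hc
      rw [← hk]
      exact_mod_cast (hm2 k).1 ⟨z, hz1, hz2, by rw [hz3, ← hk]⟩
  have hm1a : (m1 : ℕ∞) ≤ l a := by
    by_cases hc : l a = ⊤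
    · rw [hc]; exact le_top
    · obtain ⟨k, hk⟩ := ENat.ne_top_iff_exists.1 hc
      obtain ⟨z, hz1, hz2, hz3⟩ := hP.accR a c hac hc
      rw [← hk]
      exact_mod_cast (hm1 k).1 ⟨z, hz1, hz2, by rw [hz3, ← hk]⟩
  have hm2b : (m2 : ℕ∞) ≤ l b := by
    by_cases hc : l b = ⊤
    · rw [hc]; exact le_top
    · obtain ⟨k, hk⟩ := ENat.ne_top_iff_exists.1 hc
      obtain ⟨z, hz1, hz2, hz3⟩ := hP.accL c b hcb hc
      rw [← hk]
      exact_mod_cast (hm2 k).1 ⟨z, hz1, hz2, by rw [hz3, ← hk]⟩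
  by_cases hcase : m1 = m2
  · -- equal minima
    have hmm1 : m = m1 := by rcases hmin.2.2 with h | h <;> omega
    have hyt : l' y ≠ ⊤ := by rw [hyl]; exact ENat.natCast_ne_top m
    obtain ⟨e2, he2, he2', he2l⟩ := hQ.accR y b' hy' hyt
    obtain ⟨x, hx, hx', hxl⟩ := hQ.accR y e2 he2 hyt
    have hxm : l' x ≤ l c := by rw [hxl, hyl, hmm1]; exact hm1c
    obtain ⟨c', hc1, hc2, hc3⟩ := exists_label hQ htop' hx hx' hxm (by rw [hxl]; exact hyt)
    refine ⟨c', hy.trans hc1, hc2.trans he2', hc3, ?_, ?_⟩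
    · intro n
      rw [hm1 n]
      constructor
      · intro h
        exact ⟨y, hy, hc1, by rw [hyl, hmm1]; exact_mod_cast h⟩
      · intro h
        have := (hm n).1 (Dn_mono le_rfl (hc2.trans he2').le h)
        omega
    · intro n
      rw [hm2 n]
      constructor
      · intro h
        exact ⟨e2, hc2, he2', by rw [he2l, hyl]; exact_mod_cast (by omega : m ≤ n)⟩
      · intro h
        have := (hm n).1 (Dn_mono (hy.trans hc1).le le_rfl h)
        omega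
  rcases lt_or_gt_of_ne hcase with hlt | hlt
  · -- m1 < m2
    have hmm1 : m = m1 := by rcases hmin.2.2 with h | h <;> omega
    obtain ⟨n0, hn0⟩ : ∃ n0, m2 = n0 + 1 := ⟨m2 - 1, by omega⟩
    have hnb : (n0 : ℕ∞) < l' b' := by
      rw [hlb]
      exact lt_of_lt_of_le (by exact_mod_cast (by omega : n0 < m2)) hm2b
    obtain ⟨e, he1, he2, hel, hex⟩ := hQ.gapR a' b' hab' n0 hnb
      ⟨y, hy, hy', by rw [hyl]; exact_mod_cast (by omega : m ≤ n0)⟩
    have hel' : l' e = (m2 : ℕ∞) := by rw [hel, hn0]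
    have het : l' e ≠ ⊤ := by rw [hel']; exact ENat.natCast_ne_top m2
    obtain ⟨e2, hf1, hf2, hfl⟩ := hQ.accR e b' he2 het
    obtain ⟨x, hx, hx', hxl⟩ := hQ.accR e e2 hf1 het
    have hxm : l' x ≤ l c := by rw [hxl, hel']; exact hm2c
    obtain ⟨c', hc1, hc2, hc3⟩ := exists_label hQ htop' hx hx' hxm (by rw [hxl]; exact het)
    have hye : y < e := by
      rcases lt_trichotomy y e with h | h | h
      · exact h
      · exfalso
        rw [h, hel'] at hyl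
        have : m2 = m := by exact_mod_cast hyl
        omega
      · exfalso
        have := hex y h hy'
        rw [hyl] at this
        have : n0 < m := by exact_mod_cast this
        omega
    refine ⟨c', he1.trans hc1, hc2.trans hf2, hc3, ?_, ?_⟩
    · intro n
      rw [hm1 n]
      constructor
      · intro h
        exact ⟨y, hy, hye.trans hc1, by rw [hyl, hmm1]; exact_mod_cast h⟩
      · intro h
        have := (hm n).1 (Dn_mono le_rfl (hc2.trans hf2).le h)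
        omega
    · intro n
      rw [hm2 n]
      constructor
      · intro h
        exact ⟨e2, hc2, hf2, by rw [hfl, hel']; exact_mod_cast h⟩
      · rintro ⟨z, hz1, hz2, hz3⟩
        have h5 := hex z (hc1.trans hz1) hz2
        have : n0 < n := by exact_mod_cast lt_of_lt_of_le h5 hz3
        omega
  · -- m2 < m1
    have hmm2 : m = m2 := by rcases hmin.2.2 with h | h <;> omega
    obtain ⟨n0, hn0⟩ : ∃ n0, m1 = n0 + 1 := ⟨m1 - 1, by omega⟩
    have hna : (n0 : ℕ∞) < l' a' := by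
      rw [hla]
      exact lt_of_lt_of_le (by exact_mod_cast (by omega : n0 < m1)) hm1a
    obtain ⟨e, he1, he2, hel, hex⟩ := hQ.gapL a' b' hab' n0 hna
      ⟨y, hy, hy', by rw [hyl]; exact_mod_cast (by omega : m ≤ n0)⟩
    have hel' : l' e = (m1 : ℕ∞) := by rw [hel, hn0]
    have het : l' e ≠ ⊤ := by rw [hel']; exact ENat.natCast_ne_top m1
    obtain ⟨e2, hf1, hf2, hfl⟩ := hQ.accL a' e he1 het
    obtain ⟨x, hx, hx', hxl⟩ := hQ.accL e2 e hf2 het
    have hxm : l' x ≤ l c := by rw [hxl, hel']; exact hm1c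
    obtain ⟨c', hc1, hc2, hc3⟩ := exists_label hQ htop' hx hx' hxm (by rw [hxl]; exact het)
    have hye : e < y := by
      rcases lt_trichotomy y e with h | h | h
      · exfalso
        have := hex y hy h
        rw [hyl] at this
        have : n0 < m := by exact_mod_cast this
        omega
      · exfalso
        rw [h, hel'] at hyl
        have : m1 = m := by exact_mod_cast hyl
        omega
      · exact h
    refine ⟨c', hf1.trans hc1, hc2.trans he2, hc3, ?_, ?_⟩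
    · intro n
      rw [hm1 n]
      constructor
      · intro h
        exact ⟨e2, hf1, hc1, by rw [hfl, hel']; exact_mod_cast h⟩
      · rintro ⟨z, hz1, hz2, hz3⟩
        have h5 := hex z hz1 (hz2.trans hc2)
        have : n0 < n := by exact_mod_cast lt_of_lt_of_le h5 hz3
        omega
    · intro n
      rw [hm2 n]
      constructor
      · intro h
        exact ⟨y, hc2.trans hye, hy', by rw [hyl, hmm2]; exact_mod_cast h⟩
      · intro h
        have := (hm n).1 (Dn_mono (hf1.trans hc1).le le_rfl h)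
        omega

/-- compatibility of two pairs -/
def Comp (l : P → ℕ∞) (l' : Q → ℕ∞) (p q : P × Q) : Prop :=
  cmp p.1 q.1 = cmp p.2 q.2 ∧ (p.1 < q.1 → ∀ n, Dn l p.1 q.1 n ↔ Dn l' p.2 q.2 n)

/-- partial isomorphisms -/
def PIso (l : P → ℕ∞) (l' : Q → ℕ∞) : Type :=
  {f : Finset (P × Q) // (∀ p ∈ f, l' p.2 = l p.1) ∧ ∀ p ∈ f, ∀ q ∈ f, Comp l l' p q}

instance : Preorder (PIso l l') := Subtype.preorder _

theorem cmp_lt {p q : P × Q} (h : Comp l l' p q) : p.1 < q.1 ↔ p.2 < q.2 := by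
  rw [← cmp_eq_lt_iff, ← cmp_eq_lt_iff, h.1]

theorem comp_self (p : P × Q) : Comp l l' p p := by
  refine ⟨by simp, fun h => absurd h (lt_irrefl _)⟩

/-- insertion of a compatible pair -/
theorem insert_ok [DecidableEq (P × Q)] {f : Finset (P × Q)}
    (hf : (∀ p ∈ f, l' p.2 = l p.1) ∧ ∀ p ∈ f, ∀ q ∈ f, Comp l l' p q) {r : P × Q}
    (hr : l' r.2 = l r.1) (hc : ∀ p ∈ f, Comp l l' p r ∧ Comp l l' r p) :
    (∀ p ∈ insert r f, l' p.2 = l p.1) ∧ ∀ p ∈ insert r f, ∀ q ∈ insert r f, Comp l l' p q := by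
  refine ⟨?_, ?_⟩
  · intro p hp
    rcases Finset.mem_insert.1 hp with h1 | h1
    · rw [h1]; exact hr
    · exact hf.1 p h1
  · intro p hp q hq
    rcases Finset.mem_insert.1 hp with h1 | h1 <;> rcases Finset.mem_insert.1 hq with h2 | h2
    · rw [h1, h2]; exact comp_self _
    · rw [h1]; exact (hc q h2).2
    · rw [h2]; exact (hc p h1).1
    · exact hf.2 p h1 q h2

theorem comp_of_lt {p r : P × Q} (h1 : p.1 < r.1) (h2 : p.2 < r.2)
    (h3 : ∀ n, Dn l p.1 r.1 n ↔ Dn l' p.2 r.2 n) : Comp l l' p r ∧ Comp l l' r p := by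
  refine ⟨⟨?_, fun _ => h3⟩, ⟨?_, fun h => absurd h (not_lt.2 h1.le)⟩⟩
  · rw [(cmp_eq_lt_iff _ _).2 h1, (cmp_eq_lt_iff _ _).2 h2]
  · rw [(cmp_eq_gt_iff _ _).2 h1, (cmp_eq_gt_iff _ _).2 h2]

/-- add an element above everything -/
theorem extend_high (hP : LabAx P l) (hQ : LabAx Q l') [Nonempty P] [Nonempty Q]
    (f : PIso l l') (c : P) : ∃ g : PIso l l', f ≤ g ∧ ∃ p ∈ g.1, c < p.1 := by
  classical
  obtain ⟨M, hM⟩ : ∃ M : P, c ≤ M ∧ ∀ p ∈ f.1, p.1 ≤ M := by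
    obtain ⟨M, hM⟩ := (insert c (f.1.image Prod.fst)).exists_le
    exact ⟨M, hM c (by simp), fun p hp => hM p.1 (by
      simp only [Finset.mem_insert, Finset.mem_image]
      exact Or.inr ⟨p, hp, rfl⟩)⟩
  obtain ⟨M', hM'⟩ : ∃ M : Q, ∀ p ∈ f.1, p.2 ≤ M := by
    obtain ⟨M, hM⟩ := (f.1.image Prod.snd).exists_le
    exact ⟨M, fun p hp => hM p.2 (Finset.mem_image.2 ⟨p, hp, rfl⟩)⟩
  obtain ⟨h, hh, hhl⟩ := hP.high0 M
  obtain ⟨h', hh', hhl'⟩ := hQ.high0 M'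
  refine ⟨⟨insert (h, h') f.1, insert_ok f.2 (by simp [hhl, hhl']) ?_⟩,
    Finset.subset_insert _ _, (h, h'), Finset.mem_insert_self _ _, lt_of_le_of_lt hM.1 hh⟩
  intro p hp
  have h1 : p.1 < h := lt_of_le_of_lt (hM.2 p hp) hh
  have h2 : p.2 < h' := lt_of_le_of_lt (hM' p hp) hh'
  refine comp_of_lt h1 h2 ?_
  intro n
  refine iff_of_true ?_ ?_
  · obtain ⟨z, hz1, hz2, hz3⟩ := hP.accL p.1 h h1 (by rw [hhl]; exact ENat.natCast_ne_top 0)
    exact ⟨z, hz1, hz2, by rw [hz3, hhl]; exact zero_le⟩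
  · obtain ⟨z, hz1, hz2, hz3⟩ := hQ.accL p.2 h' h2 (by rw [hhl']; exact ENat.natCast_ne_top 0)
    exact ⟨z, hz1, hz2, by rw [hz3, hhl']; exact zero_le⟩

/-- add an element below everything -/
theorem extend_low (hP : LabAx P l) (hQ : LabAx Q l') [Nonempty P] [Nonempty Q]
    (f : PIso l l') (c : P) : ∃ g : PIso l l', f ≤ g ∧ ∃ p ∈ g.1, p.1 < c := by
  classical
  obtain ⟨M, hM⟩ : ∃ M : P, M ≤ c ∧ ∀ p ∈ f.1, M ≤ p.1 := by
    obtain ⟨M, hM⟩ := Finset.exists_le (α := Pᵒᵈ) (insert c (f.1.image Prod.fst) : Finset P)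
    exact ⟨M, hM c (Finset.mem_insert_self _ _), fun p hp => hM p.1
      (Finset.mem_insert_of_mem (Finset.mem_image.2 ⟨p, hp, rfl⟩))⟩
  obtain ⟨M', hM'⟩ : ∃ M : Q, ∀ p ∈ f.1, M ≤ p.2 := by
    obtain ⟨M, hM⟩ := Finset.exists_le (α := Qᵒᵈ) (f.1.image Prod.snd : Finset Q)
    exact ⟨M, fun p hp => hM p.2 (Finset.mem_image.2 ⟨p, hp, rfl⟩)⟩
  obtain ⟨h, hh, hhl⟩ := hP.low0 M
  obtain ⟨h', hh', hhl'⟩ := hQ.low0 M'
  refine ⟨⟨insert (h, h') f.1, insert_ok f.2 (by simp [hhl, hhl']) ?_⟩,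
    Finset.subset_insert _ _, (h, h'), Finset.mem_insert_self _ _, lt_of_lt_of_le hh hM.1⟩
  intro p hp
  have h1 : h < p.1 := lt_of_lt_of_le hh (hM.2 p hp)
  have h2 : h' < p.2 := lt_of_lt_of_le hh' (hM' p hp)
  refine (comp_of_lt (p := (h, h')) (r := p) h1 h2 ?_).symm
  intro n
  refine iff_of_true ?_ ?_
  · obtain ⟨z, hz1, hz2, hz3⟩ := hP.accR h p.1 h1 (by rw [hhl]; exact ENat.natCast_ne_top 0)
    exact ⟨z, hz1, hz2, by rw [hz3, hhl]; exact zero_le⟩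
  · obtain ⟨z, hz1, hz2, hz3⟩ := hQ.accR h' p.2 h2 (by rw [hhl']; exact ENat.natCast_ne_top 0)
    exact ⟨z, hz1, hz2, by rw [hz3, hhl']; exact zero_le⟩

/-- every partial isomorphism extends to a given element of `P` -/
theorem extend_left (hP : LabAx P l) (hQ : LabAx Q l') [Nonempty P] [Nonempty Q]
    (htop : (∀ p, l p ≠ ⊤) ↔ (∀ q, l' q ≠ ⊤)) (f : PIso l l') (c : P) :
    ∃ g : PIso l l', f ≤ g ∧ ∃ q, (c, q) ∈ g.1 := by
  classical
  obtain ⟨f1, hf1, ph, hph, hphc⟩ := extend_high hP hQ f c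
  obtain ⟨f2, hf2, pl, hpl, hplc⟩ := extend_low hP hQ f1 c
  by_cases hex : ∃ q, (c, q) ∈ f2.1
  · exact ⟨f2, hf1.trans hf2, hex⟩
  have hne1 : (f2.1.filter (fun p => p.1 < c)).Nonempty :=
    ⟨pl, Finset.mem_filter.2 ⟨hpl, hplc⟩⟩
  have hne2 : (f2.1.filter (fun p => c < p.1)).Nonempty :=
    ⟨ph, Finset.mem_filter.2 ⟨hf2 hph, hphc⟩⟩
  obtain ⟨a, ha, hamax⟩ := Finset.exists_max_image _ (fun p : P × Q => p.1) hne1
  obtain ⟨b, hb, hbmin⟩ := Finset.exists_min_image _ (fun p : P × Q => p.1) hne2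
  obtain ⟨haf, hac⟩ := Finset.mem_filter.1 ha
  obtain ⟨hbf, hcb⟩ := Finset.mem_filter.1 hb
  have hab := hac.trans hcb
  have hcab := f2.2.2 a haf b hbf
  obtain ⟨c', hc1, hc2, hc3, hc4, hc5⟩ := one_step hP hQ htop hac hcb ((cmp_lt hcab).1 hab)
    (f2.2.1 a haf) (f2.2.1 b hbf) (hcab.2 hab)
  refine ⟨⟨insert (c, c') f2.1, insert_ok f2.2 hc3 ?_⟩,
    (hf1.trans hf2).trans (Finset.subset_insert _ _), c', Finset.mem_insert_self _ _⟩
  intro p hp
  rcases lt_trichotomy p.1 c with h | h | h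
  · have hpa : p.1 ≤ a.1 := hamax p (Finset.mem_filter.2 ⟨hp, h⟩)
    rcases eq_or_lt_of_le hpa with he | hlt
    · have hpa2 : p.2 = a.2 := by
        have h6 := (f2.2.2 p hp a haf).1
        rw [(cmp_eq_eq_iff _ _).2 he] at h6
        exact (cmp_eq_eq_iff _ _).1 h6.symm
      refine comp_of_lt (r := (c, c')) h (by rw [hpa2]; exact hc1) ?_
      rw [he, hpa2]; exact hc4
    · have h6 := f2.2.2 p hp a haf
      have h7 := (cmp_lt h6).1 hlt
      refine comp_of_lt (r := (c, c')) h (h7.trans hc1) ?_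
      intro n
      rw [Dn_split hP hlt hac n, Dn_split hQ h7 hc1 n, h6.2 hlt n, hc4 n]
  · exact absurd ⟨p.2, by rw [← h]; exact hp⟩ hex
  · have hpb : b.1 ≤ p.1 := hbmin p (Finset.mem_filter.2 ⟨hp, h⟩)
    rcases eq_or_lt_of_le hpb with he | hlt
    · have hpb2 : b.2 = p.2 := by
        have h6 := (f2.2.2 b hbf p hp).1
        rw [(cmp_eq_eq_iff _ _).2 he] at h6
        exact (cmp_eq_eq_iff _ _).1 h6.symm
      refine (comp_of_lt (p := (c, c')) (r := p) h (by rw [← hpb2]; exact hc2) ?_).symm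
      rw [← he, ← hpb2]; exact hc5
    · have h6 := f2.2.2 b hbf p hp
      have h7 := (cmp_lt h6).1 hlt
      refine (comp_of_lt (p := (c, c')) (r := p) h (hc2.trans h7) ?_).symm
      intro n
      rw [Dn_split hP hcb hlt n, Dn_split hQ hc2 h7 n, h6.2 hlt n, hc5 n]

/-- swapping a partial isomorphism -/
theorem comm_ok [DecidableEq (Q × P)] {f : Finset (P × Q)}
    (hf : (∀ p ∈ f, l' p.2 = l p.1) ∧ ∀ p ∈ f, ∀ q ∈ f, Comp l l' p q) :
    (∀ p ∈ f.image Prod.swap, l p.2 = l' p.1) ∧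
      ∀ p ∈ f.image Prod.swap, ∀ q ∈ f.image Prod.swap, Comp l' l p q := by
  constructor
  · intro p hp
    obtain ⟨q, hq, rfl⟩ := Finset.mem_image.1 hp
    exact (hf.1 q hq).symm
  · intro p hp q hq
    obtain ⟨p1, hp1, rfl⟩ := Finset.mem_image.1 hp
    obtain ⟨q1, hq1, rfl⟩ := Finset.mem_image.1 hq
    have h := hf.2 p1 hp1 q1 hq1
    refine ⟨h.1.symm, fun hlt n => ?_⟩
    exact (h.2 ((cmp_lt h).2 hlt) n).symm

theorem extend_right (hP : LabAx P l) (hQ : LabAx Q l') [Nonempty P] [Nonempty Q]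
    (htop : (∀ p, l p ≠ ⊤) ↔ (∀ q, l' q ≠ ⊤)) (f : PIso l l') (c : Q) :
    ∃ g : PIso l l', f ≤ g ∧ ∃ q, (q, c) ∈ g.1 := by
  classical
  obtain ⟨g, hg, q, hq⟩ := extend_left hQ hP htop.symm ⟨_, comm_ok f.2⟩ c
  refine ⟨⟨g.1.image Prod.swap, comm_ok g.2⟩, ?_, q, Finset.mem_image.2 ⟨_, hq, rfl⟩⟩
  intro p hp
  refine Finset.mem_image.2 ⟨p.swap, hg (Finset.mem_image.2 ⟨p, hp, rfl⟩), by simp⟩

def leftCof (hP : LabAx P l) (hQ : LabAx Q l') [Nonempty P] [Nonempty Q]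
    (htop : (∀ p, l p ≠ ⊤) ↔ (∀ q, l' q ≠ ⊤)) (c : P) : Order.Cofinal (PIso l l') where
  carrier := {g | ∃ q, (c, q) ∈ g.1}
  isCofinal f := by
    obtain ⟨g, h1, h2⟩ := extend_left hP hQ htop f c
    exact ⟨g, h2, h1⟩

def rightCof (hP : LabAx P l) (hQ : LabAx Q l') [Nonempty P] [Nonempty Q]
    (htop : (∀ p, l p ≠ ⊤) ↔ (∀ q, l' q ≠ ⊤)) (c : Q) : Order.Cofinal (PIso l l') where
  carrier := {g | ∃ q, (q, c) ∈ g.1}
  isCofinal f := by
    obtain ⟨g, h1, h2⟩ := extend_right hP hQ htop f c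
    exact ⟨g, h2, h1⟩

end Pool.Agent.R270.WF.M4

namespace Pool.Agent.R270.WF
open Set M4

theorem stmM4 : StmM4 := by
  intro P Q _ _ _ _ _ _ l l' hP hQ htop
  classical
  obtain ⟨_⟩ := nonempty_encodable P
  obtain ⟨_⟩ := nonempty_encodable Q
  let tc : P ⊕ Q → Order.Cofinal (PIso l l') := fun p =>
    Sum.recOn p (leftCof hP hQ htop) (rightCof hP hQ htop)
  let start : PIso l l' := ⟨∅, by simp, by simp⟩
  let I : Order.Ideal (PIso l l') := Order.idealOfCofinals start tc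
  have hF : ∀ a : P, ∃ b : Q, ∃ f ∈ I, (a, b) ∈ f.1 := by
    intro a
    obtain ⟨f, ⟨b, hb⟩, hf⟩ := Order.cofinal_meets_idealOfCofinals start tc (Sum.inl a)
    exact ⟨b, f, hf, hb⟩
  have hG : ∀ b : Q, ∃ a : P, ∃ f ∈ I, (a, b) ∈ f.1 := by
    intro b
    obtain ⟨f, ⟨a, ha⟩, hf⟩ := Order.cofinal_meets_idealOfCofinals start tc (Sum.inr b)
    exact ⟨a, f, hf, ha⟩
  choose F hF using hF
  choose G hG using hG
  refine ⟨OrderIso.ofCmpEqCmp F G ?_, ?_⟩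
  · intro a b
    obtain ⟨f, hf, ha⟩ := hF a
    obtain ⟨g, hg, hb⟩ := hG b
    obtain ⟨m, _, fm, gm⟩ := I.directed _ hf _ hg
    exact (m.2.2 (a, _) (fm ha) (_, b) (gm hb)).1
  · intro p
    obtain ⟨f, _, ha⟩ := hF p
    exact f.2.1 _ ha

end Pool.Agent.R270.WF
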