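import Pool.Agent.R270.WF.Stm

/-! Project WF, module M5: the gaps with the labels of a normalised exhaustion satisfy the axioms. -/

namespace Pool.Agent.R270.WF
open Set

namespace M5

variable {X J : Set ℝ} {D : ℕ → Set (ℝ × ℝ)}

theorem gp_fst_lt (U : Gp X J) : U.1.1 < U.1.2 := by
  rcases U.2.2 with h | h
  · exact h.1
  · exact h.1

theorem gp_sub (U : Gp X J) : Icc U.1.1 U.1.2 ⊆ J := U.2.1

theorem mem_J1 (U : Gp X J) : U.1.1 ∈ J := gp_sub U ⟨le_rfl, (gp_fst_lt U).le⟩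

theorem mem_J2 (U : Gp X J) : U.1.2 ∈ J := gp_sub U ⟨(gp_fst_lt U).le, le_rfl⟩

/-- different gaps are disjoint, with a gap in between -/
theorem sep {U V : Gp X J} (h : U < V) : U.1.2 < V.1.1 := by
  have h' : U.1.1 < V.1.1 := h
  by_contra hle
  push Not at hle
  have hU := gp_fst_lt U
  have hV := gp_fst_lt V
  rcases U.2.2 with hu | hu <;> rcases V.2.2 with hv | hv
  · obtain ⟨y, hy, hyX⟩ := hv.2.2.1 (V.1.1 - U.1.1) (by linarith)
    exact hyX (hu.2.1 ⟨by linarith [hy.1], by linarith [hy.2]⟩)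
  · exact hv.2.1 ⟨le_rfl, hV.le⟩ (hu.2.1 ⟨h'.le, hle⟩)
  · exact hu.2.1 ⟨h'.le, hle⟩ (hv.2.1 ⟨le_rfl, hV.le⟩)
  · obtain ⟨y, hy, hyX⟩ := hv.2.2.1 (V.1.1 - U.1.1) (by linarith)
    exact hyX (hu.2.1 ⟨by linarith [hy.1], by linarith [hy.2]⟩)

theorem mix (hPI : PI X) {U V : Gp X J} (h : U < V) : Mix X U.1.2 V.1.1 := by
  have hs := sep h
  have hU := gp_fst_lt U
  have hV := gp_fst_lt V
  have c1 : (∃ x ∈ Ioo U.1.2 V.1.1, x ∈ X) ∨ Ioo U.1.2 V.1.1 ⊆ Xᶜ := by
    by_cases hc : ∃ x ∈ Ioo U.1.2 V.1.1, x ∈ X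
    · exact Or.inl hc
    · push Not at hc; exact Or.inr hc
  have c2 : (∃ x ∈ Ioo U.1.2 V.1.1, x ∉ X) ∨ Ioo U.1.2 V.1.1 ⊆ X := by
    by_cases hc : ∃ x ∈ Ioo U.1.2 V.1.1, x ∉ X
    · exact Or.inl hc
    · push Not at hc; exact Or.inr hc
  rcases U.2.2 with hu | hu
  · -- `U` red
    have n : ∃ x ∈ Ioo U.1.2 V.1.1, x ∉ X := by
      obtain ⟨y, hy, hyX⟩ := hu.2.2.2 (V.1.1 - U.1.2) (by linarith)
      exact ⟨y, ⟨hy.1, by linarith [hy.2]⟩, hyX⟩
    refine ⟨?_, n⟩
    rcases c1 with c1 | c1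
    · exact c1
    · exfalso
      exact (hPI _ _ hs).2 c1 ⟨le_rfl, hs.le⟩ (hu.2.1 ⟨hU.le, le_rfl⟩)
  · have n : ∃ x ∈ Ioo U.1.2 V.1.1, x ∈ X := by
      obtain ⟨y, hy, hyX⟩ := hu.2.2.2 (V.1.1 - U.1.2) (by linarith)
      exact ⟨y, ⟨hy.1, by linarith [hy.2]⟩, not_not.1 hyX⟩
    refine ⟨n, ?_⟩
    rcases c2 with c2 | c2
    · exact c2
    · exfalso
      exact (hu.2.1 ⟨hU.le, le_rfl⟩) ((hPI _ _ hs).1 c2 ⟨le_rfl, hs.le⟩)

theorem mem_cov {E : Set (ℝ × ℝ)} {U : ℝ × ℝ} (hU : U ∈ E) {x : ℝ} (hx : x ∈ Icc U.1 U.2) :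
    x ∈ Cov E := subset_closure (mem_biUnion hU hx)

theorem mono' (hN : Norm X J D) {m n : ℕ} (h : m ≤ n) : D m ⊆ D n := by
  induction n, h using Nat.le_induction with
  | base => exact subset_rfl
  | succ n _ ih => exact ih.trans (hN.mono n)

theorem lab_le (hN : Norm X J D) (U : Gp X J) (n : ℕ) : lab D U ≤ n ↔ U.1 ∈ D n := by
  classical
  unfold lab
  split_ifs with h
  · rw [Nat.cast_le]
    constructor
    · intro h1
      exact mono' hN h1 (Nat.find_spec h)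
    · intro h1
      exact Nat.find_min' h h1
  · constructor
    · intro h1; simp at h1
    · intro h1; exact absurd ⟨n, h1⟩ h

theorem lab_lt (hN : Norm X J D) (U : Gp X J) (n : ℕ) : (n : ℕ∞) < lab D U ↔ U.1 ∉ D n := by
  rw [← lab_le hN, not_le]

theorem lab_succ (hN : Norm X J D) (U : Gp X J) (n : ℕ) (h1 : U.1 ∈ D (n + 1)) (h2 : U.1 ∉ D n) :
    lab D U = ((n + 1 : ℕ) : ℕ∞) := by
  apply le_antisymm
  · exact (lab_le hN U (n + 1)).2 h1
  · have := (lab_lt hN U n).2 h2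
    have h3 := Order.add_one_le_of_lt this
    push_cast
    exact h3

theorem lab_eq (hN : Norm X J D) (U : Gp X J) (n : ℕ) (h1 : U.1 ∈ D n)
    (h2 : ∀ m < n, U.1 ∉ D m) : lab D U = (n : ℕ∞) := by
  cases n with
  | zero =>
    have := (lab_le hN U 0).2 h1
    simpa using this
  | succ n => exact lab_succ hN U n h1 (h2 n (Nat.lt_succ_self n))

theorem red_of_lab (hN : Norm X J D) (U : Gp X J) (h : lab D U ≠ ⊤) : Gap X U.1 := by
  obtain ⟨n, hn⟩ := ENat.ne_top_iff_exists.1 h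
  have := (lab_le hN U n).1 hn.ge
  exact (hN.gap n _ this).1

theorem lab_of_red (hN : Norm X J D) (U : Gp X J) (h : Gap X U.1) : lab D U ≠ ⊤ := by
  obtain ⟨n, hn⟩ := hN.all _ h U.2.1
  have := (lab_le hN U n).2 hn
  exact ne_top_of_le_ne_top (ENat.natCast_ne_top n) this

/-- a point of a gap of label `> n` is not in `Cov (D n)` -/
theorem not_cov (hN : Norm X J D) (U : Gp X J) (n : ℕ) (h : (n : ℕ∞) < lab D U) {x : ℝ}
    (hx : x ∈ Icc U.1.1 U.1.2) : x ∉ Cov (D n) := by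
  intro hc
  rw [lab_lt hN] at h
  rcases U.2.2 with hu | hu
  · exact h (hN.sat n _ hu U.2.1 ⟨x, hx, hc⟩)
  · exact hu.2.1 hx (hN.sub n ⟨hc, U.2.1 hx⟩)

theorem mk_gp (hN : Norm X J D) {n : ℕ} {V : ℝ × ℝ} (hV : V ∈ D n) : ∃ U : Gp X J, U.1 = V :=
  ⟨⟨V, (hN.gap n V hV).2, Or.inl (hN.gap n V hV).1⟩, rfl⟩

theorem mk_between (hE : EndJ X J) {a b : Gp X J} {V : ℝ × ℝ}
    (h1 : a.1.2 < V.1) (h2 : V.2 < b.1.1) (hV : Gap X V ∨ Gap Xᶜ V) : ∃ U : Gp X J, U.1 = V := by
  refine ⟨⟨V, ?_, hV⟩, rfl⟩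
  refine Subset.trans ?_ (hE.conn.out (mem_J2 a) (mem_J1 b))
  exact Icc_subset_Icc h1.le h2.le

end M5

open M5 in
theorem stmM5 : StmM5 := by
  intro X J D hPI hGood hE hN hB
  have hdens : ∀ a b : Gp X J, a < b → ∃ c : Gp X J, a < c ∧ c < b ∧ Gap X c.1 := by
    intro a b hab
    obtain ⟨E, ⟨V, hV⟩, hE1, hE2, -, -⟩ := hGood _ _ (mix hPI hab)
    have hg := hE1 V hV
    have h1 : V.1 ∈ Ioo a.1.2 b.1.1 := (hE2 (mem_cov hV ⟨le_rfl, hg.1.le⟩)).2
    have h2 : V.2 ∈ Ioo a.1.2 b.1.1 := (hE2 (mem_cov hV ⟨hg.1.le, le_rfl⟩)).2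
    obtain ⟨U, hU⟩ := mk_between hE h1.1 h2.2 (Or.inl hg)
    refine ⟨U, ?_, ?_, by rw [hU]; exact hg⟩
    · show a.1.1 < U.1.1
      rw [hU]; exact (gp_fst_lt a).trans h1.1
    · show U.1.1 < b.1.1
      rw [hU]; exact h1.2
  refine ⟨?_, ?_, ?_⟩
  · constructor
    · -- low0
      intro b
      obtain ⟨V, hV, hVb⟩ := hN.lowL b.1.1 (mem_J1 b)
      obtain ⟨U, hU⟩ := mk_gp hN hV
      refine ⟨U, ?_, ?_⟩
      · show U.1.1 < b.1.1
        have := gp_fst_lt U
        rw [hU] at this ⊢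
        linarith
      · have := (lab_le hN U 0).2 (by rw [hU]; exact hV)
        simpa using this
    · -- high0
      intro a
      obtain ⟨V, hV, hVb⟩ := hN.lowR a.1.1 (mem_J1 a)
      obtain ⟨U, hU⟩ := mk_gp hN hV
      refine ⟨U, ?_, ?_⟩
      · show a.1.1 < U.1.1
        rw [hU]; exact hVb
      · have := (lab_le hN U 0).2 (by rw [hU]; exact hV)
        simpa using this
    · -- dens
      intro a b hab
      obtain ⟨c, h1, h2, h3⟩ := hdens a b hab
      exact ⟨c, h1, h2, lab_of_red hN c h3⟩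
    · -- accR
      intro a b hab ha
      obtain ⟨n, hn⟩ := ENat.ne_top_iff_exists.1 ha
      have haD : a.1 ∈ D n := (lab_le hN a n).1 hn.ge
      have hs := sep hab
      -- a radius avoiding the previous families
      obtain ⟨r, hr, hrad⟩ : ∃ r > 0, ∀ m < n, ∀ x, |x - a.1.2| < r → x ∉ Cov (D m) := by
        rcases Nat.eq_zero_or_pos n with h0 | h0
        · exact ⟨1, one_pos, fun m hm => absurd hm (by omega)⟩
        have hnot : a.1.2 ∉ Cov (D (n - 1)) := not_cov hN a (n - 1) (by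
          rw [← hn]; exact_mod_cast Nat.sub_lt h0 one_pos) ⟨(gp_fst_lt a).le, le_rfl⟩
        have hop : (Cov (D (n - 1)))ᶜ ∈ nhds a.1.2 := isClosed_closure.isOpen_compl.mem_nhds hnot
        obtain ⟨r, hr, hrs⟩ := Metric.mem_nhds_iff.1 hop
        refine ⟨r, hr, fun m hm x hx hxc => ?_⟩
        have h1 : x ∈ (Cov (D (n - 1)))ᶜ := hrs (by rw [Metric.mem_ball, Real.dist_eq]; exact hx)
        exact h1 (closure_mono (biUnion_subset_biUnion_left (mono' hN (by omega))) hxc)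
      obtain ⟨V, hV, hV1, hV2⟩ := (hN.acc n a.1 haD (min r (b.1.1 - a.1.2))
        (lt_min hr (by linarith))).2
      obtain ⟨U, hU⟩ := mk_gp hN hV
      have hUlt := gp_fst_lt U
      rw [hU] at hUlt
      have hm1 := min_le_left r (b.1.1 - a.1.2)
      have hm2 := min_le_right r (b.1.1 - a.1.2)
      refine ⟨U, ?_, ?_, ?_⟩
      · show a.1.1 < U.1.1
        rw [hU]; linarith [gp_fst_lt a]
      · show U.1.1 < b.1.1
        rw [hU]; linarith
      · rw [← hn]
        refine lab_eq hN U n (by rw [hU]; exact hV) fun m hm hUm => ?_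
        rw [hU] at hUm
        refine hrad m hm V.1 ?_ (mem_cov hUm ⟨le_rfl, hUlt.le⟩)
        rw [abs_lt]; constructor <;> linarith
    · -- accL
      intro a b hab hb
      obtain ⟨n, hn⟩ := ENat.ne_top_iff_exists.1 hb
      have hbD : b.1 ∈ D n := (lab_le hN b n).1 hn.ge
      have hs := sep hab
      obtain ⟨r, hr, hrad⟩ : ∃ r > 0, ∀ m < n, ∀ x, |x - b.1.1| < r → x ∉ Cov (D m) := by
        rcases Nat.eq_zero_or_pos n with h0 | h0
        · exact ⟨1, one_pos, fun m hm => absurd hm (by omega)⟩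
        have hnot : b.1.1 ∉ Cov (D (n - 1)) := not_cov hN b (n - 1) (by
          rw [← hn]; exact_mod_cast Nat.sub_lt h0 one_pos) ⟨le_rfl, (gp_fst_lt b).le⟩
        have hop : (Cov (D (n - 1)))ᶜ ∈ nhds b.1.1 := isClosed_closure.isOpen_compl.mem_nhds hnot
        obtain ⟨r, hr, hrs⟩ := Metric.mem_nhds_iff.1 hop
        refine ⟨r, hr, fun m hm x hx hxc => ?_⟩
        have h1 : x ∈ (Cov (D (n - 1)))ᶜ := hrs (by rw [Metric.mem_ball, Real.dist_eq]; exact hx)
        exact h1 (closure_mono (biUnion_subset_biUnion_left (mono' hN (by omega))) hxc)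
      obtain ⟨V, hV, hV1, hV2⟩ := (hN.acc n b.1 hbD (min r (b.1.1 - a.1.2))
        (lt_min hr (by linarith))).1
      obtain ⟨U, hU⟩ := mk_gp hN hV
      have hUlt := gp_fst_lt U
      rw [hU] at hUlt
      have hm1 := min_le_left r (b.1.1 - a.1.2)
      have hm2 := min_le_right r (b.1.1 - a.1.2)
      refine ⟨U, ?_, ?_, ?_⟩
      · show a.1.1 < U.1.1
        rw [hU]; linarith [gp_fst_lt a]
      · show U.1.1 < b.1.1
        rw [hU]; linarith
      · rw [← hn]
        refine lab_eq hN U n (by rw [hU]; exact hV) fun m hm hUm => ?_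
        rw [hU] at hUm
        refine hrad m hm V.1 ?_ (mem_cov hUm ⟨le_rfl, hUlt.le⟩)
        rw [abs_lt]; constructor <;> linarith
    · -- up
      intro a b c hac hcb m hm
      obtain ⟨k, hk⟩ := ENat.ne_top_iff_exists.1 (ne_top_of_le_ne_top (ENat.natCast_ne_top m) hm)
      rw [← hk, Nat.cast_le] at hm
      induction m, hm using Nat.le_induction with
      | base => exact ⟨c, hac, hcb, hk.symm⟩
      | succ j hj ih =>
        obtain ⟨d, had, hdb, hd⟩ := ih
        have hdD : d.1 ∈ D j := (lab_le hN d j).1 hd.le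
        obtain ⟨p, hp, hpX⟩ := (mix hPI hdb).2
        have hpJ : p ∈ J := hE.conn.out (mem_J2 d) (mem_J1 b) ⟨hp.1.le, hp.2.le⟩
        have hpc : p ∉ Cov (D j) := fun h => hpX (hN.sub j ⟨h, hpJ⟩)
        obtain ⟨V, hV, hVp, hdis⟩ := hN.fillL j p hpJ hpc
        obtain ⟨U, hU⟩ := mk_gp hN hV
        have hUlt := gp_fst_lt U
        rw [hU] at hUlt
        have h1 : d.1.2 < V.1 := by
          by_contra hle
          push Not at hle
          exact Set.disjoint_left.1 hdis ⟨hle, hp.1.le⟩ (mem_cov hdD ⟨(gp_fst_lt d).le, le_rfl⟩)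
        refine ⟨U, ?_, ?_, ?_⟩
        · show a.1.1 < U.1.1
          have : a.1.1 < d.1.1 := had
          rw [hU]; linarith [gp_fst_lt d]
        · show U.1.1 < b.1.1
          rw [hU]; linarith [hp.2]
        · refine lab_succ hN U j (by rw [hU]; exact hV) fun hUj => ?_
          rw [hU] at hUj
          exact Set.disjoint_left.1 hdis ⟨le_rfl, by linarith⟩ (mem_cov hUj ⟨le_rfl, hUlt.le⟩)
    · -- top
      rcases hB with hB | hB
      · left
        intro p
        rcases p.2.2 with hp | hp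
        · exact lab_of_red hN p hp
        · exact absurd hp (hB _ p.2.1)
      · right
        intro a b hab
        obtain ⟨V, hV, h1, h2⟩ := hB a.1.2 b.1.1 (hE.conn.out (mem_J2 a) (mem_J1 b)) (mix hPI hab)
        obtain ⟨U, hU⟩ := mk_between hE h1 h2 (Or.inr hV)
        have hUlt := gp_fst_lt U
        rw [hU] at hUlt
        refine ⟨U, ?_, ?_, ?_⟩
        · show a.1.1 < U.1.1
          rw [hU]; linarith [gp_fst_lt a]
        · show U.1.1 < b.1.1
          rw [hU]; linarith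
        · by_contra hne
          have hr := red_of_lab hN U hne
          rw [hU] at hr
          exact hV.2.1 ⟨le_rfl, hUlt.le⟩ (hr.2.1 ⟨le_rfl, hUlt.le⟩)
    · -- gapR
      rintro a b hab n hnb ⟨c, hac, hcb, hc⟩
      have hcD : c.1 ∈ D n := (lab_le hN c n).1 hc
      have hbc : b.1.1 ∉ Cov (D n) := not_cov hN b n hnb ⟨le_rfl, (gp_fst_lt b).le⟩
      obtain ⟨V, hV, hVb, hdis⟩ := hN.fillL n b.1.1 (mem_J1 b) hbc
      obtain ⟨U, hU⟩ := mk_gp hN hV
      have hUlt := gp_fst_lt U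
      rw [hU] at hUlt
      have hcb' : c.1.1 < b.1.1 := hcb
      have hac' : a.1.1 < c.1.1 := hac
      have h1 : c.1.1 < V.1 := by
        by_contra hle
        push Not at hle
        exact Set.disjoint_left.1 hdis ⟨hle, hcb'.le⟩ (mem_cov hcD ⟨le_rfl, (gp_fst_lt c).le⟩)
      refine ⟨U, ?_, ?_, ?_, ?_⟩
      · show a.1.1 < U.1.1
        rw [hU]; linarith
      · show U.1.1 < b.1.1
        rw [hU]; linarith
      · refine lab_succ hN U n (by rw [hU]; exact hV) fun hUj => ?_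
        rw [hU] at hUj
        exact Set.disjoint_left.1 hdis ⟨le_rfl, by linarith⟩ (mem_cov hUj ⟨le_rfl, hUlt.le⟩)
      · intro x hx1 hx2
        have hx1' : U.1.1 < x.1.1 := hx1
        have hx2' : x.1.1 < b.1.1 := hx2
        rw [hU] at hx1'
        rw [lab_lt hN]
        intro hxD
        exact Set.disjoint_left.1 hdis ⟨hx1'.le, hx2'.le⟩ (mem_cov hxD ⟨le_rfl, (gp_fst_lt x).le⟩)
    · -- gapL
      rintro a b hab n hna ⟨c, hac, hcb, hc⟩
      have hcD : c.1 ∈ D n := (lab_le hN c n).1 hc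
      have hbc : a.1.2 ∉ Cov (D n) := not_cov hN a n hna ⟨(gp_fst_lt a).le, le_rfl⟩
      obtain ⟨V, hV, hVb, hdis⟩ := hN.fillR n a.1.2 (mem_J2 a) hbc
      obtain ⟨U, hU⟩ := mk_gp hN hV
      have hUlt := gp_fst_lt U
      rw [hU] at hUlt
      have hcb' : c.1.1 < b.1.1 := hcb
      have hac' : a.1.2 < c.1.1 := sep hac
      have h1 : V.2 < c.1.1 := by
        by_contra hle
        push Not at hle
        exact Set.disjoint_left.1 hdis ⟨hac'.le, hle⟩ (mem_cov hcD ⟨le_rfl, (gp_fst_lt c).le⟩)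
      refine ⟨U, ?_, ?_, ?_, ?_⟩
      · show a.1.1 < U.1.1
        rw [hU]; linarith [gp_fst_lt a]
      · show U.1.1 < b.1.1
        rw [hU]; linarith
      · refine lab_succ hN U n (by rw [hU]; exact hV) fun hUj => ?_
        rw [hU] at hUj
        exact Set.disjoint_left.1 hdis ⟨hVb.le, hUlt.le⟩ (mem_cov hUj ⟨le_rfl, hUlt.le⟩)
      · intro x hx1 hx2
        have hx1' : a.1.2 < x.1.1 := sep hx1
        have hx2' : x.1.1 < U.1.1 := hx2
        rw [hU] at hx2'
        rw [lab_lt hN]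
        intro hxD
        exact Set.disjoint_left.1 hdis ⟨hx1'.le, by linarith⟩
          (mem_cov hxD ⟨le_rfl, (gp_fst_lt x).le⟩)
  · -- countable
    have hq : ∀ U : Gp X J, ∃ q : ℚ, U.1.1 < q ∧ (q : ℝ) < U.1.2 := fun U =>
      exists_rat_btwn (gp_fst_lt U)
    choose f hf using hq
    refine Function.Injective.countable (f := f) ?_
    intro U V hUV
    rcases lt_trichotomy U V with h | h | h
    · exfalso
      have h1 := sep h
      have h2 := (hf U).2
      have h3 := (hf V).1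
      rw [hUV] at h2
      linarith
    · exact h
    · exfalso
      have h1 := sep h
      have h2 := (hf V).2
      have h3 := (hf U).1
      rw [hUV] at h3
      linarith
  · obtain ⟨x, hx⟩ := hE.nonempty
    obtain ⟨V, hV, -⟩ := hN.lowL x hx
    obtain ⟨U, -⟩ := mk_gp hN hV
    exact ⟨U⟩

end Pool.Agent.R270.WF
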