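import Pool.Agent.R270.WF.Stm

/-! Project WF, module M6 (helper574): an isomorphism of the labelled orders of gaps induces a
monotone reduction. -/

namespace Pool.Agent.R270.WF
open Set

namespace M6

variable {X Y J J' : Set ℝ}

theorem PI.compl (h : PI X) : PI Xᶜ := by
  intro a b hab
  obtain ⟨h1, h2⟩ := h a b hab
  refine ⟨h2, ?_⟩
  rw [compl_compl]
  exact h1

theorem EndJ.compl (h : EndJ X J) : EndJ Xᶜ J where
  isOpen := h.isOpen
  conn := h.conn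
  nonempty := h.nonempty
  outL := fun x hx => by
    obtain ⟨y, hy, h1, h2⟩ := h.inL x hx
    exact ⟨y, hy, h1, fun h3 => h3 h2⟩
  outR := fun x hx => by
    obtain ⟨y, hy, h1, h2⟩ := h.inR x hx
    exact ⟨y, hy, h1, fun h3 => h3 h2⟩
  inL := h.outL
  inR := h.outR

/-- an interval inside `X` lies in a gap -/
theorem exists_gap (hP : PI X) (hE : EndJ X J) {u v : ℝ} (hu : u ∈ J) (hv : v ∈ J) (huv : u < v)
    (hsub : Icc u v ⊆ X) :
    ∃ U : ℝ × ℝ, Gap X U ∧ Icc U.1 U.2 ⊆ J ∧ U.1 ≤ u ∧ v ≤ U.2 := by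
  obtain ⟨y, hyJ, hyu, hyX⟩ := hE.outL u hu
  obtain ⟨z, hzJ, hvz, hzX⟩ := hE.outR v hv
  set SA : Set ℝ := {w | w ≤ u ∧ w ∉ X} with hSA
  set SB : Set ℝ := {w | v ≤ w ∧ w ∉ X} with hSB
  have hAne : SA.Nonempty := ⟨y, hyu.le, hyX⟩
  have hBne : SB.Nonempty := ⟨z, hvz.le, hzX⟩
  have hAbd : BddAbove SA := ⟨u, fun w hw => hw.1⟩
  have hBbd : BddBelow SB := ⟨v, fun w hw => hw.1⟩
  set a := sSup SA with ha
  set b := sInf SB with hb
  have hau : a ≤ u := csSup_le hAne (fun w hw => hw.1)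
  have hvb : v ≤ b := le_csInf hBne (fun w hw => hw.1)
  have hab : a < b := by linarith
  have hin : Ioo a b ⊆ X := by
    intro w hw
    by_contra hc
    rcases le_or_gt w u with h1 | h1
    · have := le_csSup hAbd (show w ∈ SA from ⟨h1, hc⟩)
      linarith [hw.1]
    · rcases le_or_gt v w with h2 | h2
      · have := csInf_le hBbd (show w ∈ SB from ⟨h2, hc⟩)
        linarith [hw.2]
      · exact hc (hsub ⟨h1.le, h2.le⟩)
  have hcl : Icc a b ⊆ X := (hP a b hab).1 hin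
  have haX : a ∈ X := hcl ⟨le_rfl, hab.le⟩
  have hbX : b ∈ X := hcl ⟨hab.le, le_rfl⟩
  have hya : y ≤ a := le_csSup hAbd ⟨hyu.le, hyX⟩
  have hbz : b ≤ z := csInf_le hBbd ⟨hvz.le, hzX⟩
  refine ⟨(a, b), ⟨hab, hcl, ?_, ?_⟩, ?_, hau, hvb⟩
  · intro e he
    obtain ⟨w, hw, hwe⟩ := exists_lt_of_lt_csSup hAne (show a - e < sSup SA by linarith)
    refine ⟨w, ⟨hwe, ?_⟩, hw.2⟩
    rcases (le_csSup hAbd hw).lt_or_eq with h1 | h1
    · exact h1
    · exfalso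
      apply hw.2
      rw [h1]
      exact haX
  · intro e he
    obtain ⟨w, hw, hwe⟩ := exists_lt_of_csInf_lt hBne (show sInf SB < b + e by linarith)
    refine ⟨w, ⟨?_, hwe⟩, hw.2⟩
    rcases (csInf_le hBbd hw).lt_or_eq with h1 | h1
    · exact h1
    · exfalso
      apply hw.2
      rw [← h1]
      exact hbX
  · intro w hw
    exact hE.conn.out hyJ hzJ ⟨by linarith [hw.1], by linarith [hw.2]⟩

/-- density of the red gaps -/
theorem dense_gap (hP : PI X) (hG : Good X) (hE : EndJ X J) {u v : ℝ} (hu : u ∈ J) (hv : v ∈ J)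
    (huv : u < v) (hno : ∀ U : Gp X J, ¬ (u ∈ Icc U.1.1 U.1.2 ∧ v ∈ Icc U.1.1 U.1.2)) :
    ∃ U : Gp X J, u < U.1.1 ∧ U.1.2 < v := by
  have hsub : Icc u v ⊆ J := hE.conn.out hu hv
  have h1 : ¬ Ioo u v ⊆ X := by
    intro h
    have h2 := (hP u v huv).1 h
    obtain ⟨U, hU, hUJ, h3, h4⟩ := exists_gap hP hE hu hv huv h2
    exact hno ⟨U, hUJ, Or.inl hU⟩ ⟨⟨h3, by linarith⟩, ⟨by linarith, h4⟩⟩
  have h1' : ¬ Ioo u v ⊆ Xᶜ := by
    intro h
    have h2 := (hP u v huv).2 h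
    obtain ⟨U, hU, hUJ, h3, h4⟩ := exists_gap (PI.compl hP) (EndJ.compl hE) hu hv huv h2
    exact hno ⟨U, hUJ, Or.inr hU⟩ ⟨⟨h3, by linarith⟩, ⟨by linarith, h4⟩⟩
  have hmix : Mix X u v := by
    constructor
    · by_contra hc
      push Not at hc
      exact h1' (fun w hw => hc w hw)
    · by_contra hc
      push Not at hc
      exact h1 (fun w hw => hc w hw)
  obtain ⟨D, ⟨V, hV⟩, hgap, hcov, _, _⟩ := hG u v hmix
  have hlt := (hgap V hV).1
  have hVsub : Icc V.1 V.2 ⊆ Cov D := fun w hw => subset_closure (mem_biUnion hV hw)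
  have ha := (hcov (hVsub ⟨le_rfl, hlt.le⟩)).2
  have hb := (hcov (hVsub ⟨hlt.le, le_rfl⟩)).2
  refine ⟨⟨V, ?_, Or.inl (hgap V hV)⟩, ha.1, hb.2⟩
  intro w hw
  exact hsub ⟨by linarith [ha.1, hw.1], by linarith [hb.2, hw.2]⟩

theorem gp_pos (U : Gp X J) : U.1.1 < U.1.2 := by
  rcases U.2.2 with h | h
  · exact h.1
  · exact h.1

theorem sep_aux {A : Set ℝ} {U W : ℝ × ℝ} (hU : Icc U.1 U.2 ⊆ A) (hW : Gap A W)
    (h : U.1 < W.1) : U.2 < W.1 := by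
  by_contra hc
  push Not at hc
  obtain ⟨y, hy, hyX⟩ := hW.2.2.1 (W.1 - U.1) (by linarith)
  exact hyX (hU ⟨by linarith [hy.1], by linarith [hy.2]⟩)

theorem gp_sep {U W : Gp X J} (h : U < W) : U.1.2 < W.1.1 := by
  rw [gp_lt] at h
  have hW := gp_pos W
  rcases U.2.2 with hU | hU <;> rcases W.2.2 with hW' | hW'
  · exact sep_aux hU.2.1 hW' h
  · by_contra hc
    push Not at hc
    have h1 : W.1.1 ∈ X := hU.2.1 ⟨h.le, hc⟩
    exact (hW'.2.1 ⟨le_rfl, hW.le⟩) h1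
  · by_contra hc
    push Not at hc
    have h1 : W.1.1 ∈ Xᶜ := hU.2.1 ⟨h.le, hc⟩
    exact h1 (hW'.2.1 ⟨le_rfl, hW.le⟩)
  · exact sep_aux hU.2.1 hW' h

/-- the clamped affine map of a gap onto its image -/
noncomputable def hU (φ : Gp X J ≃o Gp Y J') (U : Gp X J) (x : ℝ) : ℝ :=
  (φ U).1.1 + ((φ U).1.2 - (φ U).1.1) * max 0 (min 1 ((x - U.1.1) / (U.1.2 - U.1.1)))

noncomputable def G (φ : Gp X J ≃o Gp Y J') (x : ℝ) : ℝ :=
  sSup {v | ∃ U : Gp X J, U.1.1 ≤ x ∧ v = hU φ U x}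

theorem clamp_mem (t : ℝ) : 0 ≤ max 0 (min 1 t) ∧ max 0 (min 1 t) ≤ 1 :=
  ⟨le_max_left _ _, max_le (by norm_num) (min_le_left _ _)⟩

theorem hU_mem (φ : Gp X J ≃o Gp Y J') (U : Gp X J) (x : ℝ) :
    (φ U).1.1 ≤ hU φ U x ∧ hU φ U x ≤ (φ U).1.2 := by
  have h := gp_pos (φ U)
  obtain ⟨h1, h2⟩ := clamp_mem ((x - U.1.1) / (U.1.2 - U.1.1))
  unfold hU
  constructor
  · nlinarith
  · nlinarith

theorem hU_mono (φ : Gp X J ≃o Gp Y J') (U : Gp X J) {x x' : ℝ} (h : x ≤ x') :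
    hU φ U x ≤ hU φ U x' := by
  have h1 := gp_pos (φ U)
  have h2 := gp_pos U
  unfold hU
  have h3 : (x - U.1.1) / (U.1.2 - U.1.1) ≤ (x' - U.1.1) / (U.1.2 - U.1.1) :=
    div_le_div_of_nonneg_right (by linarith) (by linarith)
  have h4 : max 0 (min 1 ((x - U.1.1) / (U.1.2 - U.1.1))) ≤
      max 0 (min 1 ((x' - U.1.1) / (U.1.2 - U.1.1))) :=
    max_le_max le_rfl (min_le_min le_rfl h3)
  nlinarith

theorem hU_left (φ : Gp X J ≃o Gp Y J') (U : Gp X J) {x : ℝ} (h : x ≤ U.1.1) :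
    hU φ U x = (φ U).1.1 := by
  have h2 := gp_pos U
  unfold hU
  have h3 : (x - U.1.1) / (U.1.2 - U.1.1) ≤ 0 :=
    div_nonpos_of_nonpos_of_nonneg (by linarith) (by linarith)
  rw [max_eq_left (le_trans (min_le_right _ _) h3)]
  ring

theorem hU_right (φ : Gp X J ≃o Gp Y J') (U : Gp X J) {x : ℝ} (h : U.1.2 ≤ x) :
    hU φ U x = (φ U).1.2 := by
  have h2 := gp_pos U
  unfold hU
  have h3 : 1 ≤ (x - U.1.1) / (U.1.2 - U.1.1) := by
    rw [le_div_iff₀ (by linarith)]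
    linarith
  rw [min_eq_left h3, max_eq_right (by norm_num)]
  ring

theorem hU_mid (φ : Gp X J ≃o Gp Y J') (U : Gp X J) {x : ℝ} (h : x ∈ Icc U.1.1 U.1.2) :
    hU φ U x = (φ U).1.1 + ((φ U).1.2 - (φ U).1.1) * ((x - U.1.1) / (U.1.2 - U.1.1)) := by
  have h2 := gp_pos U
  unfold hU
  have h3 : (x - U.1.1) / (U.1.2 - U.1.1) ≤ 1 := by
    rw [div_le_one (by linarith)]
    linarith [h.2]
  have h4 : 0 ≤ (x - U.1.1) / (U.1.2 - U.1.1) := div_nonneg (by linarith [h.1]) (by linarith)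
  rw [min_eq_right h3, max_eq_right h4]

/-- upper bound -/
theorem hU_le (φ : Gp X J ≃o Gp Y J') (U W : Gp X J) {x : ℝ} (hUx : U.1.1 ≤ x)
    (hx : x ≤ W.1.1) : hU φ U x ≤ (φ W).1.1 := by
  have h1 : U ≤ W := by rw [gp_le]; linarith
  rcases h1.lt_or_eq with h2 | h2
  · have h3 : φ U < φ W := φ.lt_iff_lt.mpr h2
    have h4 := gp_sep h3
    have h5 := (hU_mem φ U x).2
    linarith
  · subst h2
    rw [hU_left φ U hx]

theorem G_gap (φ : Gp X J ≃o Gp Y J') (U : Gp X J) {x : ℝ} (h : x ∈ Icc U.1.1 U.1.2) :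
    G φ x = hU φ U x := by
  apply IsGreatest.csSup_eq
  refine ⟨⟨U, h.1, rfl⟩, ?_⟩
  rintro v ⟨W, hW, rfl⟩
  rcases lt_trichotomy W U with h1 | h1 | h1
  · have h3 : φ W < φ U := φ.lt_iff_lt.mpr h1
    have h4 := gp_sep h3
    have h5 := (hU_mem φ W x).2
    have h6 := (hU_mem φ U x).1
    linarith
  · subst h1; exact le_rfl
  · have h2 := gp_sep h1
    exfalso
    linarith [h.2]

theorem G_le (φ : Gp X J ≃o Gp Y J') (V W : Gp X J) {x : ℝ} (hV : V.1.2 < x)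
    (hx : x ≤ W.1.1) : G φ x ≤ (φ W).1.1 := by
  apply csSup_le
  · exact ⟨_, V, by have := gp_pos V; linarith, rfl⟩
  · rintro v ⟨U, hUx, rfl⟩
    exact hU_le φ U W hUx hx

theorem G_bdd (φ : Gp X J ≃o Gp Y J') (W : Gp X J) {x : ℝ} (hx : x ≤ W.1.1) :
    BddAbove {v | ∃ U : Gp X J, U.1.1 ≤ x ∧ v = hU φ U x} := by
  refine ⟨(φ W).1.1, ?_⟩
  rintro v ⟨U, hUx, rfl⟩
  exact hU_le φ U W hUx hx

theorem le_G (φ : Gp X J ≃o Gp Y J') (V W : Gp X J) {x : ℝ} (hV : V.1.2 ≤ x)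
    (hx : x ≤ W.1.1) : (φ V).1.2 ≤ G φ x := by
  rw [← hU_right φ V hV]
  exact le_csSup (G_bdd φ W hx) ⟨V, by have := gp_pos V; linarith, rfl⟩

/-- the hypotheses -/
structure Dat (X Y J J' : Set ℝ) (D D' : ℕ → Set (ℝ × ℝ)) (φ : Gp X J ≃o Gp Y J') : Prop where
  pX : PI X
  pY : PI Y
  gX : Good X
  gY : Good Y
  eX : EndJ X J
  eY : EndJ Y J'
  nX : Norm X J D
  nY : Norm Y J' D'
  lb : ∀ U, lab D' (φ U) = lab D U

variable {D D' : ℕ → Set (ℝ × ℝ)} {φ : Gp X J ≃o Gp Y J'}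

theorem Dat.symm (h : Dat X Y J J' D D' φ) : Dat Y X J' J D' D φ.symm where
  pX := h.pY
  pY := h.pX
  gX := h.gY
  gY := h.gX
  eX := h.eY
  eY := h.eX
  nX := h.nY
  nY := h.nX
  lb := fun V => by
    have := h.lb (φ.symm V)
    rw [OrderIso.apply_symm_apply] at this
    exact this.symm

theorem Dat.left (h : Dat X Y J J' D D' φ) {x : ℝ} (hx : x ∈ J) : ∃ V : Gp X J, V.1.2 < x := by
  obtain ⟨V, hV, h1⟩ := h.nX.lowL x hx
  exact ⟨⟨V, (h.nX.gap 0 V hV).2, Or.inl (h.nX.gap 0 V hV).1⟩, h1⟩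

theorem Dat.right (h : Dat X Y J J' D D' φ) {x : ℝ} (hx : x ∈ J) : ∃ V : Gp X J, x < V.1.1 := by
  obtain ⟨V, hV, h1⟩ := h.nX.lowR x hx
  exact ⟨⟨V, (h.nX.gap 0 V hV).2, Or.inl (h.nX.gap 0 V hV).1⟩, h1⟩

theorem Dat.maps (h : Dat X Y J J' D D' φ) {x : ℝ} (hx : x ∈ J) : G φ x ∈ J' := by
  obtain ⟨V, hV⟩ := h.left hx
  obtain ⟨W, hW⟩ := h.right hx
  have h1 := le_G φ V W hV.le hW.le
  have h2 := G_le φ V W hV hW.le
  have h3 : (φ V).1.2 ∈ J' := (φ V).2.1 ⟨(gp_pos (φ V)).le, le_rfl⟩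
  have h4 : (φ W).1.1 ∈ J' := (φ W).2.1 ⟨le_rfl, (gp_pos (φ W)).le⟩
  exact h.eY.conn.out h3 h4 ⟨h1, h2⟩

theorem Dat.mono (h : Dat X Y J J' D D' φ) : MonotoneOn (G φ) J := by
  intro x hx x' hx' hxx
  obtain ⟨V, hV⟩ := h.left hx
  obtain ⟨W, hW⟩ := h.right hx'
  apply csSup_le
  · exact ⟨_, V, by have := gp_pos V; linarith, rfl⟩
  · rintro v ⟨U, hUx, rfl⟩
    refine (hU_mono φ U hxx).trans ?_
    exact le_csSup (G_bdd φ W hW.le) ⟨U, hUx.trans hxx, rfl⟩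

theorem Dat.inv (h : Dat X Y J J' D D' φ) {y : ℝ} (hy : y ∈ J') : G φ (G φ.symm y) = y := by
  by_cases hc : ∃ V : Gp Y J', y ∈ Icc V.1.1 V.1.2
  · obtain ⟨V, hV⟩ := hc
    obtain ⟨U, rfl⟩ : ∃ U, V = φ U := ⟨φ.symm V, by simp⟩
    have h1 := G_gap φ.symm (φ U) hV
    have h2 := hU_mid φ.symm (φ U) hV
    rw [OrderIso.symm_apply_apply] at h2
    have hUpos := gp_pos U
    have hVpos := gp_pos (φ U)
    have hmem : G φ.symm y ∈ Icc U.1.1 U.1.2 := by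
      rw [h1]
      have := hU_mem φ.symm (φ U) y
      rw [OrderIso.symm_apply_apply] at this
      exact this
    rw [G_gap φ U hmem, hU_mid φ U hmem, h1, h2]
    have e1 : U.1.2 - U.1.1 ≠ 0 := by linarith
    have e2 : (φ U).1.2 - (φ U).1.1 ≠ 0 := by linarith
    field_simp
    ring
  · push Not at hc
    have hx : G φ.symm y ∈ J := h.symm.maps hy
    have hGx : G φ (G φ.symm y) ∈ J' := h.maps hx
    obtain ⟨Vl, hVl⟩ := h.symm.left hy
    obtain ⟨Vr, hVr⟩ := h.symm.right hy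
    obtain ⟨Ul, hUl⟩ := h.left hx
    obtain ⟨Ur, hUr⟩ := h.right hx
    rcases lt_trichotomy (G φ (G φ.symm y)) y with h1 | h1 | h1
    · exfalso
      obtain ⟨V, h2, h3⟩ := dense_gap h.pY h.gY h.eY hGx hy h1 (fun U hU => hc U hU.2)
      have h4 := le_G φ.symm V Vr h3.le hVr.le
      have h5 := le_G φ (φ.symm V) Ur h4 hUr.le
      rw [OrderIso.apply_symm_apply] at h5
      have := gp_pos V
      linarith
    · exact h1
    · exfalso
      obtain ⟨V, h2, h3⟩ := dense_gap h.pY h.gY h.eY hy hGx h1 (fun U hU => hc U hU.1)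
      have h4 := G_le φ.symm Vl V hVl h2.le
      have h5 := G_le φ Ul (φ.symm V) hUl h4
      rw [OrderIso.apply_symm_apply] at h5
      have := gp_pos V
      linarith

theorem Dat.inv' (h : Dat X Y J J' D D' φ) {x : ℝ} (hx : x ∈ J) : G φ.symm (G φ x) = x := by
  have := h.symm.inv hx
  rwa [OrderIso.symm_symm] at this

theorem Dat.image (h : Dat X Y J J' D D' φ) : G φ '' J = J' := by
  apply Subset.antisymm
  · rintro _ ⟨x, hx, rfl⟩
    exact h.maps hx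
  · intro y hy
    exact ⟨G φ.symm y, h.symm.maps hy, h.inv hy⟩

theorem Dat.contAt (h : Dat X Y J J' D D' φ) {x : ℝ} (hx : x ∈ J) : ContinuousAt (G φ) x := by
  apply continuousAt_of_monotoneOn_of_image_mem_nhds h.mono (h.eX.isOpen.mem_nhds hx)
  rw [h.image]
  exact h.eY.isOpen.mem_nhds (h.maps hx)

theorem lab_le {D : ℕ → Set (ℝ × ℝ)} (hm : ∀ n, D n ⊆ D (n + 1)) (U : Gp X J) (n : ℕ) :
    lab D U ≤ (n : ℕ∞) ↔ U.1 ∈ D n := by
  classical
  have hmono : ∀ a b, a ≤ b → D a ⊆ D b := by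
    intro a b hab
    induction b, hab using Nat.le_induction with
    | base => exact Subset.rfl
    | succ b _ ih => exact ih.trans (hm b)
  unfold lab
  by_cases hex : ∃ n, U.1 ∈ D n
  · rw [dif_pos hex]
    constructor
    · intro hle
      have h1 : Nat.find hex ≤ n := by exact_mod_cast hle
      exact hmono _ _ h1 (Nat.find_spec hex)
    · intro hn
      have h1 : Nat.find hex ≤ n := Nat.find_min' hex hn
      exact_mod_cast h1
  · rw [dif_neg hex]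
    constructor
    · intro hle
      exact absurd (top_le_iff.mp hle) (ENat.coe_ne_top n)
    · intro hn
      exact absurd ⟨n, hn⟩ hex

theorem Dat.color (h : Dat X Y J J' D D' φ) {x : ℝ} (hx : x ∈ J) (hX : x ∈ X) : G φ x ∈ Y := by
  obtain ⟨n, hn⟩ := h.nX.cover x ⟨hX, hx⟩
  apply h.nY.sub n
  refine ⟨?_, h.maps hx⟩
  unfold Cov
  rw [Metric.mem_closure_iff]
  intro e he
  obtain ⟨d, hd, hcont⟩ := Metric.continuousAt_iff.mp (h.contAt hx) e he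
  unfold Cov at hn
  rw [Metric.mem_closure_iff] at hn
  obtain ⟨w, hw, hwd⟩ := hn d hd
  rw [mem_iUnion₂] at hw
  obtain ⟨V, hV, hwV⟩ := hw
  obtain ⟨hVg, hVJ⟩ := h.nX.gap n V hV
  set U : Gp X J := ⟨V, hVJ, Or.inl hVg⟩ with hUdef
  have h1 : U.1 ∈ D n := hV
  rw [← lab_le h.nX.mono, ← h.lb, lab_le h.nY.mono] at h1
  refine ⟨G φ w, ?_, ?_⟩
  · rw [mem_iUnion₂]
    refine ⟨(φ U).1, h1, ?_⟩
    rw [G_gap φ U hwV]
    exact hU_mem φ U w
  · rw [dist_comm]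
    apply hcont
    rw [dist_comm]
    exact hwd

end M6

open M6 in
theorem stmM6 : StmM6 := by
  intro X Y J J' D D' φ hX hY hgX hgY heX heY hnX hnY hl
  have h : Dat X Y J J' D D' φ := ⟨hX, hY, hgX, hgY, heX, heY, hnX, hnY, hl⟩
  refine ⟨G φ, h.mono, fun x hx => (h.contAt hx).continuousWithinAt, h.image, ?_⟩
  intro x hx
  refine ⟨fun h1 => ?_, h.color hx⟩
  have h2 := h.symm.color (h.maps hx) h1
  rwa [h.inv' hx] at h2

end Pool.Agent.R270.WF
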