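import Pool.Agent.R270.WF.Stm

/-! Project WF, assembly part: from local monotone isomorphisms to reductions. -/

namespace Pool.Agent.R270.WF
open Set

theorem PI.compl {X : Set ℝ} (h : PI X) : PI Xᶜ := by
  intro a b hab
  refine ⟨(h a b hab).2, ?_⟩
  rw [compl_compl]; exact (h a b hab).1

/-- the part of the line on both sides of which both colours occur -/
def JX (X : Set ℝ) : Set ℝ :=
  {x | (∃ y, y < x ∧ y ∈ X) ∧ (∃ y, y < x ∧ y ∉ X) ∧ (∃ y, x < y ∧ y ∈ X) ∧ (∃ y, x < y ∧ y ∉ X)}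

theorem JX_open (X : Set ℝ) : IsOpen (JX X) := by
  have h1 : IsOpen {x : ℝ | ∃ y, y < x ∧ y ∈ X} := by
    have : {x : ℝ | ∃ y, y < x ∧ y ∈ X} = ⋃ y ∈ X, Ioi y := by
      ext x; simp only [mem_setOf_eq, mem_iUnion, mem_Ioi, exists_prop]
      exact ⟨fun ⟨y, h, k⟩ => ⟨y, k, h⟩, fun ⟨y, h, k⟩ => ⟨y, k, h⟩⟩
    rw [this]; exact isOpen_biUnion fun _ _ => isOpen_Ioi
  have h2 : IsOpen {x : ℝ | ∃ y, y < x ∧ y ∉ X} := by
    have : {x : ℝ | ∃ y, y < x ∧ y ∉ X} = ⋃ y ∈ Xᶜ, Ioi y := by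
      ext x; simp only [mem_setOf_eq, mem_iUnion, mem_Ioi, exists_prop, mem_compl_iff]
      exact ⟨fun ⟨y, h, k⟩ => ⟨y, k, h⟩, fun ⟨y, h, k⟩ => ⟨y, k, h⟩⟩
    rw [this]; exact isOpen_biUnion fun _ _ => isOpen_Ioi
  have h3 : IsOpen {x : ℝ | ∃ y, x < y ∧ y ∈ X} := by
    have : {x : ℝ | ∃ y, x < y ∧ y ∈ X} = ⋃ y ∈ X, Iio y := by
      ext x; simp only [mem_setOf_eq, mem_iUnion, mem_Iio, exists_prop]
      exact ⟨fun ⟨y, h, k⟩ => ⟨y, k, h⟩, fun ⟨y, h, k⟩ => ⟨y, k, h⟩⟩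
    rw [this]; exact isOpen_biUnion fun _ _ => isOpen_Iio
  have h4 : IsOpen {x : ℝ | ∃ y, x < y ∧ y ∉ X} := by
    have : {x : ℝ | ∃ y, x < y ∧ y ∉ X} = ⋃ y ∈ Xᶜ, Iio y := by
      ext x; simp only [mem_setOf_eq, mem_iUnion, mem_Iio, exists_prop, mem_compl_iff]
      exact ⟨fun ⟨y, h, k⟩ => ⟨y, k, h⟩, fun ⟨y, h, k⟩ => ⟨y, k, h⟩⟩
    rw [this]; exact isOpen_biUnion fun _ _ => isOpen_Iio
  exact h1.inter (h2.inter (h3.inter h4))

theorem JX_conn (X : Set ℝ) : (JX X).OrdConnected := by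
  refine ⟨fun x hx y hy z hz => ?_⟩
  obtain ⟨⟨a, ha, ha'⟩, ⟨b, hb, hb'⟩, _, _⟩ := hx
  obtain ⟨_, _, ⟨c, hc, hc'⟩, ⟨d, hd, hd'⟩⟩ := hy
  exact ⟨⟨a, lt_of_lt_of_le ha hz.1, ha'⟩, ⟨b, lt_of_lt_of_le hb hz.1, hb'⟩,
    ⟨c, lt_of_le_of_lt hz.2 hc, hc'⟩, ⟨d, lt_of_le_of_lt hz.2 hd, hd'⟩⟩

/-- a point outside `JX` on the left: everything below it has its colour -/
theorem left_out {X : Set ℝ} (hPI : PI X) {x : ℝ} (hx : x ∉ JX X) {z : ℝ} (hz : z ∈ JX X) (hxz : x < z) :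
    (x ∈ X ∧ Iic x ⊆ X) ∨ (x ∉ X ∧ Iic x ⊆ Xᶜ) := by
  obtain ⟨_, _, ⟨c, hc, hc'⟩, ⟨d, hd, hd'⟩⟩ := hz
  have h : ¬ ((∃ y, y < x ∧ y ∈ X) ∧ (∃ y, y < x ∧ y ∉ X)) := fun h =>
    hx ⟨h.1, h.2, ⟨c, hxz.trans hc, hc'⟩, ⟨d, hxz.trans hd, hd'⟩⟩
  rw [not_and_or] at h
  rcases h with h | h
  · right
    have h1 : Iio x ⊆ Xᶜ := fun y hy hyX => h ⟨y, hy, hyX⟩
    have h2 : x ∈ Xᶜ := (hPI (x - 1) x (by linarith)).2 (fun y hy => h1 hy.2) ⟨by linarith, le_refl _⟩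
    refine ⟨h2, fun y hy => ?_⟩
    rcases eq_or_lt_of_le (mem_Iic.1 hy) with h3 | h3
    · rw [h3]; exact h2
    · exact h1 h3
  · left
    have h1 : Iio x ⊆ X := fun y hy => by
      by_contra hyX; exact h ⟨y, hy, hyX⟩
    have h2 : x ∈ X := (hPI (x - 1) x (by linarith)).1 (fun y hy => h1 hy.2) ⟨by linarith, le_refl _⟩
    refine ⟨h2, fun y hy => ?_⟩
    rcases eq_or_lt_of_le (mem_Iic.1 hy) with h3 | h3
    · rw [h3]; exact h2
    · exact h1 h3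

theorem right_out {X : Set ℝ} (hPI : PI X) {x : ℝ} (hx : x ∉ JX X) {z : ℝ} (hz : z ∈ JX X) (hxz : z < x) :
    (x ∈ X ∧ Ici x ⊆ X) ∨ (x ∉ X ∧ Ici x ⊆ Xᶜ) := by
  obtain ⟨⟨c, hc, hc'⟩, ⟨d, hd, hd'⟩, _, _⟩ := hz
  have h : ¬ ((∃ y, x < y ∧ y ∈ X) ∧ (∃ y, x < y ∧ y ∉ X)) := fun h =>
    hx ⟨⟨c, hc.trans hxz, hc'⟩, ⟨d, hd.trans hxz, hd'⟩, h.1, h.2⟩
  rw [not_and_or] at h
  rcases h with h | h
  · right
    have h1 : Ioi x ⊆ Xᶜ := fun y hy hyX => h ⟨y, hy, hyX⟩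
    have h2 : x ∈ Xᶜ := (hPI x (x + 1) (by linarith)).2 (fun y hy => h1 hy.1) ⟨le_refl _, by linarith⟩
    refine ⟨h2, fun y hy => ?_⟩
    rcases eq_or_lt_of_le (mem_Ici.1 hy) with h3 | h3
    · rw [← h3]; exact h2
    · exact h1 h3
  · left
    have h1 : Ioi x ⊆ X := fun y hy => by
      by_contra hyX; exact h ⟨y, hy, hyX⟩
    have h2 : x ∈ X := (hPI x (x + 1) (by linarith)).1 (fun y hy => h1 hy.1) ⟨le_refl _, by linarith⟩
    refine ⟨h2, fun y hy => ?_⟩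
    rcases eq_or_lt_of_le (mem_Ici.1 hy) with h3 | h3
    · rw [← h3]; exact h2
    · exact h1 h3

/-- gluing a monotone map of `JX X` onto a bounded interval with constants -/
theorem glue {X Y : Set ℝ} (hne : (JX X).Nonempty) {a b : ℝ} (hab : a < b) {g : ℝ → ℝ}
    (hm : MonotoneOn g (JX X)) (hc : ContinuousOn g (JX X)) (him : g '' (JX X) = Ioo a b)
    (hcol : ∀ x ∈ JX X, (g x ∈ Y ↔ x ∈ X))
    (hL : ∀ x, x ∉ JX X → (∃ z ∈ JX X, x < z) → (a ∈ Y ↔ x ∈ X))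
    (hR : ∀ x, x ∉ JX X → (∃ z ∈ JX X, z < x) → (b ∈ Y ↔ x ∈ X)) : Red X Y := by
  classical
  set J := JX X with hJ
  have hconn : J.OrdConnected := JX_conn X
  set G : ℝ → ℝ := fun x => if x ∈ J then g x else if (∃ z ∈ J, x < z) then a else b with hG
  have hgJ : ∀ x ∈ J, a < g x ∧ g x < b := fun x hx => by
    have : g x ∈ Ioo a b := him ▸ ⟨x, hx, rfl⟩
    exact this
  have hleft : ∀ x, x ∉ J → (∃ z ∈ J, x < z) → ∀ z ∈ J, x < z := by
    intro x hx ⟨z, hz, hxz⟩ w hw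
    by_contra hcon
    push Not at hcon
    exact hx (hconn.out hw hz ⟨hcon, hxz.le⟩)
  have hright : ∀ x, x ∉ J → ¬ (∃ z ∈ J, x < z) → ∀ z ∈ J, z < x := by
    intro x hx h z hz
    by_contra hcon
    push Not at hcon
    rcases eq_or_lt_of_le hcon with h1 | h1
    · exact hx (h1 ▸ hz)
    · exact h ⟨z, hz, h1⟩
  have hGcont : Continuous G := by
    rw [continuous_iff_continuousAt]
    intro x
    by_cases hx : x ∈ J
    · have hopen : J ∈ nhds x := (JX_open X).mem_nhds hx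
      have h1 : ContinuousAt g x := hc.continuousAt hopen
      refine h1.congr ?_
      filter_upwards [hopen] with y hy
      simp [hG, hy]
    · by_cases h : ∃ z ∈ J, x < z
      · have hGx : G x = a := by simp [hG, hx, h]
        rw [Metric.continuousAt_iff']
        intro ε hε
        obtain ⟨z, hz, hgz⟩ : ∃ z ∈ J, g z < a + ε := by
          have : min ((a + b) / 2) (a + ε / 2) ∈ Ioo a b := ⟨by
            refine lt_min ?_ ?_ <;> linarith, by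
            refine lt_of_le_of_lt (min_le_left _ _) ?_; linarith⟩
          rw [← him] at this
          obtain ⟨z, hz, hz'⟩ := this
          refine ⟨z, hz, ?_⟩
          rw [hz']
          refine lt_of_le_of_lt (min_le_right _ _) ?_; linarith
        have hxz := hleft x hx h z hz
        filter_upwards [Iio_mem_nhds hxz] with y hy
        rw [hGx, Real.dist_eq]
        have h1 : a ≤ G y ∧ G y ≤ g z := by
          by_cases hyJ : y ∈ J
          · have : G y = g y := by simp [hG, hyJ]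
            rw [this]
            exact ⟨(hgJ y hyJ).1.le, hm hyJ hz (le_of_lt hy)⟩
          · have h2 : ∃ z ∈ J, y < z := ⟨z, hz, hy⟩
            have : G y = a := by simp [hG, hyJ, h2]
            rw [this]
            exact ⟨le_refl _, (hgJ z hz).1.le⟩
        rw [abs_lt]; constructor <;> linarith [h1.1, h1.2]
      · have hGx : G x = b := by simp only [hG, hx, h, if_false]
        rw [Metric.continuousAt_iff']
        intro ε hε
        obtain ⟨z, hz, hgz⟩ : ∃ z ∈ J, b - ε < g z := by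
          have : max ((a + b) / 2) (b - ε / 2) ∈ Ioo a b := ⟨by
            refine lt_of_lt_of_le ?_ (le_max_left _ _); linarith, by
            refine max_lt ?_ ?_ <;> linarith⟩
          rw [← him] at this
          obtain ⟨z, hz, hz'⟩ := this
          refine ⟨z, hz, ?_⟩
          rw [hz']
          refine lt_of_lt_of_le ?_ (le_max_right _ _); linarith
        have hxz := hright x hx h z hz
        filter_upwards [Ioi_mem_nhds hxz] with y hy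
        rw [hGx, Real.dist_eq]
        have h1 : g z ≤ G y ∧ G y ≤ b := by
          by_cases hyJ : y ∈ J
          · have : G y = g y := by simp [hG, hyJ]
            rw [this]
            exact ⟨hm hz hyJ (le_of_lt hy), (hgJ y hyJ).2.le⟩
          · have h2 : ¬ ∃ z ∈ J, y < z := by
              rintro ⟨w, hw, hyw⟩
              exact hyJ (hconn.out hz hw ⟨le_of_lt hy, hyw.le⟩)
            have : G y = b := by simp only [hG, hyJ, h2, if_false]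
            rw [this]
            exact ⟨(hgJ z hz).2.le, le_refl _⟩
        rw [abs_lt]; constructor <;> linarith [h1.1, h1.2]
  refine ⟨G, hGcont, ?_⟩
  ext x
  rw [mem_preimage]
  by_cases hx : x ∈ J
  · have : G x = g x := by simp [hG, hx]
    rw [this]; exact (hcol x hx).symm
  · by_cases h : ∃ z ∈ J, x < z
    · have : G x = a := by simp [hG, hx, h]
      rw [this]; exact (hL x hx h).symm
    · have : G x = b := by simp only [hG, hx, h, if_false]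
      rw [this]
      obtain ⟨z, hz⟩ := hne
      exact (hR x hx ⟨z, hz, hright x hx h z hz⟩).symm

/-- `X` accumulates at the right end of a red gap -/
theorem gap_inR {X : Set ℝ} (hPI : PI X) {U : ℝ × ℝ} (hU : Gap X U) (e : ℝ) (he : 0 < e) :
    ∃ y ∈ Ioo U.2 (U.2 + e), y ∈ X := by
  by_contra hcon
  push Not at hcon
  have h1 : Ioo U.2 (U.2 + e) ⊆ Xᶜ := fun y hy => hcon y hy
  have h2 := (hPI U.2 (U.2 + e) (by linarith)).2 h1 ⟨le_refl _, by linarith⟩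
  exact h2 (hU.2.1 ⟨hU.1.le, le_refl _⟩)

theorem gap_inL {X : Set ℝ} (hPI : PI X) {U : ℝ × ℝ} (hU : Gap X U) (e : ℝ) (he : 0 < e) :
    ∃ y ∈ Ioo (U.1 - e) U.1, y ∈ X := by
  by_contra hcon
  push Not at hcon
  have h1 : Ioo (U.1 - e) U.1 ⊆ Xᶜ := fun y hy => hcon y hy
  have h2 := (hPI (U.1 - e) U.1 (by linarith)).2 h1 ⟨by linarith, le_refl _⟩
  exact h2 (hU.2.1 ⟨le_refl _, hU.1.le⟩)

/-- both colours accumulate at both ends of a gap of any colour -/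
theorem gap_both {X : Set ℝ} (hPI : PI X) {U : ℝ × ℝ} (hU : Gap X U ∨ Gap Xᶜ U) (e : ℝ) (he : 0 < e) :
    ((∃ y ∈ Ioo U.2 (U.2 + e), y ∈ X) ∧ (∃ y ∈ Ioo U.2 (U.2 + e), y ∉ X)) ∧
    ((∃ y ∈ Ioo (U.1 - e) U.1, y ∈ X) ∧ (∃ y ∈ Ioo (U.1 - e) U.1, y ∉ X)) := by
  rcases hU with hU | hU
  · exact ⟨⟨gap_inR hPI hU e he, hU.2.2.2 e he⟩, ⟨gap_inL hPI hU e he, hU.2.2.1 e he⟩⟩
  · refine ⟨⟨?_, gap_inR hPI.compl hU e he⟩, ⟨?_, gap_inL hPI.compl hU e he⟩⟩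
    · obtain ⟨y, hy, hy'⟩ := hU.2.2.2 e he
      exact ⟨y, hy, not_not.1 hy'⟩
    · obtain ⟨y, hy, hy'⟩ := hU.2.2.1 e he
      exact ⟨y, hy, not_not.1 hy'⟩

theorem EndJ_between {X : Set ℝ} (hPI : PI X) {U V : ℝ × ℝ} (hU : Gap X U ∨ Gap Xᶜ U) (hV : Gap X V ∨ Gap Xᶜ V)
    (hUV : U.2 < V.1) : EndJ X (Ioo U.2 V.1) where
  isOpen := isOpen_Ioo
  conn := ordConnected_Ioo
  nonempty := nonempty_Ioo.2 hUV
  outL := fun x hx => by
    obtain ⟨y, hy, hy'⟩ := (gap_both hPI hU (x - U.2) (by linarith [hx.1])).1.2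
    exact ⟨y, ⟨hy.1, by linarith [hy.2, hx.2]⟩, by linarith [hy.2], hy'⟩
  inL := fun x hx => by
    obtain ⟨y, hy, hy'⟩ := (gap_both hPI hU (x - U.2) (by linarith [hx.1])).1.1
    exact ⟨y, ⟨hy.1, by linarith [hy.2, hx.2]⟩, by linarith [hy.2], hy'⟩
  outR := fun x hx => by
    obtain ⟨y, hy, hy'⟩ := (gap_both hPI hV (V.1 - x) (by linarith [hx.2])).2.2
    exact ⟨y, ⟨by linarith [hy.1, hx.1], hy.2⟩, by linarith [hy.1], hy'⟩
  inR := fun x hx => by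
    obtain ⟨y, hy, hy'⟩ := (gap_both hPI hV (V.1 - x) (by linarith [hx.2])).2.1
    exact ⟨y, ⟨by linarith [hy.1, hx.1], hy.2⟩, by linarith [hy.1], hy'⟩

end Pool.Agent.R270.WF
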