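import Pool.Agent.R270.WF.M7

/-! Project WF, assembly part 2. -/

namespace Pool.Agent.R270.WF
open Set

theorem Mix.compl {X : Set ℝ} {p q : ℝ} (h : Mix X p q) : Mix Xᶜ p q := by
  obtain ⟨⟨x, hx, hx'⟩, ⟨y, hy, hy'⟩⟩ := h
  exact ⟨⟨y, hy, hy'⟩, ⟨x, hx, not_not.2 hx'⟩⟩

theorem mixL {X : Set ℝ} (hPI : PI X) {p q : ℝ} (h : Mix X p q) : ∃ y ∈ Ioo p q, y ∉ X ∧ Mix X p y := by
  by_contra hcon
  push Not at hcon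
  obtain ⟨⟨x1, hx1, hx1X⟩, ⟨x2, hx2, hx2X⟩⟩ := h
  have key : ∀ y ∈ Ioo p q, y ∉ X → Ioo p y ⊆ Xᶜ := by
    intro y hy hyX z hz hzX
    apply hcon y hy hyX
    refine ⟨⟨z, hz, hzX⟩, ?_⟩
    by_contra h2
    push Not at h2
    exact hyX ((hPI p y hy.1).1 (fun w hw => h2 w hw) ⟨hy.1.le, le_refl _⟩)
  have h21 : x2 < x1 := by
    rcases lt_trichotomy x1 x2 with h | h | h
    · exact absurd hx1X (key x2 hx2 hx2X ⟨hx1.1, h⟩)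
    · rw [h] at hx1X; exact absurd hx1X hx2X
    · exact h
  set S : Set ℝ := Xᶜ ∩ Ioo p q with hS
  have hSne : S.Nonempty := ⟨x2, hx2X, hx2⟩
  have hSle : ∀ y ∈ S, y < x1 := by
    intro y hy
    by_contra h3
    push Not at h3
    rcases eq_or_lt_of_le h3 with h4 | h4
    · rw [h4] at hx1X; exact hy.1 hx1X
    · exact key y hy.2 hy.1 ⟨hx1.1, h4⟩ hx1X
  have hbdd : BddAbove S := ⟨x1, fun y hy => (hSle y hy).le⟩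
  set s := sSup S
  have hs2 : x2 ≤ s := le_csSup hbdd ⟨hx2X, hx2⟩
  have hs1 : s ≤ x1 := csSup_le hSne fun y hy => (hSle y hy).le
  have hps : p < s := lt_of_lt_of_le hx2.1 hs2
  have h5 : Ioo p s ⊆ Xᶜ := by
    intro z hz
    obtain ⟨y, hyS, hzy⟩ := exists_lt_of_lt_csSup hSne hz.2
    exact key y hyS.2 hyS.1 ⟨hz.1, hzy⟩
  have h6 : s ∈ Xᶜ := (hPI p s hps).2 h5 ⟨hps.le, le_refl _⟩
  have hs1' : s < x1 := lt_of_le_of_ne hs1 (fun h => h6 (h ▸ hx1X))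
  have h7 : Ioo s x1 ⊆ X := by
    intro z hz
    by_contra hzX
    have : z ≤ s := le_csSup hbdd ⟨hzX, ⟨hps.trans hz.1, hz.2.trans hx1.2⟩⟩
    exact absurd hz.1 (not_lt.2 this)
  exact h6 ((hPI s x1 hs1').1 h7 ⟨le_refl _, hs1'.le⟩)

theorem mixR {X : Set ℝ} (hPI : PI X) {p q : ℝ} (h : Mix X p q) : ∃ y ∈ Ioo p q, y ∉ X ∧ Mix X y q := by
  have hPI' : PI ((fun x : ℝ => -x) ⁻¹' X) := by
    intro a b hab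
    constructor
    · intro h1 z hz
      have : Ioo (-b) (-a) ⊆ X := by
        intro w hw
        have := h1 (show -w ∈ Ioo a b from ⟨by linarith [hw.2], by linarith [hw.1]⟩)
        simpa using this
      exact (hPI (-b) (-a) (by linarith)).1 this ⟨by linarith [hz.2], by linarith [hz.1]⟩
    · intro h1 z hz
      have : Ioo (-b) (-a) ⊆ Xᶜ := by
        intro w hw
        have := h1 (show -w ∈ Ioo a b from ⟨by linarith [hw.2], by linarith [hw.1]⟩)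
        simpa using this
      exact (hPI (-b) (-a) (by linarith)).2 this ⟨by linarith [hz.2], by linarith [hz.1]⟩
  obtain ⟨⟨x1, hx1, hx1X⟩, ⟨x2, hx2, hx2X⟩⟩ := h
  have hM : Mix ((fun x : ℝ => -x) ⁻¹' X) (-q) (-p) :=
    ⟨⟨-x1, ⟨by linarith [hx1.2], by linarith [hx1.1]⟩, by simpa using hx1X⟩,
     ⟨-x2, ⟨by linarith [hx2.2], by linarith [hx2.1]⟩, by simpa using hx2X⟩⟩
  obtain ⟨y, hy, hyX, ⟨⟨z1, hz1, hz1X⟩, ⟨z2, hz2, hz2X⟩⟩⟩ := mixL hPI' hM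
  refine ⟨-y, ⟨by linarith [hy.2], by linarith [hy.1]⟩, by simpa using hyX, ⟨-z1, ⟨by linarith [hz1.2], by linarith [hz1.1]⟩, by simpa using hz1X⟩,
    ⟨-z2, ⟨by linarith [hz2.2], by linarith [hz2.1]⟩, by simpa using hz2X⟩⟩

theorem mixL' {X : Set ℝ} (hPI : PI X) {p q : ℝ} (h : Mix X p q) : ∃ y ∈ Ioo p q, y ∈ X ∧ Mix X p y := by
  obtain ⟨y, hy, hyX, hm⟩ := mixL hPI.compl h.compl
  exact ⟨y, hy, not_not.1 hyX, by simpa using hm.compl⟩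

theorem mixR' {X : Set ℝ} (hPI : PI X) {p q : ℝ} (h : Mix X p q) : ∃ y ∈ Ioo p q, y ∈ X ∧ Mix X y q := by
  obtain ⟨y, hy, hyX, hm⟩ := mixR hPI.compl h.compl
  exact ⟨y, hy, not_not.1 hyX, by simpa using hm.compl⟩

theorem Mix.lt {X : Set ℝ} {p q : ℝ} (h : Mix X p q) : p < q := by
  obtain ⟨⟨x, hx, _⟩, _⟩ := h
  exact hx.1.trans hx.2

theorem exists_mix {X : Set ℝ} {x y : ℝ} (hx : x ∈ X) (hy : y ∉ X) : Mix X (min x y - 1) (max x y + 1) := by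
  refine ⟨⟨x, ⟨by linarith [min_le_left x y], by linarith [le_max_left x y]⟩, hx⟩,
    ⟨y, ⟨by linarith [min_le_right x y], by linarith [le_max_right x y]⟩, hy⟩⟩

theorem JX_end {X : Set ℝ} (hPI : PI X) (h1 : ∃ x, x ∈ X) (h2 : ∃ x, x ∉ X) : EndJ X (JX X) where
  isOpen := JX_open X
  conn := JX_conn X
  nonempty := by
    obtain ⟨x, hx⟩ := h1
    obtain ⟨x', hx'⟩ := h2
    obtain ⟨y, hy, hyX, hm⟩ := mixL hPI (exists_mix hx hx')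
    obtain ⟨z, hz, hzX, ⟨⟨a, ha, haX⟩, _⟩⟩ := mixR hPI hm
    have hin : ∀ b, z < b → b ∈ X → ∃ c ∈ Ioo z b, c ∈ X := by
      intro b hb hbX
      by_contra hcon
      push Not at hcon
      exact (hPI z b hb).2 (fun w hw => hcon w hw) ⟨hb.le, le_refl _⟩ hbX
    obtain ⟨a1, ha1, ha1X⟩ := hin a ha.1 haX
    obtain ⟨a2, ha2, ha2X⟩ := hin a1 ha1.1 ha1X
    exact ⟨a1, ⟨a2, ha2.2, ha2X⟩, ⟨z, ha1.1, hzX⟩, ⟨a, ha1.2, haX⟩, ⟨y, ha1.2.trans ha.2, hyX⟩⟩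
  outL := fun x hx => by
    obtain ⟨⟨a, ha, ha'⟩, ⟨b, hb, hb'⟩, ⟨c, hc, hc'⟩, ⟨d, hd, hd'⟩⟩ := hx
    have hM : Mix X (min a b - 1) x := ⟨⟨a, ⟨by linarith [min_le_left a b], ha⟩, ha'⟩, ⟨b, ⟨by linarith [min_le_right a b], hb⟩, hb'⟩⟩
    obtain ⟨y, hy, hyX, ⟨⟨z1, hz1, hz1X⟩, ⟨z2, hz2, hz2X⟩⟩⟩ := mixL hPI hM
    exact ⟨y, ⟨⟨z1, hz1.2, hz1X⟩, ⟨z2, hz2.2, hz2X⟩, ⟨c, hy.2.trans hc, hc'⟩, ⟨d, hy.2.trans hd, hd'⟩⟩, hy.2, hyX⟩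
  inL := fun x hx => by
    obtain ⟨⟨a, ha, ha'⟩, ⟨b, hb, hb'⟩, ⟨c, hc, hc'⟩, ⟨d, hd, hd'⟩⟩ := hx
    have hM : Mix X (min a b - 1) x := ⟨⟨a, ⟨by linarith [min_le_left a b], ha⟩, ha'⟩, ⟨b, ⟨by linarith [min_le_right a b], hb⟩, hb'⟩⟩
    obtain ⟨y, hy, hyX, ⟨⟨z1, hz1, hz1X⟩, ⟨z2, hz2, hz2X⟩⟩⟩ := mixL' hPI hM
    exact ⟨y, ⟨⟨z1, hz1.2, hz1X⟩, ⟨z2, hz2.2, hz2X⟩, ⟨c, hy.2.trans hc, hc'⟩, ⟨d, hy.2.trans hd, hd'⟩⟩, hy.2, hyX⟩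
  outR := fun x hx => by
    obtain ⟨⟨a, ha, ha'⟩, ⟨b, hb, hb'⟩, ⟨c, hc, hc'⟩, ⟨d, hd, hd'⟩⟩ := hx
    have hM : Mix X x (max c d + 1) := ⟨⟨c, ⟨hc, by linarith [le_max_left c d]⟩, hc'⟩, ⟨d, ⟨hd, by linarith [le_max_right c d]⟩, hd'⟩⟩
    obtain ⟨y, hy, hyX, ⟨⟨z1, hz1, hz1X⟩, ⟨z2, hz2, hz2X⟩⟩⟩ := mixR hPI hM
    exact ⟨y, ⟨⟨a, ha.trans hy.1, ha'⟩, ⟨b, hb.trans hy.1, hb'⟩, ⟨z1, hz1.1, hz1X⟩, ⟨z2, hz2.1, hz2X⟩⟩, hy.1, hyX⟩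
  inR := fun x hx => by
    obtain ⟨⟨a, ha, ha'⟩, ⟨b, hb, hb'⟩, ⟨c, hc, hc'⟩, ⟨d, hd, hd'⟩⟩ := hx
    have hM : Mix X x (max c d + 1) := ⟨⟨c, ⟨hc, by linarith [le_max_left c d]⟩, hc'⟩, ⟨d, ⟨hd, by linarith [le_max_right c d]⟩, hd'⟩⟩
    obtain ⟨y, hy, hyX, ⟨⟨z1, hz1, hz1X⟩, ⟨z2, hz2, hz2X⟩⟩⟩ := mixR' hPI hM
    exact ⟨y, ⟨⟨a, ha.trans hy.1, ha'⟩, ⟨b, hb.trans hy.1, hb'⟩, ⟨z1, hz1.1, hz1X⟩, ⟨z2, hz2.1, hz2X⟩⟩, hy.1, hyX⟩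

theorem EndJ.mix {X J : Set ℝ} (hJ : EndJ X J) : ∃ p q, Icc p q ⊆ J ∧ Mix X p q := by
  obtain ⟨x, hx⟩ := hJ.nonempty
  obtain ⟨a, ha, hax, haX⟩ := hJ.inL x hx
  obtain ⟨b, hb, hbx, hbX⟩ := hJ.outR x hx
  obtain ⟨p, hp, hpa, _⟩ := hJ.inL a ha
  obtain ⟨q, hq, hbq, _⟩ := hJ.inR b hb
  exact ⟨p, q, fun z hz => hJ.conn.out hp hq hz, ⟨a, ⟨hpa, by linarith⟩, haX⟩, ⟨b, ⟨by linarith, hbq⟩, hbX⟩⟩

theorem lab_ne_top {X J : Set ℝ} {D : ℕ → Set (ℝ × ℝ)} (U : Gp X J) : lab D U ≠ ⊤ ↔ ∃ n, U.1 ∈ D n := by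
  classical
  unfold lab
  by_cases h : ∃ n, U.1 ∈ D n
  · simp only [h, dif_pos, iff_true, ne_eq]
    exact ENat.coe_ne_top _
  · simp [h]

theorem local_red (h3 : StmM3) (h4 : StmM4) (h5 : StmM5) (h6 : StmM6) {X Y J J' : Set ℝ} (hX : PI X) (hY : PI Y)
    (fX : Fs X) (fY : Fs Y) (gX : Good X) (gY : Good Y) (eX : EndJ X J) (eY : EndJ Y J')
    (hb : (NoBlue X J ∧ NoBlue Y J') ∨ (DenseBlue X J ∧ DenseBlue Y J')) :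
    ∃ g : ℝ → ℝ, MonotoneOn g J ∧ ContinuousOn g J ∧ g '' J = J' ∧ ∀ x ∈ J, (g x ∈ Y ↔ x ∈ X) := by
  obtain ⟨D, hD⟩ := h3 X J hX fX gX eX
  obtain ⟨D', hD'⟩ := h3 Y J' hY fY gY eY
  have b1 : NoBlue X J ∨ DenseBlue X J := hb.imp And.left And.left
  have b2 : NoBlue Y J' ∨ DenseBlue Y J' := hb.imp And.right And.right
  obtain ⟨l1, c1, n1⟩ := h5 X J D hX gX eX hD b1
  obtain ⟨l2, c2, n2⟩ := h5 Y J' D' hY gY eY hD' b2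
  have hno : ∀ {Z K : Set ℝ} {E : ℕ → Set (ℝ × ℝ)}, Norm Z K E → NoBlue Z K → ∀ p : Gp Z K, lab E p ≠ ⊤ := by
    intro Z K E hE hN p
    rw [lab_ne_top]
    rcases p.2.2 with h | h
    · exact hE.all p.1 h p.2.1
    · exact absurd h (hN p.1 p.2.1)
  have hde : ∀ {Z K : Set ℝ} {E : ℕ → Set (ℝ × ℝ)}, Norm Z K E → EndJ Z K → DenseBlue Z K → ¬ ∀ p : Gp Z K, lab E p ≠ ⊤ := by
    intro Z K E hE eZ hN hall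
    obtain ⟨p, q, hpq, hm⟩ := eZ.mix
    obtain ⟨U, hU, h1, h2⟩ := hN p q hpq hm
    have hUK : Icc U.1 U.2 ⊆ K := fun z hz => hpq ⟨by linarith [hz.1], by linarith [hz.2]⟩
    obtain ⟨n, hn⟩ := (lab_ne_top (⟨U, hUK, Or.inr hU⟩ : Gp Z K)).1 (hall _)
    have h3 := (hE.gap n U hn).1
    exact (hU.2.1 ⟨le_refl _, hU.1.le⟩) (h3.2.1 ⟨le_refl _, hU.1.le⟩)
  have htop : (∀ p : Gp X J, lab D p ≠ ⊤) ↔ (∀ q : Gp Y J', lab D' q ≠ ⊤) := by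
    rcases hb with hb | hb
    · exact ⟨fun _ => hno hD' hb.2, fun _ => hno hD hb.1⟩
    · exact ⟨fun h => absurd h (hde hD eX hb.1), fun h => absurd h (hde hD' eY hb.2)⟩
  obtain ⟨φ, hφ⟩ := h4 (Gp X J) (Gp Y J') (lab D) (lab D') l1 l2 htop
  exact h6 X Y J J' D D' φ hX hY gX gY eX eY hD hD' hφ

end Pool.Agent.R270.WF
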