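import Pool.Agent.R270.WF.M7b

/-! Project WF, assembly part 3: the two comparison theorems and the main argument. -/

namespace Pool.Agent.R270.WF
open Set

theorem DenseBlue.mono {X J J' : Set ℝ} (h : DenseBlue X J) (hJ : J' ⊆ J) : DenseBlue X J' :=
  fun p q hpq hm => h p q (hpq.trans hJ) hm

/-- right of a gap inside a mixed interval the interval is still mixed -/
theorem mix_right {X : Set ℝ} (hPI : PI X) {U : ℝ × ℝ} (hU : Gap X U ∨ Gap Xᶜ U) {q : ℝ} (hq : U.2 < q) : Mix X U.2 q := by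
  obtain ⟨⟨⟨y, hy, hy'⟩, ⟨z, hz, hz'⟩⟩, _⟩ := gap_both hPI hU (q - U.2) (by linarith)
  exact ⟨⟨y, ⟨hy.1, by linarith [hy.2]⟩, hy'⟩, ⟨z, ⟨hz.1, by linarith [hz.2]⟩, hz'⟩⟩

theorem good_gap {X : Set ℝ} (hG : Good X) {p q : ℝ} (hm : Mix X p q) : ∃ U, Gap X U ∧ p < U.1 ∧ U.2 < q := by
  obtain ⟨D, ⟨U, hU⟩, hg, hc, _, _⟩ := hG p q hm
  have hsub : Icc U.1 U.2 ⊆ Cov D := fun z hz => subset_closure (mem_iUnion₂.2 ⟨U, hU, hz⟩)
  have h1 := (hc (hsub ⟨le_refl _, (hg U hU).1.le⟩)).2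
  have h2 := (hc (hsub ⟨(hg U hU).1.le, le_refl _⟩)).2
  exact ⟨U, hg U hU, h1.1, h2.2⟩

/-- choose a gap of a prescribed colour -/
theorem gap_col {Y : Set ℝ} (hG : Good Y) (hB : DenseBlue Y univ) {p q : ℝ} (hm : Mix Y p q) (c : Prop) :
    ∃ U, (Gap Y U ∨ Gap Yᶜ U) ∧ p < U.1 ∧ U.2 < q ∧ (U.1 ∈ Y ↔ c) ∧ (U.2 ∈ Y ↔ c) := by
  by_cases hc : c
  · obtain ⟨U, hU, h1, h2⟩ := good_gap hG hm
    exact ⟨U, Or.inl hU, h1, h2, ⟨fun _ => hc, fun _ => hU.2.1 ⟨le_refl _, hU.1.le⟩⟩, ⟨fun _ => hc, fun _ => hU.2.1 ⟨hU.1.le, le_refl _⟩⟩⟩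
  · obtain ⟨U, hU, h1, h2⟩ := hB p q (subset_univ _) hm
    exact ⟨U, Or.inr hU, h1, h2, ⟨fun h => absurd h (hU.2.1 ⟨le_refl _, hU.1.le⟩), fun h => absurd h hc⟩,
      ⟨fun h => absurd h (hU.2.1 ⟨hU.1.le, le_refl _⟩), fun h => absurd h hc⟩⟩

theorem colour_left {X : Set ℝ} (hPI : PI X) (hne : (JX X).Nonempty) :
    ∃ c : Prop, ∀ x, x ∉ JX X → (∃ z ∈ JX X, x < z) → (x ∈ X ↔ c) := by
  classical
  by_cases h : ∃ x0, x0 ∉ JX X ∧ (∃ z ∈ JX X, x0 < z)
  · obtain ⟨x0, hx0, z0, hz0, hxz0⟩ := h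
    refine ⟨x0 ∈ X, fun x hx ⟨z, hz, hxz⟩ => ?_⟩
    rcases left_out hPI hx0 hz0 hxz0 with ⟨h1, h2⟩ | ⟨h1, h2⟩ <;> rcases left_out hPI hx hz hxz with ⟨h3, h4⟩ | ⟨h3, h4⟩
    · exact ⟨fun _ => h1, fun _ => h3⟩
    · exfalso
      exact (h4 (mem_Iic.2 (min_le_left x x0))) (h2 (mem_Iic.2 (min_le_right x x0)))
    · exfalso
      exact (h2 (mem_Iic.2 (min_le_right x x0))) (h4 (mem_Iic.2 (min_le_left x x0)))
    · exact ⟨fun h => absurd h h3, fun h => absurd h h1⟩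
  · exact ⟨True, fun x hx hz => absurd ⟨x, hx, hz⟩ h⟩

theorem colour_right {X : Set ℝ} (hPI : PI X) (hne : (JX X).Nonempty) :
    ∃ c : Prop, ∀ x, x ∉ JX X → (∃ z ∈ JX X, z < x) → (x ∈ X ↔ c) := by
  classical
  by_cases h : ∃ x0, x0 ∉ JX X ∧ (∃ z ∈ JX X, z < x0)
  · obtain ⟨x0, hx0, z0, hz0, hxz0⟩ := h
    refine ⟨x0 ∈ X, fun x hx ⟨z, hz, hxz⟩ => ?_⟩
    rcases right_out hPI hx0 hz0 hxz0 with ⟨h1, h2⟩ | ⟨h1, h2⟩ <;> rcases right_out hPI hx hz hxz with ⟨h3, h4⟩ | ⟨h3, h4⟩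
    · exact ⟨fun _ => h1, fun _ => h3⟩
    · exfalso
      exact (h4 (mem_Ici.2 (le_max_left x x0))) (h2 (mem_Ici.2 (le_max_right x x0)))
    · exfalso
      exact (h2 (mem_Ici.2 (le_max_right x x0))) (h4 (mem_Ici.2 (le_max_left x x0)))
    · exact ⟨fun h => absurd h h3, fun h => absurd h h1⟩
  · exact ⟨True, fun x hx hz => absurd ⟨x, hx, hz⟩ h⟩

/-- rich sets with dense blue gaps are mutually reducible -/
theorem comp2 (h3 : StmM3) (h4 : StmM4) (h5 : StmM5) (h6 : StmM6) {X Y : Set ℝ} (hX : PI X) (hY : PI Y)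
    (fX : Fs X) (fY : Fs Y) (gX : Good X) (gY : Good Y) (nX : (∃ x, x ∈ X) ∧ ∃ x, x ∉ X) (nY : (∃ x, x ∈ Y) ∧ ∃ x, x ∉ Y)
    (bX : DenseBlue X univ) (bY : DenseBlue Y univ) : Red X Y := by
  have eX := JX_end hX nX.1 nX.2
  obtain ⟨⟨y1, hy1⟩, ⟨y2, hy2⟩⟩ := nY
  obtain ⟨cL, hcL⟩ := colour_left hX eX.nonempty
  obtain ⟨cR, hcR⟩ := colour_right hX eX.nonempty
  obtain ⟨U, hU, hU1, hU2, _, hUc⟩ := gap_col gY bY (exists_mix hy1 hy2) cL
  obtain ⟨V, hV, hV1, hV2, hVc, _⟩ := gap_col gY bY (mix_right hY hU hU2) cR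
  obtain ⟨g, hm, hc, him, hcol⟩ := local_red h3 h4 h5 h6 hX hY fX fY gX gY eX (EndJ_between hY hU hV hV1)
    (Or.inr ⟨bX.mono (subset_univ _), bY.mono (subset_univ _)⟩)
  exact glue eX.nonempty hV1 hm hc him hcol (fun x hx hz => hUc.trans (hcL x hx hz).symm) (fun x hx hz => hVc.trans (hcR x hx hz).symm)

/-- a rich set without blue gaps and without rays reduces to every rich set having an interval without blue gaps -/
theorem comp1 (h3 : StmM3) (h4 : StmM4) (h5 : StmM5) (h6 : StmM6) {W Y : Set ℝ} (hW : PI W) (hY : PI Y)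
    (fW : Fs W) (fY : Fs Y) (gW : Good W) (gY : Good Y) (nW : (∃ x, x ∈ W) ∧ ∃ x, x ∉ W)
    (bW : NoBlue W univ) (rW : JX W = univ) {p q : ℝ} (hpq : Mix Y p q) (bY : NoBlue Y (Ioo p q)) : Red W Y := by
  have eW := JX_end hW nW.1 nW.2
  obtain ⟨U, hU, hU1, hU2⟩ := good_gap gY hpq
  obtain ⟨V, hV, hV1, hV2⟩ := good_gap gY (mix_right hY (Or.inl hU) hU2)
  obtain ⟨g, hm, hc, him, hcol⟩ := local_red h3 h4 h5 h6 hW hY fW fY gW gY eW (EndJ_between hY (Or.inl hU) (Or.inl hV) hV1)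
    (Or.inl ⟨fun Z hZ => bW Z (subset_univ _), fun Z hZ => bY Z (fun w hw => ⟨by
      have := (hZ hw).1; have := hU.1; linarith, by
      have := (hZ hw).2; have := hV.1; linarith⟩)⟩)
  refine glue eW.nonempty hV1 hm hc him hcol (fun x hx => ?_) (fun x hx => ?_)
  · exact absurd (rW ▸ mem_univ x) hx
  · exact absurd (rW ▸ mem_univ x) hx

theorem Red.trans {A B C : Set ℝ} (h1 : Red A B) (h2 : Red B C) : Red A C := by
  obtain ⟨f, hf, rfl⟩ := h1
  obtain ⟨g, hg, rfl⟩ := h2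
  exact ⟨g ∘ f, hg.comp hf, rfl⟩

theorem Qs_countable : Qs.Countable := Set.countable_range _

theorem fs_of_red {A : Set ℝ} (h : Red A Qs) : Fs A := by
  obtain ⟨f, hf, rfl⟩ := h
  obtain ⟨u, hu⟩ := Qs_countable.exists_eq_range ⟨(0 : ℝ), ⟨0, by simp⟩⟩
  refine ⟨fun n => f ⁻¹' {u n}, fun n => isClosed_singleton.preimage hf, ?_⟩
  rw [hu]
  ext x
  simp [eq_comm]

theorem pi_of_red {A : Set ℝ} (h : Red A Qs) : PI A := by
  obtain ⟨f, hf, rfl⟩ := h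
  have hconst : ∀ a b : ℝ, a < b → (f '' (Ioo a b)).Subsingleton → Icc a b ⊆ f ⁻¹' (f '' (Ioo a b)) := by
    intro a b hab hs x hx
    have hm : (a + b) / 2 ∈ Ioo a b := ⟨by linarith, by linarith⟩
    have h1 : f '' (Ioo a b) = {f ((a + b) / 2)} := hs.eq_singleton_of_mem ⟨_, hm, rfl⟩
    have h2 : Icc a b ⊆ closure (Ioo a b) := by rw [closure_Ioo hab.ne]
    have h3 : f x ∈ closure (f '' (Ioo a b)) := image_closure_subset_closure_image hf ⟨x, h2 hx, rfl⟩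
    rw [h1, closure_singleton] at h3
    rw [mem_preimage, h1]; exact h3
  have hsub : ∀ a b : ℝ, a < b → (Ioo a b ⊆ f ⁻¹' Qs ∨ Ioo a b ⊆ (f ⁻¹' Qs)ᶜ) → (f '' (Ioo a b)).Subsingleton := by
    intro a b hab h
    have hpre : IsPreconnected (f '' (Ioo a b)) := isPreconnected_Ioo.image f hf.continuousOn
    by_contra hns
    rw [Set.not_subsingleton_iff] at hns
    obtain ⟨u, hu, v, hv, huv⟩ := hns
    wlog hlt : u < v generalizing u v
    · exact this v hv u hu huv.symm (lt_of_le_of_ne (not_lt.1 hlt) huv.symm)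
    have hoc : Icc u v ⊆ f '' (Ioo a b) := hpre.Icc_subset hu hv
    rcases h with h | h
    · -- an irrational between
      obtain ⟨r, hr, hr1, hr2⟩ := exists_irrational_btwn hlt
      obtain ⟨t, ht, rfl⟩ := hoc ⟨hr1.le, hr2.le⟩
      exact hr (h ht)
    · obtain ⟨r, hr1, hr2⟩ := exists_rat_btwn hlt
      obtain ⟨t, ht, htr⟩ := hoc ⟨hr1.le, hr2.le⟩
      exact h ht (by rw [mem_preimage, htr]; exact ⟨r, rfl⟩)
  intro a b hab
  constructor
  · intro h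
    refine (hconst a b hab (hsub a b hab (Or.inl h))).trans ?_
    rintro x ⟨t, ht, htx⟩
    rw [mem_preimage, ← htx]; exact h ht
  · intro h
    refine (hconst a b hab (hsub a b hab (Or.inr h))).trans ?_
    rintro x ⟨t, ht, htx⟩
    intro hx
    apply h ht
    rw [mem_preimage, htx]; exact hx

theorem not_open_of_pi {X : Set ℝ} (hPI : PI X) (h1 : ∃ x, x ∈ X) (h2 : ∃ x, x ∉ X) : ¬ IsOpen X := by
  intro ho
  obtain ⟨y, hy⟩ := h1
  obtain ⟨z, hz⟩ := h2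
  obtain ⟨w, ⟨_, hw⟩⟩ : ∃ w, w ∉ X ∧ (∃ d > 0, Ioo w (w + d) ⊆ X ∨ Ioo (w - d) w ⊆ X) := by
    rcases lt_trichotomy y z with h | h | h
    · -- first point outside X after y
      set S : Set ℝ := Xᶜ ∩ Icc y z with hS
      have hSc : IsClosed S := ho.isClosed_compl.inter isClosed_Icc
      have hSne : S.Nonempty := ⟨z, hz, ⟨h.le, le_refl _⟩⟩
      have hSb : BddBelow S := ⟨y, fun t ht => ht.2.1⟩
      have hmem : sInf S ∈ S := hSc.csInf_mem hSne hSb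
      have hys : y < sInf S := lt_of_le_of_ne hmem.2.1 (fun h => hmem.1 (h ▸ hy))
      refine ⟨sInf S, hmem.1, sInf S - y, by linarith, Or.inr ?_⟩
      intro t ht
      by_contra htX
      have : sInf S ≤ t := csInf_le hSb ⟨htX, ⟨by linarith [ht.1], by linarith [ht.2, hmem.2.2]⟩⟩
      linarith [ht.2]
    · exact absurd (h ▸ hy) hz
    · set S : Set ℝ := Xᶜ ∩ Icc z y with hS
      have hSc : IsClosed S := ho.isClosed_compl.inter isClosed_Icc
      have hSne : S.Nonempty := ⟨z, hz, ⟨le_refl _, h.le⟩⟩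
      have hSb : BddAbove S := ⟨y, fun t ht => ht.2.2⟩
      have hmem : sSup S ∈ S := hSc.csSup_mem hSne hSb
      have hys : sSup S < y := lt_of_le_of_ne hmem.2.2 (fun h => hmem.1 (h ▸ hy))
      refine ⟨sSup S, hmem.1, y - sSup S, by linarith, Or.inl ?_⟩
      intro t ht
      by_contra htX
      have : t ≤ sSup S := le_csSup hSb ⟨htX, ⟨by linarith [ht.1, hmem.2.1], by linarith [ht.2]⟩⟩
      linarith [ht.1]
  obtain ⟨d, hd, h | h⟩ := hw
  · exact ‹w ∉ X› ((hPI w (w + d) (by linarith)).1 h ⟨le_refl _, by linarith⟩)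
  · exact ‹w ∉ X› ((hPI (w - d) w (by linarith)).1 h ⟨by linarith, le_refl _⟩)

theorem inD_of {A : Set ℝ} (h : Red A Qs) (h1 : ∃ x, x ∈ A) (h2 : ∃ x, x ∉ A) : InD A := by
  have hp := pi_of_red h
  refine ⟨h, not_open_of_pi hp h1 h2, fun hc => ?_⟩
  obtain ⟨x, hx⟩ := h1
  exact not_open_of_pi hp.compl h2 ⟨x, fun hx' => hx' hx⟩ hc.isOpen_compl

theorem inD_nontriv {A : Set ℝ} (h : InD A) : (∃ x, x ∈ A) ∧ ∃ x, x ∉ A := by
  constructor
  · by_contra hcon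
    push Not at hcon
    have : A = ∅ := eq_empty_of_forall_notMem hcon
    exact h.2.1 (this ▸ isOpen_empty)
  · by_contra hcon
    push Not at hcon
    have : A = univ := eq_univ_of_forall hcon
    exact h.2.1 (this ▸ isOpen_univ)

/-- the main argument -/
theorem main_arg (h1 : StmM1) (h2 : StmM2) (h3 : StmM3) (h4 : StmM4) (h5 : StmM5) (h6 : StmM6)
    {W E : Set ℝ} (hW : InD W) (tW : T2 W) (dW : ∀ a b : ℝ, a < b → ∃ x ∈ Ioo a b, x ∈ W) (rW : JX W = univ)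
    (bW : NoBlue W univ) (hE : InD E) (hEW : Red E W) (bE : DenseBlue E univ) :
    (∀ B : Set ℝ, ¬ IsOpen B → ¬ IsClosed B → Red B E → Red E B) ∧ ¬ Red W E ∧
    (∀ X, InD X → Red X W → (Red W X ∨ (Red X E ∧ Red E X))) ∧
    ¬ ∃ S : ℕ → Set ℝ, S 0 = W ∧ ∀ n, InD (S n) ∧ Red (S (n + 1)) (S n) ∧ ¬ Red (S n) (S (n + 1)) := by
  have pW := pi_of_red hW.1
  have hnot : ¬ Red W E := by
    rintro ⟨g, hg, hWg⟩
    obtain ⟨⟨x, hx⟩, ⟨y, hy⟩⟩ := inD_nontriv hW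
    have hx' : g x ∈ E := by rw [hWg] at hx; exact hx
    have hy' : g y ∉ E := by intro h; apply hy; rw [hWg]; exact h
    have hPE := pi_of_red hE.1
    have hsub : Icc (min (g x) (g y)) (max (g x) (g y)) ⊆ range g := by
      have : IsPreconnected (range g) := isPreconnected_range hg
      rcases le_total (g x) (g y) with h | h
      · rw [min_eq_left h, max_eq_right h]; exact this.Icc_subset ⟨x, rfl⟩ ⟨y, rfl⟩
      · rw [min_eq_right h, max_eq_left h]; exact this.Icc_subset ⟨y, rfl⟩ ⟨x, rfl⟩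
    have hlt : min (g x) (g y) < max (g x) (g y) := by
      rcases lt_trichotomy (g x) (g y) with h | h | h
      · rw [min_eq_left h.le, max_eq_right h.le]; exact h
      · rw [h] at hx'; exact absurd hx' hy'
      · rw [min_eq_right h.le, max_eq_left h.le]; exact h
    have hmix : Mix E (min (g x) (g y)) (max (g x) (g y)) := by
      constructor
      · by_contra hcon
        push Not at hcon
        have := (hPE _ _ hlt).2 (fun z hz => hcon z hz)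
        exact this (show g x ∈ Icc _ _ from ⟨min_le_left _ _, le_max_left _ _⟩) hx'
      · by_contra hcon
        push Not at hcon
        have := (hPE _ _ hlt).1 (fun z hz => hcon z hz)
        exact hy' (this ⟨min_le_right _ _, le_max_right _ _⟩)
    obtain ⟨U, hU, hU1, hU2⟩ := bE _ _ (subset_univ _) hmix
    -- the preimage of the open gap is a nonempty open set outside W
    have hopen : IsOpen (g ⁻¹' (Ioo U.1 U.2)) := isOpen_Ioo.preimage hg
    have hmid : (U.1 + U.2) / 2 ∈ Ioo U.1 U.2 := ⟨by linarith [hU.1], by linarith [hU.1]⟩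
    obtain ⟨t, ht⟩ := hsub (show (U.1 + U.2) / 2 ∈ Icc (min (g x) (g y)) (max (g x) (g y)) from ⟨by linarith [hmid.1], by linarith [hmid.2]⟩)
    have htm : t ∈ g ⁻¹' (Ioo U.1 U.2) := by rw [mem_preimage, ht]; exact hmid
    obtain ⟨a, b, hab, habs⟩ := (mem_nhds_iff_exists_Ioo_subset.1 (hopen.mem_nhds htm))
    obtain ⟨w, hw, hwW⟩ := dW a b (hab.1.trans hab.2)
    have h7 := habs hw
    rw [hWg] at hwW
    exact hU.2.1 ⟨h7.1.le, h7.2.le⟩ hwW
  have hgood : ∀ X, InD X → Red X W → Good X := by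
    intro X hX ⟨g, hg, hXg⟩
    exact h2 X (pi_of_red hX.1) (h1 X W g hg hXg pW tW)
  have hdic : ∀ X, InD X → Red X W → ¬ Red W X → DenseBlue X univ := by
    intro X hX hXW hWX p q _ hm
    by_contra hcon
    push Not at hcon
    apply hWX
    refine comp1 h3 h4 h5 h6 pW (pi_of_red hX.1) (fs_of_red hW.1) (fs_of_red hX.1) (hgood W hW ⟨id, continuous_id, rfl⟩)
      (hgood X hX hXW) (inD_nontriv hW) bW rW hm ?_
    intro U hU hg
    have h8 := hU (show U.1 ∈ Icc U.1 U.2 from ⟨le_refl _, hg.1.le⟩)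
    have h9 := hU (show U.2 ∈ Icc U.1 U.2 from ⟨hg.1.le, le_refl _⟩)
    exact absurd h9.2 (not_lt.2 (hcon U hg h8.1))
  have hequiv : ∀ X Y, InD X → Red X W → ¬ Red W X → InD Y → Red Y W → ¬ Red W Y → Red X Y := by
    intro X Y hX hXW hWX hY hYW hWY
    exact comp2 h3 h4 h5 h6 (pi_of_red hX.1) (pi_of_red hY.1) (fs_of_red hX.1) (fs_of_red hY.1) (hgood X hX hXW) (hgood Y hY hYW)
      (inD_nontriv hX) (inD_nontriv hY) (hdic X hX hXW hWX) (hdic Y hY hYW hWY)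
  refine ⟨?_, hnot, ?_, ?_⟩
  · intro B hB1 hB2 hBE
    have hBD : InD B := ⟨hBE.trans hE.1, hB1, hB2⟩
    exact hequiv E B hE hEW hnot hBD (hBE.trans hEW) (fun h => hnot (h.trans hBE))
  · intro X hX hXW
    by_cases h : Red W X
    · exact Or.inl h
    · exact Or.inr ⟨hequiv X E hX hXW h hE hEW hnot, hequiv E X hE hEW hnot hX hXW h⟩
  · rintro ⟨S, hS0, hS⟩
    have hr1 : Red (S 1) W := by have := (hS 0).2.1; rwa [hS0] at this
    have hn1 : ¬ Red W (S 1) := by have := (hS 0).2.2; rwa [hS0] at this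
    have hr2 : Red (S 2) W := (hS 1).2.1.trans hr1
    have hn2 : ¬ Red W (S 2) := fun h => hn1 (h.trans (hS 1).2.1)
    exact (hS 1).2.2 (hequiv (S 1) (S 2) (hS 1).1 hr1 hn1 (hS 2).1 hr2 hn2)

end Pool.Agent.R270.WF
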