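import Pool.Agent.R270.WF.Stm

/-! # WF-M8a: blowing up the points of a countable set -/

namespace Pool.Agent.R270.WF
open Set MeasureTheory

theorem stmM8a : StmM8a := by
  intro S hS
  have : Countable S := hS.to_subtype
  obtain ⟨w, hw0, hw1⟩ := ENNReal.exists_pos_sum_of_countable' (ε := 1) one_ne_zero S
  set μ : Measure ℝ := Measure.sum (fun i : S => w i • Measure.dirac (i : ℝ)) with hμ
  have hμapp : ∀ A : Set ℝ, MeasurableSet A → μ A = ∑' i : S, w i * Measure.dirac (i : ℝ) A := by
    intro A hA
    rw [hμ, Measure.sum_apply _ hA]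
    rfl
  have huniv : μ univ < 1 := by
    rw [hμapp _ MeasurableSet.univ]
    simpa using hw1
  have : IsFiniteMeasure μ := ⟨huniv.trans ENNReal.one_lt_top⟩
  have hle1 : ∀ A : Set ℝ, μ.real A ≤ 1 := by
    intro A
    have h1 : μ A ≤ 1 := (measure_mono (subset_univ A)).trans huniv.le
    have := ENNReal.toReal_mono ENNReal.one_ne_top h1
    simpa [Measure.real] using this
  have h0le : ∀ A : Set ℝ, 0 ≤ μ.real A := fun A => measureReal_nonneg
  set g1 : ℝ → ℝ := fun y => y + μ.real (Iio y) with hg1
  set g2 : ℝ → ℝ := fun y => y + μ.real (Iic y) with hg2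
  have F2 : ∀ y y', y < y' → g2 y + (y' - y) ≤ g1 y' := by
    intro y y' h
    have : μ.real (Iic y) ≤ μ.real (Iio y') :=
      measureReal_mono (fun z hz => lt_of_le_of_lt hz h)
    simp only [hg1, hg2]; linarith
  have F1 : ∀ y y', y ≤ y' → g1 y + (y' - y) ≤ g1 y' := by
    intro y y' h
    have : μ.real (Iio y) ≤ μ.real (Iio y') :=
      measureReal_mono (Iio_subset_Iio h)
    simp only [hg1]; linarith
  have F3 : ∀ y, g1 y ≤ g2 y := by
    intro y
    have : μ.real (Iio y) ≤ μ.real (Iic y) := measureReal_mono Iio_subset_Iic_self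
    simp only [hg1, hg2]; linarith
  set K : ℝ → Set ℝ := fun x => {y | g1 y ≤ x} with hK
  set c : ℝ → ℝ := fun x => sSup (K x) with hc
  have hne : ∀ x, x - 1 ∈ K x := by
    intro x
    have := hle1 (Iio (x - 1))
    change x - 1 + μ.real (Iio (x - 1)) ≤ x; linarith
  have hub : ∀ x, ∀ y ∈ K x, y ≤ x := by
    intro x y hy
    have h1 := h0le (Iio y)
    have h2 : y + μ.real (Iio y) ≤ x := hy
    linarith
  have hbdd : ∀ x, BddAbove (K x) := fun x => ⟨x, hub x⟩
  have hcle : ∀ x, c x ≤ x := fun x => csSup_le ⟨_, hne x⟩ (hub x)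
  have hcge : ∀ x, x - 1 ≤ c x := fun x => le_csSup (hbdd x) (hne x)
  have hmono : Monotone c := by
    intro x x' h
    exact csSup_le_csSup (hbdd x') ⟨_, hne x⟩ (fun y hy => le_trans hy h)
  have hlip : LipschitzWith 1 c := by
    apply LipschitzWith.of_le_add
    intro x y
    rcases le_total x y with h | h
    · have := hmono h
      have := dist_nonneg (x := x) (y := y)
      linarith
    · apply csSup_le ⟨_, hne x⟩
      intro z hz
      have h1 : z - (x - y) ∈ K y := by
        have := F1 (z - (x - y)) z (by linarith)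
        have hz' : g1 z ≤ x := hz
        show g1 (z - (x - y)) ≤ y
        linarith
      have h2 := le_csSup (hbdd y) h1
      rw [Real.dist_eq, abs_of_nonneg (by linarith)]
      have h3 : c y = sSup (K y) := rfl
      linarith
  have hci : ∀ x y, g1 y ≤ x → x ≤ g2 y → c x = y := by
    intro x y h1 h2
    apply le_antisymm
    · apply csSup_le ⟨_, hne x⟩
      intro y' hy'
      by_contra hlt
      push Not at hlt
      have h3 := F2 y y' hlt
      have h4 : g1 y' ≤ x := hy'
      linarith
    · exact le_csSup (hbdd x) h1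
  have hsurj : Function.Surjective c := fun y => ⟨g1 y, hci _ _ le_rfl (F3 y)⟩
  have hint : ∀ y, ∃ a b : ℝ, c ⁻¹' {y} = Icc a b ∧ g1 y ∈ Icc a b ∧ g2 y ∈ Icc a b := by
    intro y
    have hin1 : g1 y ∈ c ⁻¹' {y} := hci _ _ le_rfl (F3 y)
    have hin2 : g2 y ∈ c ⁻¹' {y} := hci _ _ (F3 y) le_rfl
    have hoc : OrdConnected (c ⁻¹' {y}) := by
      constructor
      intro a ha b hb z hz
      have h1 := hmono hz.1
      have h2 := hmono hz.2
      have ha' : c a = y := ha
      have hb' : c b = y := hb
      have : c z = y := by linarith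
      exact this
    have hclosed : IsClosed (c ⁻¹' {y}) := isClosed_singleton.preimage hlip.continuous
    have hb1 : BddBelow (c ⁻¹' {y}) := ⟨y, fun z hz => by
      have : c z = y := hz
      have := hcle z
      linarith⟩
    have hb2 : BddAbove (c ⁻¹' {y}) := ⟨y + 1, fun z hz => by
      have : c z = y := hz
      have := hcge z
      linarith⟩
    have hconn : IsConnected (c ⁻¹' {y}) := ⟨⟨_, hin1⟩, hoc.isPreconnected⟩
    have heq := eq_Icc_csInf_csSup_of_connected_bdd_closed hconn hb1 hb2 hclosed
    refine ⟨_, _, heq, ?_, ?_⟩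
    · rw [← heq]; exact hin1
    · rw [← heq]; exact hin2
  refine ⟨c, hlip.continuous, hmono, hsurj, ?_, ?_⟩
  · intro y hy
    obtain ⟨a, b, hab, h1, h2⟩ := hint y
    refine ⟨a, b, ?_, hab⟩
    have hpos : 0 < μ.real {y} := by
      have h3 : μ {y} ≠ 0 := by
        rw [hμapp _ (measurableSet_singleton y)]
        rw [Ne, ENNReal.tsum_eq_zero]
        push Not
        refine ⟨⟨y, hy⟩, ?_⟩
        simp [(hw0 ⟨y, hy⟩).ne']
      exact ENNReal.toReal_pos h3 (measure_ne_top μ _)
    have hlt : g1 y < g2 y := by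
      have h4 : μ.real (Iic y) = μ.real (Iio y) + μ.real {y} := by
        rw [← measureReal_union (by simp) (measurableSet_singleton y)]
        congr 1
        ext z; simp [le_iff_lt_or_eq, or_comm]
      simp only [hg1, hg2]; linarith
    exact lt_of_le_of_lt h1.1 (lt_of_lt_of_le hlt h2.2)
  · intro y hy
    obtain ⟨a, b, hab, h1, h2⟩ := hint y
    refine ⟨a, ?_⟩
    rw [hab]
    have hle : a ≤ b := h1.1.trans h1.2
    rcases eq_or_lt_of_le hle with h | hlt
    · subst h; exact Icc_self a
    exfalso
    have hca : c a = y := by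
      have : a ∈ c ⁻¹' {y} := by rw [hab]; exact ⟨le_rfl, hle⟩
      exact this
    have hcb : c b = y := by
      have : b ∈ c ⁻¹' {y} := by rw [hab]; exact ⟨hle, le_rfl⟩
      exact this
    have hzero : μ {y} = 0 := by
      rw [hμapp _ (measurableSet_singleton y), ENNReal.tsum_eq_zero]
      intro i
      have : (i : ℝ) ≠ y := fun h => hy (h ▸ i.2)
      simp [this]
    obtain ⟨U, hyU, hUo, hUlt⟩ := Set.exists_isOpen_lt_of_lt ({y} : Set ℝ)
      (μ := μ) (ENNReal.ofReal ((b - a) / 2)) (by
        rw [hzero]; exact ENNReal.ofReal_pos.2 (by linarith))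
    obtain ⟨δ, hδ, hball⟩ := Metric.isOpen_iff.1 hUo y (hyU rfl)
    set δ' := min δ ((b - a) / 2) with hδ'
    have hδ'pos : 0 < δ' := lt_min hδ (by linarith)
    have hd1 : δ' ≤ δ := min_le_left _ _
    have hd2 : δ' ≤ (b - a) / 2 := min_le_right _ _
    have hA : b < g1 (y + δ' / 2) := by
      by_contra hcon
      push Not at hcon
      have := le_csSup (hbdd b) (show y + δ' / 2 ∈ K b from hcon)
      have h5 : c b = sSup (K b) := rfl
      linarith
    have hB : g1 (y - δ' / 2) ≤ a := by
      have h6 : y - δ' / 2 < sSup (K a) := by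
        have h5 : c a = sSup (K a) := rfl
        linarith
      obtain ⟨z, hz, hlt'⟩ := exists_lt_of_lt_csSup ⟨_, hne a⟩ h6
      have h7 := F1 _ _ hlt'.le
      have h8 : g1 z ≤ a := hz
      linarith
    have hC : μ.real (Iio (y + δ' / 2)) ≤ μ.real (Iio (y - δ' / 2)) + μ.real U := by
      refine (measureReal_mono ?_).trans (measureReal_union_le _ _)
      intro z hz
      by_cases hz' : z < y - δ' / 2
      · exact Or.inl hz'
      · refine Or.inr (hball ?_)
        rw [Metric.mem_ball, Real.dist_eq, abs_lt]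
        push Not at hz'
        have hz2 : z < y + δ' / 2 := hz
        constructor <;> linarith
    have hD : μ.real U < (b - a) / 2 := by
      have := (ENNReal.toReal_lt_toReal (measure_ne_top μ U) ENNReal.ofReal_ne_top).2 hUlt
      rwa [ENNReal.toReal_ofReal (by linarith)] at this
    have e1 : g1 (y + δ' / 2) = y + δ' / 2 + μ.real (Iio (y + δ' / 2)) := rfl
    have e2 : g1 (y - δ' / 2) = y - δ' / 2 + μ.real (Iio (y - δ' / 2)) := rfl
    linarith

end Pool.Agent.R270.WF
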