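import Pool.Agent.R270.WF.Stm

/-! Project WF: piece M8b (a typical continuous function, by Baire category). -/

set_option autoImplicit false

namespace Pool.Agent.R270.WF

open Set BoundedContinuousFunction

namespace M8b

/-- the wave with nodes at `t0 + k δ` -/
noncomputable def wave (t0 δ η : ℝ) : ℝ →ᵇ ℝ :=
  BoundedContinuousFunction.ofNormedAddCommGroup (fun t => η * Real.cos (Real.pi * ((t - t0) / δ)))
    (by fun_prop) |η| (by
      intro t
      rw [Real.norm_eq_abs, abs_mul]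
      exact mul_le_of_le_one_right (abs_nonneg _) (Real.abs_cos_le_one _))

lemma wave_norm (t0 δ η : ℝ) : ‖wave t0 δ η‖ ≤ |η| :=
  BoundedContinuousFunction.norm_ofNormedAddCommGroup_le _ (abs_nonneg _) _

lemma wave_at {t0 δ η : ℝ} (hδ : δ ≠ 0) (k : ℤ) : wave t0 δ η (t0 + k * δ) = η * (-1) ^ k := by
  show η * Real.cos (Real.pi * ((t0 + k * δ - t0) / δ)) = _
  have h1 : Real.pi * ((t0 + k * δ - t0) / δ) = k * Real.pi := by
    field_simp
    ring
  rw [h1, Real.cos_int_mul_pi]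

/-- the set of functions with the alternating sign pattern -/
def SG (l r s : ℝ) : Set (ℝ →ᵇ ℝ) :=
  {f | (∀ t ∈ Icc r s, f t ≠ l) ∨ ∃ t1 t2 t3 t4 : ℝ, r < t1 ∧ t1 < t2 ∧ t2 < t3 ∧ t3 < t4 ∧ t4 < s ∧
    l < f t1 ∧ f t2 < l ∧ l < f t3 ∧ f t4 < l}

/-- functions which are not constant on an interval -/
def GC (r s : ℝ) : Set (ℝ →ᵇ ℝ) := {f | ∃ x ∈ Ioo r s, ∃ y ∈ Ioo r s, f x ≠ f y}

lemma eval_cont (t : ℝ) : Continuous (fun f : ℝ →ᵇ ℝ => f t) :=
  continuous_eval_const t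

lemma GC_open (r s : ℝ) : IsOpen (GC r s) := by
  have : GC r s = ⋃ x ∈ Ioo r s, ⋃ y ∈ Ioo r s, {f : ℝ →ᵇ ℝ | f x ≠ f y} := by
    ext f
    simp only [GC, mem_ofPred_eq, mem_iUnion, exists_prop]
  rw [this]
  refine isOpen_biUnion fun x _ => isOpen_biUnion fun y _ => ?_
  exact isOpen_ne_fun (eval_cont x) (eval_cont y)

lemma SG_open (l r s : ℝ) : IsOpen (SG l r s) := by
  have h1 : IsOpen {f : ℝ →ᵇ ℝ | ∀ t ∈ Icc r s, f t ≠ l} := by
    rw [Metric.isOpen_iff]
    intro f hf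
    rcases (Icc r s).eq_empty_or_nonempty with he | hne
    · exact ⟨1, one_pos, fun g _ t ht => by rw [he] at ht; exact absurd ht (notMem_empty _)⟩
    · obtain ⟨t0, ht0, hmin⟩ := isCompact_Icc.exists_isMinOn hne
        (f := fun t => |f t - l|) (by fun_prop)
      refine ⟨|f t0 - l|, abs_pos.2 (sub_ne_zero.2 (hf t0 ht0)), ?_⟩
      intro g hg t ht hgt
      have h2 : |f t0 - l| ≤ |f t - l| := hmin ht
      have h3 : dist (g t) (f t) ≤ dist g f := BoundedContinuousFunction.dist_coe_le_dist t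
      rw [Metric.mem_ball] at hg
      rw [hgt, Real.dist_eq, abs_sub_comm] at h3
      linarith
  have h2 : {f : ℝ →ᵇ ℝ | ∃ t1 t2 t3 t4 : ℝ, r < t1 ∧ t1 < t2 ∧ t2 < t3 ∧ t3 < t4 ∧ t4 < s ∧
      l < f t1 ∧ f t2 < l ∧ l < f t3 ∧ f t4 < l} =
      ⋃ (t1 : ℝ) (t2 : ℝ) (t3 : ℝ) (t4 : ℝ)
        (_ : r < t1 ∧ t1 < t2 ∧ t2 < t3 ∧ t3 < t4 ∧ t4 < s),
        {f : ℝ →ᵇ ℝ | l < f t1 ∧ f t2 < l ∧ l < f t3 ∧ f t4 < l} := by
    ext f
    simp only [mem_ofPred_eq, mem_iUnion, exists_prop]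
    constructor
    · rintro ⟨t1, t2, t3, t4, a1, a2, a3, a4, a5, b⟩
      exact ⟨t1, t2, t3, t4, ⟨a1, a2, a3, a4, a5⟩, b⟩
    · rintro ⟨t1, t2, t3, t4, ⟨a1, a2, a3, a4, a5⟩, b⟩
      exact ⟨t1, t2, t3, t4, a1, a2, a3, a4, a5, b⟩
  have h3 : IsOpen {f : ℝ →ᵇ ℝ | ∃ t1 t2 t3 t4 : ℝ, r < t1 ∧ t1 < t2 ∧ t2 < t3 ∧ t3 < t4 ∧ t4 < s ∧
      l < f t1 ∧ f t2 < l ∧ l < f t3 ∧ f t4 < l} := by
    rw [h2]
    refine isOpen_iUnion fun t1 => isOpen_iUnion fun t2 => isOpen_iUnion fun t3 =>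
      isOpen_iUnion fun t4 => isOpen_iUnion fun _ => ?_
    exact (isOpen_lt continuous_const (eval_cont t1)).inter
      ((isOpen_lt (eval_cont t2) continuous_const).inter
        ((isOpen_lt continuous_const (eval_cont t3)).inter
          (isOpen_lt (eval_cont t4) continuous_const)))
  exact h1.union h3

lemma GC_dense {r s : ℝ} (hrs : r < s) : Dense (GC r s) := by
  rw [Metric.dense_iff]
  intro g ε hε
  by_cases hg : g ∈ GC r s
  · exact ⟨g, Metric.mem_ball_self hε, hg⟩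
  · simp only [GC, mem_ofPred_eq, not_exists, not_and, not_not] at hg
    set t0 := (r + s) / 2 with ht0
    set δ := (s - r) / 4 with hδ
    have hδ0 : 0 < δ := by rw [hδ]; linarith
    refine ⟨g + wave t0 δ (ε / 2), ?_, ?_⟩
    · rw [Metric.mem_ball, dist_eq_norm, add_sub_cancel_left]
      refine (wave_norm _ _ _).trans_lt ?_
      rw [abs_of_pos (by linarith)]
      linarith
    · refine ⟨t0 + (0 : ℤ) * δ, ⟨by push_cast; linarith, by push_cast; linarith⟩,
        t0 + (1 : ℤ) * δ, ⟨by push_cast; linarith, by push_cast; linarith⟩, ?_⟩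
      rw [BoundedContinuousFunction.add_apply, BoundedContinuousFunction.add_apply,
        wave_at hδ0.ne', wave_at hδ0.ne',
        hg (t0 + (0 : ℤ) * δ) ⟨by push_cast; linarith, by push_cast; linarith⟩
          (t0 + (1 : ℤ) * δ) ⟨by push_cast; linarith, by push_cast; linarith⟩]
      norm_num
      linarith

lemma SG_dense {l r s : ℝ} (hrs : r < s) : Dense (SG l r s) := by
  rw [Metric.dense_iff]
  intro g ε hε
  by_cases hg : ∀ t ∈ Icc r s, g t ≠ l
  · exact ⟨g, Metric.mem_ball_self hε, Or.inl hg⟩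
  push Not at hg
  obtain ⟨t0, ht0, hgt⟩ := hg
  have hcont : Continuous g := g.continuous
  obtain ⟨ρ, hρ, hρ2⟩ := Metric.continuous_iff.1 hcont t0 (ε / 4) (by linarith)
  -- pick the side
  have key : ∃ δ : ℝ, δ ≠ 0 ∧ 5 * |δ| < ρ ∧ ((0 < δ ∧ t0 + 5 * δ < s) ∨ (δ < 0 ∧ r < t0 + 5 * δ)) := by
    rcases lt_or_ge t0 s with h | h
    · refine ⟨min ρ (s - t0) / 6, ?_, ?_, Or.inl ⟨?_, ?_⟩⟩
      · have : 0 < min ρ (s - t0) := lt_min hρ (by linarith)
        positivity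
      · have : 0 < min ρ (s - t0) := lt_min hρ (by linarith)
        rw [abs_of_pos (by positivity)]
        have := min_le_left ρ (s - t0)
        linarith
      · have : 0 < min ρ (s - t0) := lt_min hρ (by linarith)
        positivity
      · have := min_le_right ρ (s - t0)
        have : 0 < min ρ (s - t0) := lt_min hρ (by linarith)
        linarith
    · have h' : r < t0 := hrs.trans_le h
      have h0 : 0 < min ρ (t0 - r) := lt_min hρ (by linarith)
      refine ⟨-(min ρ (t0 - r) / 6), ?_, ?_, Or.inr ⟨?_, ?_⟩⟩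
      · have : 0 < min ρ (t0 - r) / 6 := by positivity
        linarith
      · rw [abs_neg, abs_of_pos (by positivity)]
        have := min_le_left ρ (t0 - r)
        linarith
      · have : 0 < min ρ (t0 - r) / 6 := by positivity
        linarith
      · have := min_le_right ρ (t0 - r)
        linarith
  obtain ⟨δ, hδ, hδρ, hside⟩ := key
  have hval : ∀ k : ℤ, |(k : ℝ)| ≤ 5 → |g (t0 + k * δ) - l| < ε / 4 := by
    intro k hk
    have h1 : dist (t0 + k * δ) t0 < ρ := by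
      rw [Real.dist_eq, add_sub_cancel_left, abs_mul]
      refine lt_of_le_of_lt ?_ hδρ
      exact mul_le_mul_of_nonneg_right hk (abs_nonneg _)
    have h2 := hρ2 _ h1
    rwa [Real.dist_eq, hgt] at h2
  refine ⟨g + wave t0 δ (ε / 2), ?_, Or.inr ?_⟩
  · rw [Metric.mem_ball, dist_eq_norm, add_sub_cancel_left]
    refine (wave_norm _ _ _).trans_lt ?_
    rw [abs_of_pos (by linarith)]
    linarith
  have v1 := abs_lt.1 (hval 1 (by norm_num))
  have v2 := abs_lt.1 (hval 2 (by norm_num))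
  have v3 := abs_lt.1 (hval 3 (by norm_num))
  have v4 := abs_lt.1 (hval 4 (by norm_num))
  have v5 := abs_lt.1 (hval 5 (by norm_num))
  have w1 := wave_at (t0 := t0) (η := ε / 2) hδ 1
  have w2 := wave_at (t0 := t0) (η := ε / 2) hδ 2
  have w3 := wave_at (t0 := t0) (η := ε / 2) hδ 3
  have w4 := wave_at (t0 := t0) (η := ε / 2) hδ 4
  have w5 := wave_at (t0 := t0) (η := ε / 2) hδ 5
  have o1 : ((-1 : ℝ)) ^ (1 : ℤ) = -1 := by norm_num
  have o2 : ((-1 : ℝ)) ^ (2 : ℤ) = 1 := by norm_num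
  have o3 : ((-1 : ℝ)) ^ (3 : ℤ) = -1 := by norm_num
  have o4 : ((-1 : ℝ)) ^ (4 : ℤ) = 1 := by norm_num
  have o5 : ((-1 : ℝ)) ^ (5 : ℤ) = -1 := by norm_num
  rw [o1] at w1
  rw [o2] at w2
  rw [o3] at w3
  rw [o4] at w4
  rw [o5] at w5
  simp only [Int.cast_one, Int.cast_ofNat, one_mul] at w1 w2 w3 w4 w5 v1 v2 v3 v4 v5
  rcases hside with ⟨hp, hs⟩ | ⟨hn, hr⟩
  · refine ⟨t0 + 2 * δ, t0 + 3 * δ, t0 + 4 * δ, t0 + 5 * δ, ?_, by linarith, by linarith,
      by linarith, hs, ?_, ?_, ?_, ?_⟩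
    · have := ht0.1
      linarith
    · rw [BoundedContinuousFunction.add_apply, w2]; linarith [v2.1]
    · rw [BoundedContinuousFunction.add_apply, w3]; linarith [v3.2]
    · rw [BoundedContinuousFunction.add_apply, w4]; linarith [v4.1]
    · rw [BoundedContinuousFunction.add_apply, w5]; linarith [v5.2]
  · refine ⟨t0 + 4 * δ, t0 + 3 * δ, t0 + 2 * δ, t0 + δ, by linarith, by linarith, by linarith,
      by linarith, ?_, ?_, ?_, ?_, ?_⟩
    · have := ht0.2
      linarith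
    · rw [BoundedContinuousFunction.add_apply, w4]; linarith [v4.1]
    · rw [BoundedContinuousFunction.add_apply, w3]; linarith [v3.2]
    · rw [BoundedContinuousFunction.add_apply, w2]; linarith [v2.1]
    · rw [BoundedContinuousFunction.add_apply, w1]; linarith [v1.2]

/-- the function `5 sin` -/
noncomputable def fs : ℝ →ᵇ ℝ :=
  BoundedContinuousFunction.ofNormedAddCommGroup (fun t => 5 * Real.sin t) (by fun_prop) 5 (by
    intro t
    rw [Real.norm_eq_abs, abs_mul, abs_of_pos (by norm_num : (0:ℝ) < 5)]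
    have := Real.abs_sin_le_one t
    linarith)

end M8b

open M8b

theorem stmM8b : StmM8b := by
  intro L hL
  have hLc : Countable L := hL.to_subtype
  let U : (L × {p : ℚ × ℚ // p.1 < p.2}) ⊕ {p : ℚ × ℚ // p.1 < p.2} → Set (ℝ →ᵇ ℝ) :=
    Sum.elim (fun i => SG (i.1 : ℝ) (i.2.1.1 : ℝ) (i.2.1.2 : ℝ))
      (fun i => GC (i.1.1 : ℝ) (i.1.2 : ℝ))
  have hd : Dense (⋂ i, U i) := by
    apply dense_iInter_of_isOpen
    · rintro (i | i)
      · exact SG_open _ _ _
      · exact GC_open _ _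
    · rintro (i | i)
      · have h : ((i.2.1.1 : ℚ) : ℝ) < (i.2.1.2 : ℚ) := by exact_mod_cast i.2.2
        exact SG_dense h
      · have h : ((i.1.1 : ℚ) : ℝ) < (i.1.2 : ℚ) := by exact_mod_cast i.2
        exact GC_dense h
  obtain ⟨f, hf, hdist⟩ := hd.exists_dist_lt fs one_pos
  rw [mem_iInter] at hf
  have hf1 : ∀ l ∈ L, ∀ r s : ℚ, r < s → f ∈ SG l r s := fun l hl r s hrs =>
    hf (Sum.inl (⟨l, hl⟩, ⟨(r, s), hrs⟩))
  have hf2 : ∀ r s : ℚ, r < s → f ∈ GC r s := fun r s hrs => hf (Sum.inr ⟨(r, s), hrs⟩)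
  refine ⟨f, f.continuous, ?_, ?_, ?_⟩
  · intro t
    have h1 : dist (fs t) (f t) ≤ dist fs f := BoundedContinuousFunction.dist_coe_le_dist t
    rw [Real.dist_eq, abs_sub_comm] at h1
    exact h1.trans hdist.le
  · intro a b hab
    obtain ⟨r, hr1, hr2⟩ := exists_rat_btwn hab
    obtain ⟨s, hs1, hs2⟩ := exists_rat_btwn hr2
    obtain ⟨x, hx, y, hy, hne⟩ := hf2 r s (by exact_mod_cast hs1)
    exact ⟨x, ⟨hr1.trans hx.1, hx.2.trans hs2⟩, y, ⟨hr1.trans hy.1, hy.2.trans hs2⟩, hne⟩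
  · intro l hl t ht e he
    obtain ⟨r, hr1, hr2⟩ := exists_rat_btwn (show t - e < t by linarith)
    obtain ⟨s, hs1, hs2⟩ := exists_rat_btwn (show t < t + e by linarith)
    have hrs : r < s := by
      have : (r : ℝ) < s := hr2.trans hs1
      exact_mod_cast this
    rcases hf1 l hl r s hrs with h | h
    · exact absurd ht (h t ⟨hr2.le, hs1.le⟩)
    obtain ⟨t1, t2, t3, t4, a1, a2, a3, a4, a5, b1, b2, b3, b4⟩ := h
    refine ⟨⟨t2, ⟨by linarith, by linarith⟩, b2⟩, ⟨t1, ⟨by linarith, by linarith⟩, b1⟩, ?_⟩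
    have z1 : ∃ z ∈ Icc t1 t2, f z = l := by
      have := intermediate_value_Icc' a2.le (f.continuous.continuousOn (s := Icc t1 t2))
      obtain ⟨z, hz, hz2⟩ := this ⟨b2.le, b1.le⟩
      exact ⟨z, hz, hz2⟩
    have z2 : ∃ z ∈ Icc t3 t4, f z = l := by
      have := intermediate_value_Icc' a4.le (f.continuous.continuousOn (s := Icc t3 t4))
      obtain ⟨z, hz, hz2⟩ := this ⟨b4.le, b3.le⟩
      exact ⟨z, hz, hz2⟩
    obtain ⟨z, hz, hz2⟩ := z1
    obtain ⟨z', hz', hz2'⟩ := z2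
    have hlt : z < z' := by
      have h1 := hz.2
      have h2 := hz'.1
      linarith
    by_cases hzt : z = t
    · refine ⟨z', ⟨?_, ?_⟩, ?_, hz2'⟩
      · have := hz'.1; linarith
      · have := hz'.2; linarith
      · rw [← hzt]; exact hlt.ne'
    · refine ⟨z, ⟨?_, ?_⟩, hzt, hz2⟩
      · have := hz.1; linarith
      · have := hz.2; linarith

end Pool.Agent.R270.WF
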