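import Pool.Agent.R270.WF.Stm

/-!
# Project WF, module M8c: preimages of a blown-up countable dense set are rich
-/

namespace Pool.Agent.R270.WF.M8c

open Set

/-- the situation at one blown-up point -/
structure Ctx (M : Set ℝ) (f : ℝ → ℝ) (a b : ℝ) : Prop where
  hab : a < b
  sub : Icc a b ⊆ M
  left : ∀ e : ℝ, 0 < e → ∃ z ∈ Ioo (a - e) a, z ∉ M
  right : ∀ e : ℝ, 0 < e → ∃ z ∈ Ioo b (b + e), z ∉ M
  fc : Continuous f
  lev : ∀ l, (l = a ∨ l = b) → ∀ t, f t = l → ∀ e : ℝ, 0 < e →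
    (∃ s ∈ Ioo (t - e) (t + e), f s < l) ∧ (∃ s ∈ Ioo (t - e) (t + e), l < f s) ∧
    (∃ s ∈ Ioo (t - e) (t + e), s ≠ t ∧ f s = l)

variable {M : Set ℝ} {f : ℝ → ℝ} {a b : ℝ}

theorem Ctx.escL (h : Ctx M f a b) {u e : ℝ} (hu : f u ∈ Icc a b)
    (hx : ∃ x ∈ Ioo (u - e) u, f x ∉ Icc a b) : ∃ w ∈ Ioo (u - e) u, f w ∉ M := by
  obtain ⟨x, hx1, hx2⟩ := hx
  rw [mem_Icc, not_and_or, not_le, not_le] at hx2
  rcases hx2 with h1 | h1
  · obtain ⟨z, hz, hzM⟩ := h.left (a - f x) (by linarith)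
    rw [sub_sub_cancel] at hz
    obtain ⟨w, hw, hwz⟩ := intermediate_value_Icc hx1.2.le h.fc.continuousOn
      ⟨hz.1.le, hz.2.le.trans hu.1⟩
    refine ⟨w, ⟨hx1.1.trans_le hw.1, lt_of_le_of_ne hw.2 ?_⟩, by rw [hwz]; exact hzM⟩
    rintro rfl
    have := hu.1
    rw [hwz] at this
    linarith [hz.2]
  · obtain ⟨z, hz, hzM⟩ := h.right (f x - b) (by linarith)
    rw [add_sub_cancel] at hz
    obtain ⟨w, hw, hwz⟩ := intermediate_value_Icc' hx1.2.le h.fc.continuousOn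
      ⟨hu.2.trans hz.1.le, hz.2.le⟩
    refine ⟨w, ⟨hx1.1.trans_le hw.1, lt_of_le_of_ne hw.2 ?_⟩, by rw [hwz]; exact hzM⟩
    rintro rfl
    have := hu.2
    rw [hwz] at this
    linarith [hz.1]

theorem Ctx.escR (h : Ctx M f a b) {v e : ℝ} (hv : f v ∈ Icc a b)
    (hx : ∃ x ∈ Ioo v (v + e), f x ∉ Icc a b) : ∃ w ∈ Ioo v (v + e), f w ∉ M := by
  obtain ⟨x, hx1, hx2⟩ := hx
  rw [mem_Icc, not_and_or, not_le, not_le] at hx2
  rcases hx2 with h1 | h1
  · obtain ⟨z, hz, hzM⟩ := h.left (a - f x) (by linarith)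
    rw [sub_sub_cancel] at hz
    obtain ⟨w, hw, hwz⟩ := intermediate_value_Icc' hx1.1.le h.fc.continuousOn
      ⟨hz.1.le, hz.2.le.trans hv.1⟩
    refine ⟨w, ⟨lt_of_le_of_ne hw.1 ?_, hw.2.trans_lt hx1.2⟩, by rw [hwz]; exact hzM⟩
    rintro rfl
    have := hv.1
    rw [hwz] at this
    linarith [hz.2]
  · obtain ⟨z, hz, hzM⟩ := h.right (f x - b) (by linarith)
    rw [add_sub_cancel] at hz
    obtain ⟨w, hw, hwz⟩ := intermediate_value_Icc hx1.1.le h.fc.continuousOn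
      ⟨hv.2.trans hz.1.le, hz.2.le⟩
    refine ⟨w, ⟨lt_of_le_of_ne hw.1 ?_, hw.2.trans_lt hx1.2⟩, by rw [hwz]; exact hzM⟩
    rintro rfl
    have := hv.2
    rw [hwz] at this
    linarith [hz.1]

theorem Ctx.comp (h : Ctx M f a b) {x1 s x2 : ℝ} (h1 : x1 < s) (h2 : s < x2)
    (hx1 : f x1 ∉ Icc a b) (hx2 : f x2 ∉ Icc a b) (hs1 : a < f s) (hs2 : f s < b) :
    ∃ U : ℝ × ℝ, x1 ≤ U.1 ∧ U.2 ≤ x2 ∧ Gap (f ⁻¹' M) U ∧ ∀ x ∈ Icc U.1 U.2, f x ∈ Icc a b := by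
  obtain ⟨d, hd, hball⟩ : ∃ d > 0, ∀ x, |x - s| < d → f x ∈ Icc a b := by
    have ho : IsOpen (f ⁻¹' Ioo a b) := isOpen_Ioo.preimage h.fc
    obtain ⟨d, hd, hb⟩ := Metric.isOpen_iff.1 ho s ⟨hs1, hs2⟩
    refine ⟨d, hd, fun x hx => ?_⟩
    have : x ∈ Metric.ball s d := by rw [Metric.mem_ball, Real.dist_eq]; exact hx
    exact Ioo_subset_Icc_self (hb this)
  have hcl : IsClosed (f ⁻¹' Icc a b) := isClosed_Icc.preimage h.fc
  -- left end
  set A : Set ℝ := {x | x ∈ Icc x1 s ∧ f x ∉ Icc a b} with hA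
  have hAne : A.Nonempty := ⟨x1, ⟨le_rfl, h1.le⟩, hx1⟩
  have hAle : ∀ x ∈ A, x ≤ s - d := by
    rintro x ⟨hx, hx'⟩
    by_contra hlt
    push Not at hlt
    apply hx'
    apply hball
    rw [abs_lt]
    constructor
    · linarith
    · linarith [hx.2]
  have hAb : BddAbove A := ⟨s - d, hAle⟩
  set u := sSup A with hu
  have hus : u ≤ s - d := csSup_le hAne hAle
  have hx1u : x1 ≤ u := le_csSup hAb ⟨⟨le_rfl, h1.le⟩, hx1⟩
  have huI : ∀ x, u < x → x ≤ s → f x ∈ Icc a b := by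
    intro x hx hxs
    by_contra hc
    have : x ≤ u := le_csSup hAb ⟨⟨hx1u.trans hx.le, hxs⟩, hc⟩
    linarith
  have hfu : f u ∈ Icc a b := by
    have hsub : Ioc u s ⊆ f ⁻¹' Icc a b := fun x hx => huI x hx.1 hx.2
    have := closure_minimal hsub hcl
    rw [closure_Ioc (by linarith : u ≠ s)] at this
    exact this ⟨le_rfl, by linarith⟩
  -- right end
  set B : Set ℝ := {x | x ∈ Icc s x2 ∧ f x ∉ Icc a b} with hB
  have hBne : B.Nonempty := ⟨x2, ⟨h2.le, le_rfl⟩, hx2⟩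
  have hBle : ∀ x ∈ B, s + d ≤ x := by
    rintro x ⟨hx, hx'⟩
    by_contra hlt
    push Not at hlt
    apply hx'
    apply hball
    rw [abs_lt]
    constructor
    · linarith [hx.1]
    · linarith
  have hBb : BddBelow B := ⟨s + d, hBle⟩
  set v := sInf B with hv
  have hsv : s + d ≤ v := le_csInf hBne hBle
  have hvx2 : v ≤ x2 := csInf_le hBb ⟨⟨h2.le, le_rfl⟩, hx2⟩
  have hvI : ∀ x, x < v → s ≤ x → f x ∈ Icc a b := by
    intro x hx hxs
    by_contra hc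
    have : v ≤ x := csInf_le hBb ⟨⟨hxs, hx.le.trans hvx2⟩, hc⟩
    linarith
  have hfv : f v ∈ Icc a b := by
    have hsub : Ico s v ⊆ f ⁻¹' Icc a b := fun x hx => hvI x hx.2 hx.1
    have := closure_minimal hsub hcl
    rw [closure_Ico (by linarith : s ≠ v)] at this
    exact this ⟨by linarith, le_rfl⟩
  have hall : ∀ x ∈ Icc u v, f x ∈ Icc a b := by
    rintro x ⟨hx, hx'⟩
    rcases le_total x s with hxs | hxs
    · rcases hx.eq_or_lt with heq | hlt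
      · rw [← heq]; exact hfu
      · exact huI x hlt hxs
    · rcases hx'.eq_or_lt with heq | hlt
      · rw [heq]; exact hfv
      · exact hvI x hlt hxs
  refine ⟨(u, v), hx1u, hvx2, ⟨by simp only; linarith, fun x hx => h.sub (hall x hx), ?_, ?_⟩, hall⟩
  · intro e he
    apply h.escL hfu
    obtain ⟨x, hxA, hx⟩ := exists_lt_of_lt_csSup hAne (show u - e < sSup A by rw [← hu]; linarith)
    refine ⟨x, ⟨hx, lt_of_le_of_ne (le_csSup hAb hxA) ?_⟩, hxA.2⟩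
    rintro rfl
    exact hxA.2 hfu
  · intro e he
    apply h.escR hfv
    obtain ⟨x, hxB, hx⟩ := exists_lt_of_csInf_lt hBne (show sInf B < v + e by rw [← hv]; linarith)
    refine ⟨x, ⟨lt_of_le_of_ne (csInf_le hBb hxB) ?_, hx⟩, hxB.2⟩
    intro heq
    apply hxB.2
    rw [← heq]
    exact hfv

theorem Ctx.three (h : Ctx M f a b) {l : ℝ} (hl : l = a ∨ l = b) {t1 t2 t3 L R : ℝ}
    (h0 : L < t1) (h12 : t1 < t2) (h23 : t2 < t3) (h3 : t3 < R)
    (hcl : ∀ x, L < x → x < R → |f x - l| < b - a) (e1 : f t1 = l) (e2 : f t2 = l) (e3 : f t3 = l) :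
    ∃ x1 s x2, L < x1 ∧ x1 < s ∧ s < x2 ∧ x2 < R ∧ f x1 ∉ Icc a b ∧ f x2 ∉ Icc a b ∧
      a < f s ∧ f s < b := by
  obtain ⟨d, hd, k0, k1, k2, k3⟩ : ∃ d : ℝ, 0 < d ∧ d ≤ t1 - L ∧ d ≤ (t2 - t1) / 2 ∧
      d ≤ (t3 - t2) / 2 ∧ d ≤ R - t3 := by
    refine ⟨min (min (t1 - L) ((t2 - t1) / 2)) (min ((t3 - t2) / 2) (R - t3)), ?_, ?_, ?_, ?_, ?_⟩
    · apply lt_min <;> apply lt_min <;> linarith
    · exact (min_le_left _ _).trans (min_le_left _ _)
    · exact (min_le_left _ _).trans (min_le_right _ _)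
    · exact (min_le_right _ _).trans (min_le_left _ _)
    · exact (min_le_right _ _).trans (min_le_right _ _)
  rcases hl with rfl | rfl
  · obtain ⟨x1, hx1, hx1'⟩ := (h.lev l (Or.inl rfl) t1 e1 d hd).1
    obtain ⟨s, hs, hs'⟩ := (h.lev l (Or.inl rfl) t2 e2 d hd).2.1
    obtain ⟨x2, hx2, hx2'⟩ := (h.lev l (Or.inl rfl) t3 e3 d hd).1
    refine ⟨x1, s, x2, by linarith [hx1.1], by linarith [hx1.2, hs.1], by linarith [hs.2, hx2.1],
      by linarith [hx2.2], fun hc => ?_, fun hc => ?_, hs', ?_⟩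
    · linarith [hc.1]
    · linarith [hc.1]
    · have := (abs_lt.1 (hcl s (by linarith [hs.1]) (by linarith [hs.2]))).2
      linarith
  · obtain ⟨x1, hx1, hx1'⟩ := (h.lev l (Or.inr rfl) t1 e1 d hd).2.1
    obtain ⟨s, hs, hs'⟩ := (h.lev l (Or.inr rfl) t2 e2 d hd).1
    obtain ⟨x2, hx2, hx2'⟩ := (h.lev l (Or.inr rfl) t3 e3 d hd).2.1
    refine ⟨x1, s, x2, by linarith [hx1.1], by linarith [hx1.2, hs.1], by linarith [hs.2, hx2.1],
      by linarith [hx2.2], fun hc => ?_, fun hc => ?_, ?_, hs'⟩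
    · linarith [hc.2]
    · linarith [hc.2]
    · have := (abs_lt.1 (hcl s (by linarith [hs.1]) (by linarith [hs.2]))).1
      linarith

theorem Ctx.near (h : Ctx M f a b) {l : ℝ} (hl : l = a ∨ l = b) {t e : ℝ} (ht : f t = l)
    (he : 0 < e) : ∃ U : ℝ × ℝ, t - e < U.1 ∧ U.2 < t + e ∧ Gap (f ⁻¹' M) U ∧
      ∀ x ∈ Icc U.1 U.2, f x ∈ Icc a b := by
  have hab := h.hab
  obtain ⟨d, hd, hball⟩ : ∃ d > 0, ∀ x, |x - t| < d → |f x - l| < b - a := by
    have hc := Metric.continuousAt_iff.1 (h.fc.continuousAt (x := t)) (b - a) (by linarith)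
    obtain ⟨d, hd, hb⟩ := hc
    refine ⟨d, hd, fun x hx => ?_⟩
    have := hb (x := x) (by rw [Real.dist_eq]; exact hx)
    rw [Real.dist_eq, ht] at this
    exact this
  obtain ⟨r, hr, hrd, hre⟩ : ∃ r : ℝ, 0 < r ∧ r ≤ d ∧ r ≤ e :=
    ⟨min d e, lt_min hd he, min_le_left _ _, min_le_right _ _⟩
  have hcl : ∀ x, t - r < x → x < t + r → |f x - l| < b - a := by
    intro x h1 h2
    apply hball
    rw [abs_lt]
    constructor <;> linarith
  have key : ∃ x1 s x2, t - r < x1 ∧ x1 < s ∧ s < x2 ∧ x2 < t + r ∧ f x1 ∉ Icc a b ∧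
      f x2 ∉ Icc a b ∧ a < f s ∧ f s < b := by
    obtain ⟨t', ht', hne, hft'⟩ := (h.lev l hl t ht r hr).2.2
    rcases lt_or_gt_of_ne hne with hlt | hgt
    · obtain ⟨t'', ht'', hne', hft''⟩ := (h.lev l hl t ht (t - t') (by linarith)).2.2
      rcases lt_or_gt_of_ne hne' with hlt' | hgt'
      · exact h.three hl (t1 := t') (t2 := t'') (t3 := t) (by linarith [ht'.1])
          (by linarith [ht''.1]) hlt' (by linarith) hcl hft' hft'' ht
      · exact h.three hl (t1 := t') (t2 := t) (t3 := t'') (by linarith [ht'.1])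
          hlt hgt' (by linarith [ht''.2, ht'.1]) hcl hft' ht hft''
    · obtain ⟨t'', ht'', hne', hft''⟩ := (h.lev l hl t ht (t' - t) (by linarith)).2.2
      rcases lt_or_gt_of_ne hne' with hlt' | hgt'
      · exact h.three hl (t1 := t'') (t2 := t) (t3 := t') (by linarith [ht'.2, ht''.1])
          hlt' hgt (by linarith [ht'.2]) hcl hft'' ht hft'
      · exact h.three hl (t1 := t) (t2 := t'') (t3 := t') (by linarith)
          hgt' (by linarith [ht''.2]) (by linarith [ht'.2]) hcl ht hft'' hft'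
  obtain ⟨x1, s, x2, k1, k2, k3, k4, k5, k6, k7, k8⟩ := key
  obtain ⟨U, m1, m2, m3, m4⟩ := h.comp k2 k3 k5 k6 k7 k8
  exact ⟨U, by linarith, by linarith, m3, m4⟩

/-- the value at the ends of a gap -/
theorem Ctx.endL (h : Ctx M f a b) {U : ℝ × ℝ} (hU : Gap (f ⁻¹' M) U)
    (hf : ∀ x ∈ Icc U.1 U.2, f x ∈ Icc a b) : f U.1 = a ∨ f U.1 = b := by
  have h1 := hf U.1 ⟨le_rfl, hU.1.le⟩
  by_contra hc
  push Not at hc
  have h2 : f U.1 ∈ Ioo a b := ⟨lt_of_le_of_ne h1.1 (Ne.symm hc.1), lt_of_le_of_ne h1.2 hc.2⟩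
  have ho : IsOpen (f ⁻¹' Ioo a b) := isOpen_Ioo.preimage h.fc
  obtain ⟨d, hd, hb⟩ := Metric.isOpen_iff.1 ho U.1 h2
  obtain ⟨y, hy, hyM⟩ := hU.2.2.1 d hd
  apply hyM
  apply h.sub
  apply Ioo_subset_Icc_self
  apply hb
  rw [Metric.mem_ball, Real.dist_eq, abs_lt]
  constructor
  · linarith [hy.1]
  · linarith [hy.2]

theorem Ctx.endR (h : Ctx M f a b) {U : ℝ × ℝ} (hU : Gap (f ⁻¹' M) U)
    (hf : ∀ x ∈ Icc U.1 U.2, f x ∈ Icc a b) : f U.2 = a ∨ f U.2 = b := by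
  have h1 := hf U.2 ⟨hU.1.le, le_rfl⟩
  by_contra hc
  push Not at hc
  have h2 : f U.2 ∈ Ioo a b := ⟨lt_of_le_of_ne h1.1 (Ne.symm hc.1), lt_of_le_of_ne h1.2 hc.2⟩
  have ho : IsOpen (f ⁻¹' Ioo a b) := isOpen_Ioo.preimage h.fc
  obtain ⟨d, hd, hb⟩ := Metric.isOpen_iff.1 ho U.2 h2
  obtain ⟨y, hy, hyM⟩ := hU.2.2.2 d hd
  apply hyM
  apply h.sub
  apply Ioo_subset_Icc_self
  apply hb
  rw [Metric.mem_ball, Real.dist_eq, abs_lt]
  constructor
  · linarith [hy.1]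
  · linarith [hy.2]

/-- inside a gap there are no points of the end levels -/
theorem Ctx.inside (h : Ctx M f a b) {U : ℝ × ℝ} (hf : ∀ x ∈ Icc U.1 U.2, f x ∈ Icc a b)
    {l t : ℝ} (hl : l = a ∨ l = b) (ht : f t = l) (h1 : U.1 < t) (h2 : t < U.2) : False := by
  have hd : 0 < min (t - U.1) (U.2 - t) := lt_min (by linarith) (by linarith)
  have k1 := min_le_left (t - U.1) (U.2 - t)
  have k2 := min_le_right (t - U.1) (U.2 - t)
  rcases hl with rfl | rfl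
  · obtain ⟨s, hs, hs'⟩ := (h.lev l (Or.inl rfl) t ht _ hd).1
    have := (hf s ⟨by linarith [hs.1], by linarith [hs.2]⟩).1
    linarith
  · obtain ⟨s, hs, hs'⟩ := (h.lev l (Or.inr rfl) t ht _ hd).2.1
    have := (hf s ⟨by linarith [hs.1], by linarith [hs.2]⟩).2
    linarith

theorem Ctx.accL (h : Ctx M f a b) {U : ℝ × ℝ} (hU : Gap (f ⁻¹' M) U)
    (hf : ∀ x ∈ Icc U.1 U.2, f x ∈ Icc a b) {e : ℝ} (he : 0 < e) :
    ∃ V : ℝ × ℝ, U.1 - e < V.1 ∧ V.2 < U.1 ∧ Gap (f ⁻¹' M) V ∧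
      ∀ x ∈ Icc V.1 V.2, f x ∈ Icc a b := by
  have hl := h.endL hU hf
  have hUlt := hU.1
  obtain ⟨r, hr, hr1, hr2⟩ : ∃ r : ℝ, 0 < r ∧ r ≤ e ∧ r ≤ U.2 - U.1 :=
    ⟨min e (U.2 - U.1), lt_min he (by linarith), min_le_left _ _, min_le_right _ _⟩
  obtain ⟨t, ht, hne, hft⟩ := (h.lev _ hl U.1 rfl r hr).2.2
  have htlt : t < U.1 := by
    rcases lt_or_gt_of_ne hne with h1 | h1
    · exact h1
    · exact (h.inside hf hl hft h1 (by linarith [ht.2])).elim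
  have hd : 0 < min (t - (U.1 - e)) (U.1 - t) := lt_min (by linarith [ht.1]) (by linarith)
  have k1 := min_le_left (t - (U.1 - e)) (U.1 - t)
  have k2 := min_le_right (t - (U.1 - e)) (U.1 - t)
  obtain ⟨V, m1, m2, m3, m4⟩ := h.near hl hft hd
  exact ⟨V, by linarith, by linarith, m3, m4⟩

theorem Ctx.accR (h : Ctx M f a b) {U : ℝ × ℝ} (hU : Gap (f ⁻¹' M) U)
    (hf : ∀ x ∈ Icc U.1 U.2, f x ∈ Icc a b) {e : ℝ} (he : 0 < e) :
    ∃ V : ℝ × ℝ, U.2 < V.1 ∧ V.2 < U.2 + e ∧ Gap (f ⁻¹' M) V ∧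
      ∀ x ∈ Icc V.1 V.2, f x ∈ Icc a b := by
  have hl := h.endR hU hf
  have hUlt := hU.1
  obtain ⟨r, hr, hr1, hr2⟩ : ∃ r : ℝ, 0 < r ∧ r ≤ e ∧ r ≤ U.2 - U.1 :=
    ⟨min e (U.2 - U.1), lt_min he (by linarith), min_le_left _ _, min_le_right _ _⟩
  obtain ⟨t, ht, hne, hft⟩ := (h.lev _ hl U.2 rfl r hr).2.2
  have htlt : U.2 < t := by
    rcases lt_or_gt_of_ne hne with h1 | h1
    · exact (h.inside hf hl hft (by linarith [ht.1]) h1).elim
    · exact h1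
  have hd : 0 < min (U.2 + e - t) (t - U.2) := lt_min (by linarith [ht.2]) (by linarith)
  have k1 := min_le_left (U.2 + e - t) (t - U.2)
  have k2 := min_le_right (U.2 + e - t) (t - U.2)
  obtain ⟨V, m1, m2, m3, m4⟩ := h.near hl hft hd
  exact ⟨V, by linarith, by linarith, m3, m4⟩

/-- points outside the blown-up set accumulate at the ends -/
theorem ctx_of {S : Set ℝ} {c f : ℝ → ℝ} (hS : S.Countable) (hc : Continuous c) (hm : Monotone c)
    (hf : Continuous f) {y : ℝ} (hy : y ∈ S) (hab : a < b) (hpre : c ⁻¹' {y} = Icc a b)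
    (hlev : ∀ l, (l = a ∨ l = b) → ∀ t, f t = l → ∀ e : ℝ, 0 < e →
      (∃ s ∈ Ioo (t - e) (t + e), f s < l) ∧ (∃ s ∈ Ioo (t - e) (t + e), l < f s) ∧
      (∃ s ∈ Ioo (t - e) (t + e), s ≠ t ∧ f s = l)) : Ctx (c ⁻¹' S) f a b := by
  have hca : c a = y := by
    have : a ∈ c ⁻¹' {y} := by rw [hpre]; exact ⟨le_rfl, hab.le⟩
    exact this
  have hcb : c b = y := by
    have : b ∈ c ⁻¹' {y} := by rw [hpre]; exact ⟨hab.le, le_rfl⟩
    exact this
  have hint : ∀ p q : ℝ, p < q → ∃ z ∈ Ioo p q, z ∉ S := by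
    intro p q hpq
    by_contra hcon
    push Not at hcon
    have h1 : (Ioo p q).Countable := hS.mono hcon
    have h2 := Cardinal.mk_Ioo_real hpq
    have h3 := Cardinal.mk_le_aleph0_iff.2 h1.to_subtype
    rw [h2] at h3
    exact absurd h3 (not_le.2 Cardinal.aleph0_lt_continuum)
  refine ⟨hab, ?_, ?_, ?_, hf, hlev⟩
  · intro x hx
    rw [← hpre] at hx
    have : c x = y := hx
    change c x ∈ S
    rw [this]
    exact hy
  · intro e he
    have h1 : c (a - e) < y := by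
      apply lt_of_le_of_ne
      · rw [← hca]; exact hm (by linarith)
      · intro heq
        have : a - e ∈ c ⁻¹' {y} := heq
        rw [hpre] at this
        linarith [this.1]
    obtain ⟨z, hz, hzS⟩ := hint _ _ h1
    obtain ⟨w, hw, hwz⟩ := intermediate_value_Ioo (by linarith : a - e ≤ a) hc.continuousOn
      (show z ∈ Ioo (c (a - e)) (c a) by rw [hca]; exact hz)
    refine ⟨w, hw, ?_⟩
    change c w ∉ S
    rw [hwz]
    exact hzS
  · intro e he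
    have h1 : y < c (b + e) := by
      apply lt_of_le_of_ne
      · rw [← hcb]; exact hm (by linarith)
      · intro heq
        have : b + e ∈ c ⁻¹' {y} := heq.symm
        rw [hpre] at this
        linarith [this.2]
    obtain ⟨z, hz, hzS⟩ := hint _ _ h1
    obtain ⟨w, hw, hwz⟩ := intermediate_value_Ioo (by linarith : b ≤ b + e) hc.continuousOn
      (show z ∈ Ioo (c b) (c (b + e)) by rw [hcb]; exact hz)
    refine ⟨w, hw, ?_⟩
    change c w ∉ S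
    rw [hwz]
    exact hzS

/-- the family of the gaps over one blown-up point -/
theorem Ctx.fam (h : Ctx M f a b) {l : ℝ} (hl : l = a ∨ l = b) {t p q : ℝ} (ht : f t = l)
    (hpt : p < t) (htq : t < q) : ∃ D : Set (ℝ × ℝ), D.Nonempty ∧ (∀ U ∈ D, Gap (f ⁻¹' M) U) ∧
      Cov D ⊆ (f ⁻¹' M) ∩ Ioo p q ∧ Acc D := by
  set p' := (p + t) / 2 with hp'
  set q' := (t + q) / 2 with hq'
  refine ⟨{U | Gap (f ⁻¹' M) U ∧ p' < U.1 ∧ U.2 < q' ∧ ∀ x ∈ Icc U.1 U.2, f x ∈ Icc a b},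
    ?_, fun U hU => hU.1, ?_, ?_⟩
  · have hd : 0 < min (t - p') (q' - t) := lt_min (by linarith) (by linarith)
    have k1 := min_le_left (t - p') (q' - t)
    have k2 := min_le_right (t - p') (q' - t)
    obtain ⟨U, m1, m2, m3, m4⟩ := h.near hl ht hd
    exact ⟨U, m3, by linarith, by linarith, m4⟩
  · have hcl : IsClosed (f ⁻¹' Icc a b ∩ Icc p' q') :=
      (isClosed_Icc.preimage h.fc).inter isClosed_Icc
    have hsub : (⋃ U ∈ {U : ℝ × ℝ | Gap (f ⁻¹' M) U ∧ p' < U.1 ∧ U.2 < q' ∧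
        ∀ x ∈ Icc U.1 U.2, f x ∈ Icc a b}, Icc U.1 U.2) ⊆ f ⁻¹' Icc a b ∩ Icc p' q' := by
      intro x hx
      rw [mem_iUnion₂] at hx
      obtain ⟨U, hU, hxU⟩ := hx
      obtain ⟨_, h1, h2, h3⟩ := hU
      exact ⟨h3 x hxU, by linarith [hxU.1], by linarith [hxU.2]⟩
    intro x hx
    have := closure_minimal hsub hcl hx
    refine ⟨h.sub this.1, ?_, ?_⟩
    · have := this.2.1
      linarith
    · have := this.2.2
      linarith
  · rintro U ⟨h1, h2, h3, h4⟩ e he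
    have hUlt := h1.1
    constructor
    · have hd : 0 < min e (U.1 - p') := lt_min he (by linarith)
      have k1 := min_le_left e (U.1 - p')
      have k2 := min_le_right e (U.1 - p')
      obtain ⟨V, m1, m2, m3, m4⟩ := h.accL h1 h4 hd
      exact ⟨V, ⟨m3, by linarith, by linarith, m4⟩, by linarith, m2⟩
    · have hd : 0 < min e (q' - U.2) := lt_min he (by linarith)
      have k1 := min_le_left e (q' - U.2)
      have k2 := min_le_right e (q' - U.2)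
      obtain ⟨V, m1, m2, m3, m4⟩ := h.accR h1 h4 hd
      exact ⟨V, ⟨m3, by linarith, by linarith, m4⟩, m1, by linarith⟩

end Pool.Agent.R270.WF.M8c

namespace Pool.Agent.R270.WF

open Set M8c

theorem stmM8c : StmM8c := by
  intro S c f hS _ hc hm _ h1 _ hf hlev p q hmix
  obtain ⟨⟨x, hx, hxW⟩, ⟨x', hx', hx'W⟩⟩ := hmix
  have hy : c (f x) ∈ S := hxW
  obtain ⟨a, b, hab, hpre⟩ := h1 _ hy
  have hctx : Ctx (c ⁻¹' S) f a b := ctx_of hS hc hm hf hy hab hpre (hlev _ hy a b hpre)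
  have hfx : f x ∈ Icc a b := by
    rw [← hpre]
    rfl
  have hfx' : f x' ∉ Icc a b := fun hcon => hx'W (hctx.sub hcon)
  obtain ⟨l, t, hl, ht, hpt, htq⟩ : ∃ l t, (l = a ∨ l = b) ∧ f t = l ∧ p < t ∧ t < q := by
    rw [mem_Icc, not_and_or, not_le, not_le] at hfx'
    rcases hfx' with h2 | h2
    · obtain ⟨t, ht, hft⟩ := intermediate_value_uIcc (hf.continuousOn (s := uIcc x' x))
        (show a ∈ uIcc (f x') (f x) by
          rw [uIcc_of_le (by linarith [hfx.1])]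
          exact ⟨h2.le, hfx.1⟩)
      refine ⟨a, t, Or.inl rfl, hft, ?_, ?_⟩
      · exact (lt_min hx'.1 hx.1).trans_le ht.1
      · exact lt_of_le_of_lt ht.2 (max_lt hx'.2 hx.2)
    · obtain ⟨t, ht, hft⟩ := intermediate_value_uIcc (hf.continuousOn (s := uIcc x' x))
        (show b ∈ uIcc (f x') (f x) by
          rw [uIcc_of_ge (by linarith [hfx.2])]
          exact ⟨hfx.2, h2.le⟩)
      refine ⟨b, t, Or.inr rfl, hft, ?_, ?_⟩
      · exact (lt_min hx'.1 hx.1).trans_le ht.1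
      · exact lt_of_le_of_lt ht.2 (max_lt hx'.2 hx.2)
  exact hctx.fam hl ht hpt htq

end Pool.Agent.R270.WF
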