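import Pool.Agent.R270.WF.M7c

/-! Project WF, assembly part 4: existence of the two sets and the final statement. -/

namespace Pool.Agent.R270.WF
open Set

/-- if `h` is continuous and takes two different values, it takes an irrational value strictly between -/
theorem hits_irr {h : ℝ → ℝ} (hh : Continuous h) {s t : ℝ} {u v : ℝ} (huv : u < v) (hs : h s ≤ u) (ht : v ≤ h t) :
    ∃ w ∈ uIcc s t, h w ∉ Qs ∧ u < h w ∧ h w < v := by
  obtain ⟨r, hr, hr1, hr2⟩ := exists_irrational_btwn huv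
  have : r ∈ uIcc (h s) (h t) := by
    rw [uIcc_of_le (by linarith)]; exact ⟨by linarith, by linarith⟩
  obtain ⟨w, hw, hwr⟩ := intermediate_value_uIcc hh.continuousOn this
  refine ⟨w, hw, ?_, ?_, ?_⟩
  · rw [hwr]; exact hr
  · rw [hwr]; exact hr1
  · rw [hwr]; exact hr2

theorem hits_rat {h : ℝ → ℝ} (hh : Continuous h) {s t : ℝ} {u v : ℝ} (huv : u < v) (hs : h s ≤ u) (ht : v ≤ h t) :
    ∃ w ∈ uIcc s t, h w ∈ Qs := by
  obtain ⟨r, hr1, hr2⟩ := exists_rat_btwn huv
  have : (r : ℝ) ∈ uIcc (h s) (h t) := by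
    rw [uIcc_of_le (by linarith)]; exact ⟨by linarith, by linarith⟩
  obtain ⟨w, hw, hwr⟩ := intermediate_value_uIcc hh.continuousOn this
  exact ⟨w, hw, hwr ▸ ⟨r, rfl⟩⟩

theorem exists_W (h8a : StmM8a) (h8b : StmM8b) (h8c : StmM8c) :
    ∃ W : Set ℝ, InD W ∧ T2 W ∧ (∀ a b : ℝ, a < b → ∃ x ∈ Ioo a b, x ∈ W) ∧ JX W = univ ∧ NoBlue W univ := by
  obtain ⟨c0, hc0, hm0, hs0, hin0, hout0⟩ := h8a Qs Qs_countable
  obtain ⟨x0, hx0⟩ := hs0 0
  obtain ⟨x1, hx1⟩ := hs0 1
  have hlt : x0 < x1 := by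
    by_contra h
    push Not at h
    have := hm0 h
    rw [hx0, hx1] at this
    linarith
  set k : ℝ → ℝ := fun x => x0 + (x1 - x0) * ((x + 4) / 8) with hk
  set ki : ℝ → ℝ := fun u => (u - x0) / (x1 - x0) * 8 - 4 with hki
  have hd : 0 < x1 - x0 := by linarith
  have hkki : ∀ u, k (ki u) = u := by
    intro u; simp only [hk, hki]; field_simp; ring
  have hkik : ∀ u, ki (k u) = u := by
    intro u; simp only [hk, hki]; field_simp; ring
  have hkmono : StrictMono k := by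
    intro u v huv
    simp only [hk]
    have : (x1 - x0) * ((u + 4) / 8) < (x1 - x0) * ((v + 4) / 8) := by
      apply mul_lt_mul_of_pos_left _ hd; linarith
    linarith
  have hkle : ∀ u v, k u ≤ v ↔ u ≤ ki v := by
    intro u v
    constructor
    · intro h
      by_contra h'
      push Not at h'
      have := hkmono h'
      rw [hkki] at this; linarith
    · intro h
      have := hkmono.monotone h
      rwa [hkki] at this
  have hkle' : ∀ u v, v ≤ k u ↔ ki v ≤ u := by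
    intro u v
    constructor
    · intro h
      by_contra h'
      push Not at h'
      have := hkmono h'
      rw [hkki] at this; linarith
    · intro h
      have := hkmono.monotone h
      rwa [hkki] at this
  set c : ℝ → ℝ := fun x => c0 (k x) with hcdef
  have hkc : Continuous k := by simp only [hk]; fun_prop
  have hc : Continuous c := hc0.comp hkc
  have hm : Monotone c := hm0.comp hkmono.monotone
  have hs : Function.Surjective c := by
    intro y
    obtain ⟨u, hu⟩ := hs0 y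
    exact ⟨ki u, by simp only [hcdef, hkki, hu]⟩
  have hpre : ∀ y a b, c0 ⁻¹' {y} = Icc a b → c ⁻¹' {y} = Icc (ki a) (ki b) := by
    intro y a b hab
    ext u
    rw [mem_preimage, mem_singleton_iff]
    have : (c0 (k u) = y) ↔ k u ∈ Icc a b := by rw [← hab]; rfl
    rw [show c u = c0 (k u) from rfl, this, mem_Icc, mem_Icc, hkle', hkle]
  have hkimono : ∀ a b, a < b → ki a < ki b := by
    intro a b hab
    by_contra h
    push Not at h
    have := hkmono.monotone h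
    rw [hkki, hkki] at this; linarith
  have hin : ∀ y ∈ Qs, ∃ a b : ℝ, a < b ∧ c ⁻¹' {y} = Icc a b := by
    intro y hy
    obtain ⟨a, b, hab, h⟩ := hin0 y hy
    exact ⟨ki a, ki b, hkimono a b hab, hpre y a b h⟩
  have hout : ∀ y, y ∉ Qs → ∃ a : ℝ, c ⁻¹' {y} = {a} := by
    intro y hy
    obtain ⟨a, h⟩ := hout0 y hy
    refine ⟨ki a, ?_⟩
    have := hpre y a a (by rw [h, Icc_self])
    rw [this, Icc_self]
  have hc4 : c 4 = 1 := by
    simp only [hcdef, hk]; rw [show x0 + (x1 - x0) * ((4 + 4) / 8) = x1 by ring, hx1]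
  have hc4' : c (-4) = 0 := by
    simp only [hcdef, hk]; rw [show x0 + (x1 - x0) * ((-4 + 4) / 8) = x0 by ring, hx0]
  set L : Set ℝ := (fun y => sInf (c ⁻¹' {y})) '' Qs ∪ (fun y => sSup (c ⁻¹' {y})) '' Qs with hL
  have hLc : L.Countable := (Qs_countable.image _).union (Qs_countable.image _)
  obtain ⟨f, hf, hf5, hfn, hfL⟩ := h8b L hLc
  set W : Set ℝ := f ⁻¹' (c ⁻¹' Qs) with hW
  have hcf : Continuous (fun x => c (f x)) := hc.comp hf
  have hred : Red W Qs := ⟨fun x => c (f x), hcf, rfl⟩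
  have hdense : ∀ a b : ℝ, a < b → ∃ x ∈ Ioo a b, x ∈ W := by
    intro a b hab
    obtain ⟨x, hx, y, hy, hxy⟩ := hfn a b hab
    wlog hlt' : f x < f y generalizing x y
    · exact this y hy x hx hxy.symm (lt_of_le_of_ne (not_lt.1 hlt') hxy.symm)
    rcases eq_or_lt_of_le (hm hlt'.le) with h | h
    · refine ⟨x, hx, ?_⟩
      by_contra hxW
      obtain ⟨u, hu⟩ := hout (c (f x)) hxW
      have h1 : f x ∈ c ⁻¹' {c (f x)} := rfl
      have h2 : f y ∈ c ⁻¹' {c (f x)} := h.symm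
      rw [hu] at h1 h2
      rw [mem_singleton_iff] at h1 h2
      exact hxy (h1.trans h2.symm)
    · obtain ⟨w, hw, hwQ⟩ := hits_rat hcf h (le_refl _) (le_refl _)
      refine ⟨w, ?_, hwQ⟩
      have := (ordConnected_Ioo (a := a) (b := b)).uIcc_subset hx hy hw
      exact this
  have hsin : ∀ n : ℤ, f (Real.pi / 2 + n * (2 * Real.pi)) ≥ 4 ∧ f (-(Real.pi / 2) + n * (2 * Real.pi)) ≤ -4 := by
    intro n
    have h1 := hf5 (Real.pi / 2 + n * (2 * Real.pi))
    have h2 := hf5 (-(Real.pi / 2) + n * (2 * Real.pi))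
    rw [Real.sin_add_int_mul_two_pi, Real.sin_pi_div_two, abs_le] at h1
    rw [Real.sin_add_int_mul_two_pi, Real.sin_neg, Real.sin_pi_div_two, abs_le] at h2
    constructor <;> linarith [h1.1, h1.2, h2.1, h2.2]
  have hnotW : ∀ n : ℤ, ∃ w ∈ uIcc (-(Real.pi / 2) + n * (2 * Real.pi)) (Real.pi / 2 + n * (2 * Real.pi)), w ∉ W := by
    intro n
    have h1 : c (f (-(Real.pi / 2) + n * (2 * Real.pi))) ≤ 0 := hc4' ▸ hm (hsin n).2
    have h2 : 1 ≤ c (f (Real.pi / 2 + n * (2 * Real.pi))) := hc4 ▸ hm (hsin n).1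
    obtain ⟨w, hw, hwQ, _⟩ := hits_irr hcf (show (0 : ℝ) < 1 by norm_num) h1 h2
    exact ⟨w, hw, hwQ⟩
  have hpi := Real.pi_pos
  have hJ : JX W = univ := by
    apply eq_univ_of_forall
    intro x
    refine ⟨?_, ?_, ?_, ?_⟩
    · obtain ⟨y, hy, hyW⟩ := hdense (x - 1) x (by linarith)
      exact ⟨y, hy.2, hyW⟩
    · obtain ⟨n, hn⟩ := exists_int_lt ((x - Real.pi / 2) / (2 * Real.pi))
      obtain ⟨w, hw, hwW⟩ := hnotW n
      refine ⟨w, ?_, hwW⟩
      rw [uIcc_of_le (by linarith)] at hw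
      have := (lt_div_iff₀ (by positivity)).1 hn
      linarith [hw.2]
    · obtain ⟨y, hy, hyW⟩ := hdense x (x + 1) (by linarith)
      exact ⟨y, hy.1, hyW⟩
    · obtain ⟨n, hn⟩ := exists_int_gt ((x + Real.pi / 2) / (2 * Real.pi))
      obtain ⟨w, hw, hwW⟩ := hnotW n
      refine ⟨w, ?_, hwW⟩
      rw [uIcc_of_le (by linarith)] at hw
      have := (div_lt_iff₀ (by positivity)).1 hn
      linarith [hw.1]
  have hne : (∃ x, x ∈ W) ∧ ∃ x, x ∉ W := by
    obtain ⟨y, _, hy⟩ := hdense 0 1 (by norm_num)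
    obtain ⟨w, _, hw⟩ := hnotW 0
    exact ⟨⟨y, hy⟩, ⟨w, hw⟩⟩
  refine ⟨W, inD_of hred hne.1 hne.2, ?_, hdense, hJ, ?_⟩
  · have hQd : Dense Qs := Rat.denseRange_cast
    apply h8c Qs c f Qs_countable hQd hc hm hs hin hout hf
    intro y hy a b hab l hl t htl e he
    have hnonempty : (c ⁻¹' {y}).Nonempty := hs y
    have hab' : a ≤ b := by rw [hab] at hnonempty; exact nonempty_Icc.1 hnonempty
    have hlL : l ∈ L := by
      rcases hl with hl | hl
      · left; refine ⟨y, hy, ?_⟩; simp only [hab, csInf_Icc hab', hl]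
      · right; refine ⟨y, hy, ?_⟩; simp only [hab, csSup_Icc hab', hl]
    exact hfL l hlL t htl e he
  · intro U _ hU
    obtain ⟨x, hx, hxW⟩ := hdense U.1 U.2 hU.1
    exact hU.2.1 ⟨hx.1.le, hx.2.le⟩ hxW

theorem exists_E (h8a : StmM8a) {W : Set ℝ} (hW : InD W) (dW : ∀ a b : ℝ, a < b → ∃ x ∈ Ioo a b, x ∈ W) :
    ∃ E : Set ℝ, InD E ∧ Red E W ∧ DenseBlue E univ := by
  have pW := pi_of_red hW.1
  obtain ⟨s, hsc, hsd⟩ := TopologicalSpace.exists_countable_dense (Wᶜ : Set ℝ)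
  set S : Set ℝ := Subtype.val '' s with hS
  have hSc : S.Countable := hsc.image _
  have hSW : S ⊆ Wᶜ := by rintro x ⟨y, _, rfl⟩; exact y.2
  have hSd : ∀ p q : ℝ, (∃ x ∈ Ioo p q, x ∉ W) → ∃ x ∈ Ioo p q, x ∈ S := by
    rintro p q ⟨x, hx, hxW⟩
    obtain ⟨y, hy1, hy2⟩ := hsd.exists_mem_open (isOpen_Ioo.preimage continuous_subtype_val) (⟨⟨x, hxW⟩, hx⟩ :
      (Subtype.val ⁻¹' (Ioo p q) : Set (Wᶜ : Set ℝ)).Nonempty)
    exact ⟨y.1, hy2, ⟨y, hy1, rfl⟩⟩
  obtain ⟨c, hc, hm, hs, hin, hout⟩ := h8a S hSc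
  have hred : Red (c ⁻¹' W) W := ⟨c, hc, rfl⟩
  obtain ⟨⟨u, hu⟩, ⟨v, hv⟩⟩ := inD_nontriv hW
  obtain ⟨u', rfl⟩ := hs u
  obtain ⟨v', rfl⟩ := hs v
  refine ⟨c ⁻¹' W, inD_of (hred.trans hW.1) ⟨u', hu⟩ ⟨v', hv⟩, hred, ?_⟩
  rintro p q _ ⟨⟨x, hx, hxW⟩, ⟨y, hy, hyW⟩⟩
  have hne : c x ≠ c y := fun h => by
    rw [mem_preimage, h] at hxW; exact hyW hxW
  -- WLOG via min and max
  set m := min (c x) (c y) with hm'
  set M := max (c x) (c y) with hM'
  have hmM : m < M := by
    rcases lt_or_gt_of_ne hne with h | h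
    · rw [hm', hM', min_eq_left h.le, max_eq_right h.le]; exact h
    · rw [hm', hM', min_eq_right h.le, max_eq_left h.le]; exact h
  have hnotin : ∃ z ∈ Ioo m M, z ∉ W := by
    by_contra hcon
    push Not at hcon
    exact hyW ((pW m M hmM).1 (fun z hz => hcon z hz) ⟨min_le_right _ _, le_max_right _ _⟩)
  obtain ⟨r, hr, hrS⟩ := hSd m M hnotin
  obtain ⟨a, b, hab, hpre⟩ := hin r hrS
  have ha : c a = r := by
    have : a ∈ c ⁻¹' {r} := hpre ▸ ⟨le_refl _, hab.le⟩
    exact this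
  have hb : c b = r := by
    have : b ∈ c ⁻¹' {r} := hpre ▸ ⟨hab.le, le_refl _⟩
    exact this
  have hpa : p < a := by
    by_contra h
    push Not at h
    have h1 : c a ≤ c x := hm (by linarith [hx.1])
    have h2 : c a ≤ c y := hm (by linarith [hy.1])
    have : c a ≤ m := le_min h1 h2
    rw [ha] at this; linarith [hr.1]
  have hbq : b < q := by
    by_contra h
    push Not at h
    have h1 : c x ≤ c b := hm (by linarith [hx.2])
    have h2 : c y ≤ c b := hm (by linarith [hy.2])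
    have : M ≤ c b := max_le h1 h2
    rw [hb] at this; linarith [hr.2]
  have hrW : r ∉ W := hSW hrS
  have houtside : ∀ z, z < a → c z < r := by
    intro z hz
    refine lt_of_le_of_ne (ha ▸ hm hz.le) (fun h => ?_)
    have : z ∈ c ⁻¹' {r} := h
    rw [hpre] at this; linarith [this.1]
  have houtside' : ∀ z, b < z → r < c z := by
    intro z hz
    refine lt_of_le_of_ne (hb ▸ hm hz.le) (fun h => ?_)
    have : z ∈ c ⁻¹' {r} := h.symm
    rw [hpre] at this; linarith [this.2]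
  refine ⟨(a, b), ⟨hab, ?_, ?_, ?_⟩, hpa, hbq⟩
  · intro z hz hzW
    have : z ∈ c ⁻¹' {r} := hpre ▸ hz
    rw [mem_preimage, mem_singleton_iff] at this
    rw [mem_preimage, this] at hzW
    exact hrW hzW
  · intro e he
    have h1 := houtside (a - e / 2) (by linarith)
    obtain ⟨w, hw, hwW⟩ := dW (c (a - e / 2)) r h1
    have h2 : w ∈ Icc (c (a - e / 2)) (c a) := ⟨hw.1.le, by rw [ha]; exact hw.2.le⟩
    obtain ⟨t, ht, htw⟩ := intermediate_value_Icc (show a - e / 2 ≤ a by linarith) hc.continuousOn h2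
    refine ⟨t, ⟨by dsimp only; linarith [ht.1], ?_⟩, fun h => h (by rw [mem_preimage, htw]; exact hwW)⟩
    refine lt_of_le_of_ne ht.2 (fun h => ?_)
    rw [h, ha] at htw; linarith [hw.2]
  · intro e he
    have h1 := houtside' (b + e / 2) (by linarith)
    obtain ⟨w, hw, hwW⟩ := dW r (c (b + e / 2)) h1
    have h2 : w ∈ Icc (c b) (c (b + e / 2)) := ⟨by rw [hb]; exact hw.1.le, hw.2.le⟩
    obtain ⟨t, ht, htw⟩ := intermediate_value_Icc (show b ≤ b + e / 2 by linarith) hc.continuousOn h2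
    refine ⟨t, ⟨?_, by dsimp only; linarith [ht.2]⟩, fun h => h (by rw [mem_preimage, htw]; exact hwW)⟩
    refine lt_of_le_of_ne ht.1 (fun h => ?_)
    rw [← h, hb] at htw; linarith [hw.1]

end Pool.Agent.R270.WF
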