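import Pool.Agent.R270.WF.Defs

/-! Project WF: exact statements of the modules.  Proofs in notes.md. -/

namespace Pool.Agent.R270.WF
open Set

/-- M1: richness passes down under reductions -/
def StmM1 : Prop := ∀ (X Y : Set ℝ) (g : ℝ → ℝ), Continuous g → X = g ⁻¹' Y → PI Y → T2 Y → T2 X

/-- M2: rich families can be chosen saturated -/
def StmM2 : Prop := ∀ X : Set ℝ, PI X → T2 X → Good X

/-- `C` is a relatively closed saturated subset of `X ∩ J` -/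
def SatC (X J C : Set ℝ) : Prop := C ⊆ X ∩ J ∧ closure C ∩ J ⊆ C ∧
  ∀ U, Gap X U → Icc U.1 U.2 ⊆ J → (Icc U.1 U.2 ∩ C).Nonempty → Icc U.1 U.2 ⊆ C

/-- M3a: fill all complementary intervals of `C` -/
def StmM3a : Prop := ∀ X J C : Set ℝ, PI X → Good X → EndJ X J → SatC X J C →
  ∃ D : Set (ℝ × ℝ), (∀ U ∈ D, Gap X U ∧ Icc U.1 U.2 ⊆ J) ∧ C ⊆ Cov D ∧ Cov D ∩ J ⊆ X ∧
    (∀ U, Gap X U → Icc U.1 U.2 ⊆ J → (Icc U.1 U.2 ∩ Cov D).Nonempty → U ∈ D) ∧ Acc D ∧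
    (∀ p ∈ J, p ∉ C → (∃ V ∈ D, V.2 < p ∧ Disjoint (Icc V.1 p) C) ∧ (∃ V ∈ D, p < V.1 ∧ Disjoint (Icc p V.2) C))

/-- M3: existence of a normalised exhaustion (prove `StmM3a → StmM3`) -/
def StmM3 : Prop := ∀ X J : Set ℝ, PI X → Fs X → Good X → EndJ X J → ∃ D, Norm X J D

/-- M4: back and forth -/
def StmM4 : Prop := ∀ (P Q : Type) [LinearOrder P] [LinearOrder Q] [Countable P] [Countable Q] [Nonempty P] [Nonempty Q]
  (l : P → ℕ∞) (l' : Q → ℕ∞), LabAx P l → LabAx Q l' → ((∀ p, l p ≠ ⊤) ↔ (∀ q, l' q ≠ ⊤)) →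
  ∃ φ : P ≃o Q, ∀ p, l' (φ p) = l p

/-- M5: the gaps inside `J` with the labels of a normalised exhaustion satisfy the axioms -/
def StmM5 : Prop := ∀ (X J : Set ℝ) (D : ℕ → Set (ℝ × ℝ)), PI X → Good X → EndJ X J → Norm X J D →
  (NoBlue X J ∨ DenseBlue X J) → LabAx (Gp X J) (lab D) ∧ Countable (Gp X J) ∧ Nonempty (Gp X J)

/-- M6: an isomorphism of the labelled orders of gaps induces a monotone reduction `J → J'` -/
def StmM6 : Prop := ∀ (X Y J J' : Set ℝ) (D D' : ℕ → Set (ℝ × ℝ)) (φ : Gp X J ≃o Gp Y J'),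
  PI X → PI Y → Good X → Good Y → EndJ X J → EndJ Y J' → Norm X J D → Norm Y J' D' →
  (∀ U, lab D' (φ U) = lab D U) →
  ∃ g : ℝ → ℝ, MonotoneOn g J ∧ ContinuousOn g J ∧ g '' J = J' ∧ ∀ x ∈ J, (g x ∈ Y ↔ x ∈ X)

/-- M8a: blowing up the points of a countable set -/
def StmM8a : Prop := ∀ S : Set ℝ, S.Countable → ∃ c : ℝ → ℝ, Continuous c ∧ Monotone c ∧ Function.Surjective c ∧
  (∀ y ∈ S, ∃ a b : ℝ, a < b ∧ c ⁻¹' {y} = Icc a b) ∧ (∀ y, y ∉ S → ∃ a : ℝ, c ⁻¹' {y} = {a})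

/-- M8b: a continuous function, nowhere constant, all of whose level sets at the levels of a given countable set
have no isolated points and contain no local extrema -/
def StmM8b : Prop := ∀ L : Set ℝ, L.Countable → ∃ f : ℝ → ℝ, Continuous f ∧
  (∀ t, |f t - 5 * Real.sin t| ≤ 1) ∧
  (∀ a b : ℝ, a < b → ∃ x ∈ Ioo a b, ∃ y ∈ Ioo a b, f x ≠ f y) ∧
  (∀ l ∈ L, ∀ t, f t = l → ∀ e : ℝ, 0 < e → (∃ s ∈ Ioo (t - e) (t + e), f s < l) ∧ (∃ s ∈ Ioo (t - e) (t + e), l < f s) ∧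
    (∃ s ∈ Ioo (t - e) (t + e), s ≠ t ∧ f s = l))

/-- M8c: the preimage under such a function of a blown-up countable dense set is rich -/
def StmM8c : Prop := ∀ (S : Set ℝ) (c f : ℝ → ℝ), S.Countable → Dense S → Continuous c → Monotone c → Function.Surjective c →
  (∀ y ∈ S, ∃ a b : ℝ, a < b ∧ c ⁻¹' {y} = Icc a b) → (∀ y, y ∉ S → ∃ a : ℝ, c ⁻¹' {y} = {a}) →
  Continuous f →
  (∀ y ∈ S, ∀ a b : ℝ, c ⁻¹' {y} = Icc a b → ∀ l, (l = a ∨ l = b) → ∀ t, f t = l → ∀ e : ℝ, 0 < e →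
    (∃ s ∈ Ioo (t - e) (t + e), f s < l) ∧ (∃ s ∈ Ioo (t - e) (t + e), l < f s) ∧
    (∃ s ∈ Ioo (t - e) (t + e), s ≠ t ∧ f s = l)) →
  T2 (f ⁻¹' (c ⁻¹' S))

end Pool.Agent.R270.WF
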